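import Pool.Agent.Q42.SH.Base

/-!
Library Q42.SH (helper42), part 2: one exceptional set of scales for a fixed `z`; the uniform version;
logarithmic averages.
-/

set_option autoImplicit false

open Finset Filter

namespace Pool.Agent.Q42.SH

open Pool.Agent.Helper602.MK (ee)
open Pool.Agent.Helper602.MK.N_J1c (c_ee_add c_ee_int c_norm_ee)
open Pool.Agent.Y842.QY
open Pool.Agent.Y958.U (LZ)
open ArithmeticFunction (cardFactors)

lemma g_mul (z : ℂ) (m n : ℕ) (hm : 1 ≤ m) (hn : 1 ≤ n) :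
    z ^ cardFactors (m * n) = z ^ cardFactors m * z ^ cardFactors n := by
  rw [ArithmeticFunction.cardFactors_mul (by omega) (by omega), pow_add]

/-- the two point theorem for `z ^ Ω`, one exceptional set of scales -/
theorem two_LZ (z : ℂ) (hz : ‖z‖ = 1) (hz1 : z ≠ 1) : ∃ E : Set ℕ, LZ E ∧ ∀ a c : ℕ, a ≠ c →
    ∀ ε : ℝ, 0 < ε → ∃ N₀ : ℕ, ∀ N : ℕ, N₀ ≤ N → N ∉ E → ∀ (γ : ℝ) (y : ℕ), y ≤ N →
      ‖∑ n ∈ Icc 1 y, z ^ cardFactors (n + a) * (starRingEnd ℂ) z ^ cardFactors (n + c) *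
        ee (γ * n)‖ ≤ ε * N := by
  have hzc : ‖(starRingEnd ℂ) z‖ = 1 := by rw [RCLike.norm_conj, hz]
  obtain ⟨E, hE, h⟩ := excW (kc := 1) (fun _ => 0) (fun _ => 1) (fun _ => by simp)
    (fun n => (starRingEnd ℂ) z ^ cardFactors n) (fun n _ => by
      show ‖(starRingEnd ℂ) z ^ cardFactors n‖ ≤ 1
      rw [norm_pow, hzc, one_pow])
    (fun m n hm hn _ => g_mul _ m n hm hn) (fun l => z ^ l) (fun l => by rw [norm_pow, hz, one_pow])
  refine ⟨E, hE, fun a c hac ε hε => ?_⟩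
  obtain ⟨N₁, h1⟩ := h a c hac (ε / 2) (by positivity)
  have hδ : 0 < ‖z - 1‖ := norm_pos_iff.2 (sub_ne_zero.2 hz1)
  obtain ⟨N₂, h2⟩ := zmean ‖z - 1‖ (ε / 2) hδ (by positivity)
  refine ⟨N₁ + N₂, fun N hN hNE γ y hy => ?_⟩
  have h3 := h1 N (by omega) hNE γ y hy
  have h4 := h2 z hz.le le_rfl N (by omega)
  have hyN : (y : ℝ) ≤ N := by exact_mod_cast hy
  have e1 : ∑ n ∈ Icc 1 y, z ^ cardFactors (n + a) * (starRingEnd ℂ) z ^ cardFactors (n + c) *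
        ee (γ * n) = Lc (fun n => 1 * (starRingEnd ℂ) z ^ cardFactors (n + c) * ee (γ * n)) a N y
          (fun l => z ^ l) + ∑ n ∈ Icc 1 y, mB (fun l => z ^ l) N *
            ((starRingEnd ℂ) z ^ cardFactors (n + c) * ee (γ * n)) := by
    unfold Lc
    rw [← sum_add_distrib]
    refine sum_congr rfl fun n _ => ?_
    ring
  have e2 : ‖∑ n ∈ Icc 1 y, mB (fun l => z ^ l) N *
            ((starRingEnd ℂ) z ^ cardFactors (n + c) * ee (γ * n))‖ ≤ ε / 2 * N := by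
    calc ‖∑ n ∈ Icc 1 y, mB (fun l => z ^ l) N *
            ((starRingEnd ℂ) z ^ cardFactors (n + c) * ee (γ * n))‖ ≤
          ∑ n ∈ Icc 1 y, ‖mB (fun l => z ^ l) N‖ := by
          refine (norm_sum_le _ _).trans (sum_le_sum fun n _ => ?_)
          rw [norm_mul, norm_mul, norm_pow, hzc, one_pow, one_mul, c_norm_ee, mul_one]
      _ = y * ‖mB (fun l => z ^ l) N‖ := by simp
      _ ≤ N * (ε / 2) := mul_le_mul hyN h4 (norm_nonneg _) (Nat.cast_nonneg N)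
      _ = _ := by ring
  rw [e1]
  have h5 := norm_add_le (Lc (fun n => 1 * (starRingEnd ℂ) z ^ cardFactors (n + c) * ee (γ * n)) a N y
          (fun l => z ^ l)) (∑ n ∈ Icc 1 y, mB (fun l => z ^ l) N *
            ((starRingEnd ℂ) z ^ cardFactors (n + c) * ee (γ * n)))
  have h6 : ‖Lc (fun n => 1 * (starRingEnd ℂ) z ^ cardFactors (n + c) * ee (γ * n)) a N y
          (fun l => z ^ l)‖ ≤ ε / 2 * N := h3
  linarith

/-- **products of any length in progression, for a fixed `z`** -/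
theorem prog_LZ (z : ℂ) (hz : ‖z‖ = 1) (hz1 : z ≠ 1) : ∃ E : Set ℕ, LZ E ∧ ∀ k t h q : ℕ, 1 ≤ k →
    1 ≤ t → 1 ≤ q → ∀ ε : ℝ, 0 < ε → ∃ N₀ : ℕ, ∀ N : ℕ, N₀ ≤ N → N ∉ E → ∀ κ : ℕ → ℕ → ℂ,
      (∀ j n, ‖κ j n‖ ≤ 1) → (∀ j n, κ j (n + q) = κ j n) → ∀ (α β : ℝ) (y : ℕ), y ≤ N →
      ‖∑ n ∈ Icc 1 y, Pk z κ k t (n + h) * ph α β n‖ ≤ (√2 / 2 + ε) * N := by
  obtain ⟨E, hE, h2⟩ := two_LZ z hz hz1
  refine ⟨E, hE, fun k t h q hk ht hq ε hε => ?_⟩
  have hq0 : (0 : ℝ) < q := by exact_mod_cast hq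
  have hac : h + k * t ≠ h := by
    have : 0 < k * t := Nat.mul_pos hk ht
    omega
  obtain ⟨N₁, h3⟩ := h2 (h + k * t) h hac ((ε / 2) ^ 2 / q) (by positivity)
  refine ⟨N₁ + ⌈2 * t / ε⌉₊, fun N hN hNE κ hκ hκq α β y hy => ?_⟩
  have h4 := reduce z hz κ hκ q hq hκq k t h y N hy (ε / 2) (by positivity) α β (fun γ => by
    have := h3 N (by omega) hNE γ y hy
    calc _ ≤ (ε / 2) ^ 2 / q * N := this
      _ = (ε / 2) ^ 2 * N / q := by ring)
  have h5 : 2 * t / ε ≤ (N : ℝ) := (Nat.le_ceil _).trans (Nat.cast_le.2 (by omega))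
  rw [div_le_iff₀ hε] at h5
  linarith

/-- summation by parts -/
lemma abel_c (F : ℕ → ℂ) (X : ℕ) : ∑ n ∈ Icc 1 X, F n / n =
    ∑ N ∈ Icc 1 X, (∑ n ∈ Icc 1 N, F n) / ((N : ℂ) * (N + 1)) + (∑ n ∈ Icc 1 X, F n) / ((X : ℂ) + 1) := by
  induction X with
  | zero => simp
  | succ X ih =>
    rw [sum_Icc_succ_top (by omega), sum_Icc_succ_top (by omega), ih]
    set S := ∑ n ∈ Icc 1 X, F n with hS
    have e : ∑ n ∈ Icc 1 (X + 1), F n = S + F (X + 1) := by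
      rw [sum_Icc_succ_top (by omega)]
    rw [e]
    have h1 : (X : ℂ) + 1 ≠ 0 := by exact_mod_cast (by omega : X + 1 ≠ 0)
    have h2 : (X : ℂ) + 1 + 1 ≠ 0 := by exact_mod_cast (by omega : X + 1 + 1 ≠ 0)
    push_cast
    field_simp
    ring

lemma harmonic_c (X : ℕ) : ∑ i ∈ Icc 1 X, (1 : ℝ) / i ≤ 1 + Real.log X := by
  have h8 := harmonic_le_one_add_log X
  have h9 : ∑ i ∈ Icc 1 X, (1 : ℝ) / i = ((harmonic X : ℚ) : ℝ) := by
    rw [harmonic_eq_sum_Icc]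
    push_cast
    apply sum_congr rfl
    intro i _
    rw [one_div]
  rw [h9]
  exact h8

open Classical in
/-- logarithmic averages from bounds outside a set of scales -/
lemma log_c (F : ℕ → ℂ) (hF : ∀ n, ‖F n‖ ≤ 1) (C : ℝ) (hC : 0 ≤ C) (X : ℕ) (T : Set ℕ)
    (h : ∀ N, 1 ≤ N → N ≤ X → N ∉ T → ‖∑ n ∈ Icc 1 N, F n‖ ≤ C * N) :
    ‖∑ n ∈ Icc 1 X, F n / n‖ ≤ C * (1 + Real.log X) + (∑ N ∈ Icc 1 X, if N ∈ T then (1 : ℝ) / N else 0) + 1 := by
  have hS : ∀ N : ℕ, ‖∑ n ∈ Icc 1 N, F n‖ ≤ N := by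
    intro N
    refine (norm_sum_le _ _).trans ((sum_le_sum fun k _ => hF _).trans (le_of_eq ?_))
    simp
  rw [abel_c]
  have h3 : ‖(∑ n ∈ Icc 1 X, F n) / ((X : ℂ) + 1)‖ ≤ 1 := by
    have e : ‖(X : ℂ) + 1‖ = (X : ℝ) + 1 := by
      have : (X : ℂ) + 1 = (((X : ℝ) + 1 : ℝ) : ℂ) := by push_cast; ring
      rw [this, Complex.norm_real, Real.norm_of_nonneg (by positivity)]
    rw [norm_div, e, div_le_one (by positivity)]
    have := hS X
    linarith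
  have h4 : ‖∑ N ∈ Icc 1 X, (∑ n ∈ Icc 1 N, F n) / ((N : ℂ) * (N + 1))‖ ≤
      C * (1 + Real.log X) + ∑ N ∈ Icc 1 X, if N ∈ T then (1 : ℝ) / N else 0 := by
    have h5 : ∀ N ∈ Icc 1 X, ‖(∑ n ∈ Icc 1 N, F n) / ((N : ℂ) * (N + 1))‖ ≤
        C * (1 / (N : ℝ)) + if N ∈ T then (1 : ℝ) / N else 0 := by
      intro N hN
      rw [mem_Icc] at hN
      have hN0 : (0 : ℝ) < N := by exact_mod_cast (by omega : 0 < N)
      have e : ‖(N : ℂ) * (N + 1)‖ = (N : ℝ) * (N + 1) := by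
        have : (N : ℂ) * (N + 1) = (((N : ℝ) * (N + 1) : ℝ) : ℂ) := by push_cast; ring
        rw [this, Complex.norm_real, Real.norm_of_nonneg (by positivity)]
      rw [norm_div, e]
      have e2 : (N : ℝ) / ((N : ℝ) * (N + 1)) ≤ 1 / N := by
        rw [div_le_div_iff₀ (by positivity) hN0]
        nlinarith
      split_ifs with hT
      · have a1 : ‖∑ n ∈ Icc 1 N, F n‖ / ((N : ℝ) * (N + 1)) ≤ N / ((N : ℝ) * (N + 1)) :=
          div_le_div_of_nonneg_right (hS N) (by positivity)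
        have a2 : 0 ≤ C * (1 / (N : ℝ)) := mul_nonneg hC (by positivity)
        linarith
      · rw [add_zero]
        calc ‖∑ n ∈ Icc 1 N, F n‖ / ((N : ℝ) * (N + 1)) ≤ C * N / ((N : ℝ) * (N + 1)) :=
              div_le_div_of_nonneg_right (h N hN.1 hN.2 hT) (by positivity)
          _ = C * (N / ((N : ℝ) * (N + 1))) := by ring
          _ ≤ C * (1 / N) := mul_le_mul_of_nonneg_left e2 hC
    refine (norm_sum_le _ _).trans ((sum_le_sum h5).trans ?_)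
    rw [sum_add_distrib, ← mul_sum]
    apply add_le_add _ le_rfl
    exact mul_le_mul_of_nonneg_left (harmonic_c X) hC
  exact (norm_add_le _ _).trans (by linarith)

end Pool.Agent.Q42.SH
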