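import Pool.Agent.Y842.QY.Ell2

/-!
Library Q42.SH (helper42): products, along an arithmetic progression, of any number of functions
`z ^ Ω(n) κ(n)`, `|z| = 1`, `κ` periodic.  Two neighbouring products have a quotient which is a two
point product; so the mean of the product is at most `1 / √2` whenever the two point means are small.
-/

set_option autoImplicit false

open Finset

namespace Pool.Agent.Q42.SH

open Pool.Agent.Helper602.MK (ee)
open Pool.Agent.Helper602.MK.N_J1c (c_ee_add c_ee_int c_norm_ee)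
open Pool.Agent.Y842.QY
open Pool.Agent.Y842.PG (per_I)
open Pool.Agent.Y958.U (LZ)
open ArithmeticFunction (cardFactors)

lemma shift_c (Q : ℕ → ℂ) (hQ : ∀ n, ‖Q n‖ ≤ 1) (m N : ℕ) :
    ‖∑ n ∈ Icc 1 N, Q (n + m) - ∑ n ∈ Icc 1 N, Q n‖ ≤ 2 * m := by
  induction m with
  | zero => simp
  | succ m ih =>
    have h1 : ∀ N : ℕ, ∑ n ∈ Icc 1 N, Q (n + (m + 1)) - ∑ n ∈ Icc 1 N, Q (n + m) =
        Q (N + 1 + m) - Q (1 + m) := by
      intro N
      induction N with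
      | zero => simp
      | succ N ihN =>
        rw [sum_Icc_succ_top (by omega), sum_Icc_succ_top (by omega)]
        have e1 : N + 1 + (m + 1) = N + 1 + 1 + m := by ring
        rw [e1]
        linear_combination ihN
    have e : ∑ n ∈ Icc 1 N, Q (n + (m + 1)) - ∑ n ∈ Icc 1 N, Q n =
        (Q (N + 1 + m) - Q (1 + m)) + (∑ n ∈ Icc 1 N, Q (n + m) - ∑ n ∈ Icc 1 N, Q n) := by
      rw [← h1 N]
      ring
    rw [e]
    have h3 := norm_add_le (Q (N + 1 + m) - Q (1 + m)) (∑ n ∈ Icc 1 N, Q (n + m) - ∑ n ∈ Icc 1 N, Q n)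
    have h4 := norm_sub_le (Q (N + 1 + m)) (Q (1 + m))
    have h5 := hQ (N + 1 + m)
    have h6 := hQ (1 + m)
    push_cast
    linarith

lemma le_of_sq_le_sq_nn {a b : ℝ} (hb : 0 ≤ b) (h : a ^ 2 ≤ b ^ 2) : a ≤ b := by
  exact (le_abs_self a).trans (abs_le_of_sq_le_sq h hb)

/-- **the shift trick**: a mean is at most `1 / √2` if its correlation with a shift is small -/
lemma det (Q : ℕ → ℂ) (hQ : ∀ n, ‖Q n‖ ≤ 1) (t y N : ℕ) (hy : y ≤ N) (η : ℝ) (hη : 0 ≤ η)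
    (hC : ‖∑ n ∈ Icc 1 y, Q (n + t) * (starRingEnd ℂ) (Q n)‖ ≤ η ^ 2 * N) :
    ‖∑ n ∈ Icc 1 y, Q n‖ ≤ √2 / 2 * N + η * N + t := by
  set S := ∑ n ∈ Icc 1 y, Q n with hS
  set S' := ∑ n ∈ Icc 1 y, Q (n + t) with hS'
  set C := ∑ n ∈ Icc 1 y, Q (n + t) * (starRingEnd ℂ) (Q n) with hCd
  have h1 := shift_c Q hQ t y
  have hyN : (y : ℝ) ≤ N := by exact_mod_cast hy
  have hy0 : (0 : ℝ) ≤ y := Nat.cast_nonneg y
  have hN0 : (0 : ℝ) ≤ N := Nat.cast_nonneg N
  have h2 : ‖S + S'‖ ^ 2 ≤ 2 * N ^ 2 + 2 * N * (η ^ 2 * N) := by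
    have a1 : ‖S + S'‖ ≤ ∑ n ∈ Icc 1 y, ‖Q n + Q (n + t)‖ := by
      rw [hS, hS', ← sum_add_distrib]
      exact norm_sum_le _ _
    have a2 : (∑ n ∈ Icc 1 y, ‖Q n + Q (n + t)‖) ^ 2 ≤ y * ∑ n ∈ Icc 1 y, ‖Q n + Q (n + t)‖ ^ 2 := by
      have := sq_sum_le_card_mul_sum_sq (s := Icc 1 y) (f := fun n => ‖Q n + Q (n + t)‖)
      simpa using this
    have a3 : ∑ n ∈ Icc 1 y, ‖Q n + Q (n + t)‖ ^ 2 ≤ 2 * y + 2 * C.re := by
      have b1 : ∀ n ∈ Icc 1 y, ‖Q n + Q (n + t)‖ ^ 2 ≤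
          2 + 2 * (Q (n + t) * (starRingEnd ℂ) (Q n)).re := by
        intro n _
        have c1 : ‖Q n + Q (n + t)‖ ^ 2 = ‖Q n‖ ^ 2 + ‖Q (n + t)‖ ^ 2 +
            2 * (Q (n + t) * (starRingEnd ℂ) (Q n)).re := by
          rw [Complex.sq_norm, Complex.sq_norm, Complex.sq_norm, Complex.normSq_apply,
            Complex.normSq_apply, Complex.normSq_apply]
          simp only [Complex.add_re, Complex.add_im, Complex.mul_re, Complex.conj_re, Complex.conj_im]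
          ring
        have c2 : ‖Q n‖ ^ 2 ≤ 1 := pow_le_one₀ (norm_nonneg _) (hQ n)
        have c3 : ‖Q (n + t)‖ ^ 2 ≤ 1 := pow_le_one₀ (norm_nonneg _) (hQ _)
        rw [c1]
        linarith
      refine (sum_le_sum b1).trans (le_of_eq ?_)
      rw [sum_add_distrib, ← mul_sum, hCd, Complex.re_sum]
      simp
      ring
    have a4 : C.re ≤ η ^ 2 * N := (Complex.re_le_norm C).trans hC
    have a5 : 0 ≤ η ^ 2 * N := by positivity
    calc ‖S + S'‖ ^ 2 ≤ (∑ n ∈ Icc 1 y, ‖Q n + Q (n + t)‖) ^ 2 := by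
          apply pow_le_pow_left₀ (norm_nonneg _) a1
      _ ≤ y * ∑ n ∈ Icc 1 y, ‖Q n + Q (n + t)‖ ^ 2 := a2
      _ ≤ y * (2 * y + 2 * C.re) := mul_le_mul_of_nonneg_left a3 hy0
      _ ≤ y * (2 * N + 2 * (η ^ 2 * N)) := mul_le_mul_of_nonneg_left (by linarith) hy0
      _ ≤ N * (2 * N + 2 * (η ^ 2 * N)) := mul_le_mul_of_nonneg_right hyN (by positivity)
      _ = _ := by ring
  have h3 : ‖S + S'‖ ≤ √2 * N + 2 * η * N := by
    have s2 : √2 * √2 = 2 := Real.mul_self_sqrt (by norm_num)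
    have s0 : 0 ≤ √2 := Real.sqrt_nonneg 2
    refine le_of_sq_le_sq_nn (by positivity) ?_
    calc ‖S + S'‖ ^ 2 ≤ 2 * N ^ 2 + 2 * N * (η ^ 2 * N) := h2
      _ ≤ (√2 * N + 2 * η * N) ^ 2 := by
          have e : (√2 * N + 2 * η * N) ^ 2 = (√2 * √2) * N ^ 2 + 4 * √2 * η * N ^ 2 + 4 * η ^ 2 * N ^ 2 := by
            ring
          rw [e, s2]
          have p1 : 0 ≤ 4 * √2 * η * (N : ℝ) ^ 2 := by positivity
          have p2 : 0 ≤ 2 * η ^ 2 * (N : ℝ) ^ 2 := by positivity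
          linarith
  have h4 : ‖2 * S‖ ≤ ‖S + S'‖ + ‖S' - S‖ := by
    have : 2 * S = (S + S') - (S' - S) := by ring
    rw [this]
    exact norm_sub_le _ _
  rw [norm_mul, Complex.norm_two] at h4
  linarith

/-- the product -/
noncomputable def Pk (z : ℂ) (κ : ℕ → ℕ → ℂ) (k t n : ℕ) : ℂ :=
  ∏ j ∈ range k, (z ^ cardFactors (n + j * t) * κ j (n + j * t))

lemma Pk_le (z : ℂ) (hz : ‖z‖ = 1) (κ : ℕ → ℕ → ℂ) (hκ : ∀ j n, ‖κ j n‖ ≤ 1) (k t n : ℕ) :
    ‖Pk z κ k t n‖ ≤ 1 := by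
  unfold Pk
  rw [norm_prod]
  refine prod_le_one (fun _ _ => norm_nonneg _) fun j _ => ?_
  rw [norm_mul, norm_pow, hz, one_pow, one_mul]
  exact hκ _ _

/-- the periodic factor of the quotient -/
noncomputable def Kk (κ : ℕ → ℕ → ℂ) (k t n : ℕ) : ℂ :=
  ∏ j ∈ range k, (κ j (n + t + j * t) * (starRingEnd ℂ) (κ j (n + j * t)))

lemma Kk_le (κ : ℕ → ℕ → ℂ) (hκ : ∀ j n, ‖κ j n‖ ≤ 1) (k t n : ℕ) : ‖Kk κ k t n‖ ≤ 1 := by
  unfold Kk
  rw [norm_prod]
  refine prod_le_one (fun _ _ => norm_nonneg _) fun j _ => ?_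
  rw [norm_mul, RCLike.norm_conj]
  exact mul_le_one₀ (hκ _ _) (norm_nonneg _) (hκ _ _)

lemma Kk_per (κ : ℕ → ℕ → ℂ) (q : ℕ) (hq : ∀ j n, κ j (n + q) = κ j n) (k t n : ℕ) :
    Kk κ k t (n + q) = Kk κ k t n := by
  unfold Kk
  refine prod_congr rfl fun j _ => ?_
  have e1 : n + q + t + j * t = n + t + j * t + q := by ring
  have e2 : n + q + j * t = n + j * t + q := by ring
  rw [e1, e2, hq, hq]

lemma Pk_mul (z : ℂ) (hz : ‖z‖ = 1) (κ : ℕ → ℕ → ℂ) (k t n : ℕ) :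
    Pk z κ k t (n + t) * (starRingEnd ℂ) (Pk z κ k t n) =
      z ^ cardFactors (n + k * t) * (starRingEnd ℂ) z ^ cardFactors n * Kk κ k t n := by
  have hu : ∀ m : ℕ, z ^ m * (starRingEnd ℂ) z ^ m = 1 := by
    intro m
    rw [← mul_pow, Complex.mul_conj, Complex.normSq_eq_norm_sq, hz]
    simp
  unfold Pk Kk
  rw [map_prod, ← prod_mul_distrib]
  have h1 : ∀ j ∈ range k, z ^ cardFactors (n + t + j * t) * κ j (n + t + j * t) *
      (starRingEnd ℂ) (z ^ cardFactors (n + j * t) * κ j (n + j * t)) =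
      (z ^ cardFactors (n + (j + 1) * t) * (starRingEnd ℂ) z ^ cardFactors (n + j * t)) *
        (κ j (n + t + j * t) * (starRingEnd ℂ) (κ j (n + j * t))) := by
    intro j _
    have e1 : n + t + j * t = n + (j + 1) * t := by ring
    rw [map_mul, map_pow, e1]
    ring
  rw [prod_congr rfl h1, prod_mul_distrib]
  congr 1
  induction k with
  | zero =>
    rw [range_zero, prod_empty, zero_mul, add_zero, hu]
  | succ k ih =>
    have h1' : ∀ j ∈ range k, z ^ cardFactors (n + t + j * t) * κ j (n + t + j * t) *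
      (starRingEnd ℂ) (z ^ cardFactors (n + j * t) * κ j (n + j * t)) =
      (z ^ cardFactors (n + (j + 1) * t) * (starRingEnd ℂ) z ^ cardFactors (n + j * t)) *
        (κ j (n + t + j * t) * (starRingEnd ℂ) (κ j (n + j * t))) := fun j hj =>
      h1 j (mem_range.2 (by have := mem_range.1 hj; omega))
    rw [prod_range_succ, ih h1']
    linear_combination (z ^ cardFactors (n + (k + 1) * t) * (starRingEnd ℂ) z ^ cardFactors n) *
      hu (cardFactors (n + k * t))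

/-- a quadratic phase -/
noncomputable def ph (α β : ℝ) (n : ℕ) : ℂ := ee (α * (n : ℝ) ^ 2 + β * n)

lemma ph_norm (α β : ℝ) (n : ℕ) : ‖ph α β n‖ = 1 := c_norm_ee _

lemma ph_mul (α β : ℝ) (t n : ℕ) : ph α β (n + t) * (starRingEnd ℂ) (ph α β n) =
    ee ((2 * α * t) * n) * ee (α * (t : ℝ) ^ 2 + β * t) := by
  have h1 : ph α β (n + t) = ph α β n * (ee ((2 * α * t) * n) * ee (α * (t : ℝ) ^ 2 + β * t)) := by
    unfold ph
    rw [← c_ee_add, ← c_ee_add]
    congr 1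
    push_cast
    ring
  have h2 : ph α β n * (starRingEnd ℂ) (ph α β n) = 1 := by
    rw [Complex.mul_conj, Complex.normSq_eq_norm_sq, ph_norm]
    simp
  rw [h1]
  linear_combination (ee ((2 * α * t) * n) * ee (α * (t : ℝ) ^ 2 + β * t)) * h2

/-- **the reduction to two points** -/
lemma reduce (z : ℂ) (hz : ‖z‖ = 1) (κ : ℕ → ℕ → ℂ) (hκ : ∀ j n, ‖κ j n‖ ≤ 1) (q : ℕ) (hq1 : 1 ≤ q)
    (hq : ∀ j n, κ j (n + q) = κ j n) (k t h y N : ℕ) (hy : y ≤ N) (η : ℝ) (hη : 0 ≤ η) (α β : ℝ)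
    (hC : ∀ γ : ℝ, ‖∑ n ∈ Icc 1 y, z ^ cardFactors (n + (h + k * t)) *
      (starRingEnd ℂ) z ^ cardFactors (n + h) * ee (γ * n)‖ ≤ η ^ 2 * N / q) :
    ‖∑ n ∈ Icc 1 y, Pk z κ k t (n + h) * ph α β n‖ ≤ √2 / 2 * N + η * N + t := by
  apply det (fun n => Pk z κ k t (n + h) * ph α β n) _ t y N hy η hη
  · have hq0 : (0 : ℝ) < q := by exact_mod_cast hq1
    have h1 := per_I y q hq1 (fun n => z ^ cardFactors (n + (h + k * t)) *
      (starRingEnd ℂ) z ^ cardFactors (n + h)) (Kk κ k t) h (Kk_le κ hκ k t) (Kk_per κ q hq k t)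
      (η ^ 2 * N / q) hC (2 * α * t)
    rw [mul_div_cancel₀ _ hq0.ne'] at h1
    refine le_trans (le_of_eq ?_) h1
    have e : ∀ n ∈ Icc 1 y, Pk z κ k t (n + t + h) * ph α β (n + t) *
        (starRingEnd ℂ) (Pk z κ k t (n + h) * ph α β n) =
        (z ^ cardFactors (n + (h + k * t)) * (starRingEnd ℂ) z ^ cardFactors (n + h) *
          Kk κ k t (n + h) * ee ((2 * α * t) * n)) * ee (α * (t : ℝ) ^ 2 + β * t) := by
      intro n _
      have a1 := Pk_mul z hz κ k t (n + h)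
      have a2 := ph_mul α β t n
      have e1 : n + h + t = n + t + h := by ring
      have e2 : n + h + k * t = n + (h + k * t) := by ring
      rw [e1, e2] at a1
      rw [map_mul]
      calc Pk z κ k t (n + t + h) * ph α β (n + t) *
          ((starRingEnd ℂ) (Pk z κ k t (n + h)) * (starRingEnd ℂ) (ph α β n)) =
          (Pk z κ k t (n + t + h) * (starRingEnd ℂ) (Pk z κ k t (n + h))) *
            (ph α β (n + t) * (starRingEnd ℂ) (ph α β n)) := by ring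
        _ = _ := by
          rw [a1, a2]
          ring
    show ‖∑ n ∈ Icc 1 y, Pk z κ k t (n + t + h) * ph α β (n + t) *
        (starRingEnd ℂ) (Pk z κ k t (n + h) * ph α β n)‖ = _
    rw [sum_congr rfl e, ← sum_mul, norm_mul, c_norm_ee, mul_one]
  · intro n
    show ‖Pk z κ k t (n + h) * ph α β n‖ ≤ 1
    rw [norm_mul, ph_norm, mul_one]
    exact Pk_le z hz κ hκ k t _

end Pool.Agent.Q42.SH
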