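import Pool.Agent.Q42.SH.Lin

/-!
Library Q42.SH (helper42), part 6: Bessel's inequality for families whose members are asymptotically
orthogonal outside one set of scales, with arbitrary linear phases; the family of the Liouville
function at linear forms.
-/

set_option autoImplicit false

open Finset Filter

namespace Pool.Agent.Q42.SH

open Pool.Agent.Helper602.MK (ee)
open Pool.Agent.Helper602.MK.N_J1c (c_ee_add c_ee_int c_norm_ee)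
open Pool.Agent.Y958.U (LZ)
open ArithmeticFunction (cardFactors)

lemma ee_conj (x : ℝ) : (starRingEnd ℂ) (ee x) = ee (-x) := by
  have h1 : ee x * ee (-x) = 1 := by
    rw [← c_ee_add, add_neg_cancel]
    unfold ee
    simp
  have h2 : ee x * (starRingEnd ℂ) (ee x) = 1 := by
    rw [Complex.mul_conj, Complex.normSq_eq_norm_sq, c_norm_ee]
    simp
  have h3 : ee x ≠ 0 := by
    intro h
    rw [h, zero_mul] at h1
    exact zero_ne_one h1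
  exact mul_left_cancel₀ h3 (h2.trans h1.symm)

/-- **Bessel's inequality** for asymptotically orthogonal families, uniformly over all sequences -/
theorem bes_gen {ι : Type*} (E : Set ℕ) (hE : LZ E) (F : Finset ι) (v : ι → ℕ → ℂ)
    (hv : ∀ i n, ‖v i n‖ ≤ 1)
    (hij : ∀ i ∈ F, ∀ j ∈ F, i ≠ j → ∀ ε : ℝ, 0 < ε → ∃ N₀ : ℕ, ∀ N : ℕ, N₀ ≤ N → N ∉ E → ∀ γ : ℝ,
      ‖∑ n ∈ Icc 1 N, v i n * (starRingEnd ℂ) (v j n) * ee (γ * n)‖ ≤ ε * N)
    (ε : ℝ) (hε : 0 < ε) : ∃ N₀ : ℕ, ∀ N : ℕ, N₀ ≤ N →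
      (N ∉ E → ∀ (ξ : ℕ → ℂ) (α : ι → ℝ),
        ∑ i ∈ F, ‖∑ n ∈ Icc 1 N, v i n * ξ n * ee (α i * n)‖ ^ 2 ≤
          (1 + ε) * N * ∑ n ∈ Icc 1 N, ‖ξ n‖ ^ 2) ∧
      (∀ (ξ : ℕ → ℂ) (α : ι → ℝ),
        ∑ i ∈ F, ‖∑ n ∈ Icc 1 N, v i n * ξ n * ee (α i * n) / n‖ ^ 2 ≤
          (1 + ε) * Real.log N * ∑ n ∈ Icc 1 N, ‖ξ n‖ ^ 2 / n) := by
  classical
  set κ : ℝ := min (ε / (4 * (F.card + 1))) (1 / 2) with hκ
  have hκ0 : 0 < κ := lt_min (by positivity) (by norm_num)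
  have hκ1 : κ ≤ 1 / 2 := min_le_right _ _
  have hκ2 : F.card * κ ≤ ε / 4 := by
    have h1 : κ ≤ ε / (4 * (F.card + 1)) := min_le_left _ _
    calc F.card * κ ≤ (F.card + 1) * (ε / (4 * (F.card + 1))) :=
          mul_le_mul (by linarith) h1 hκ0.le (by positivity)
      _ = ε / 4 := by
          field_simp
  have hN : ∀ p : ι × ι, ∃ N₀ : ℕ, p.1 ∈ F → p.2 ∈ F → p.1 ≠ p.2 → ∀ N : ℕ, N₀ ≤ N → N ∉ E → ∀ γ : ℝ,
      ‖∑ n ∈ Icc 1 N, v p.1 n * (starRingEnd ℂ) (v p.2 n) * ee (γ * n)‖ ≤ κ * N := by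
    intro p
    by_cases h : p.1 ∈ F ∧ p.2 ∈ F ∧ p.1 ≠ p.2
    · obtain ⟨N₀, h1⟩ := hij p.1 h.1 p.2 h.2.1 h.2.2 κ hκ0
      exact ⟨N₀, fun _ _ _ => h1⟩
    · exact ⟨0, fun h1 h2 h3 => absurd ⟨h1, h2, h3⟩ h⟩
  choose M hM using hN
  set N₁ : ℕ := ∑ p ∈ F ×ˢ F, M p with hN₁
  have hMle : ∀ i ∈ F, ∀ j ∈ F, M (i, j) ≤ N₁ := fun i hi j hj =>
    single_le_sum (f := M) (fun _ _ => Nat.zero_le _) (mem_product.2 ⟨hi, hj⟩)
  obtain ⟨X₀, hX₀⟩ := log_unif E hE N₁ κ hκ0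
  have hlog : Tendsto (fun X : ℕ => Real.log X) atTop atTop :=
    Real.tendsto_log_atTop.comp tendsto_natCast_atTop_atTop
  obtain ⟨X₁, hX₁⟩ := eventually_atTop.1 (hlog.eventually_ge_atTop (4 / ε))
  have hprod : ∀ (α : ι → ℝ) (i j : ι) (n : ℕ), (v i n * ee (α i * n)) *
      (starRingEnd ℂ) (v j n * ee (α j * n)) =
      v i n * (starRingEnd ℂ) (v j n) * ee ((α i - α j) * n) := by
    intro α i j n
    have e1 : ee ((α i - α j) * n) = ee (α i * n) * ee (-(α j * n)) := by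
      rw [← c_ee_add]
      congr 1
      ring
    rw [map_mul, ee_conj, e1]
    ring
  refine ⟨N₁ + X₀ + X₁ + 1, fun N hN => ⟨fun hNE ξ α => ?_, fun ξ α => ?_⟩⟩
  · have h1 := bessel F (Icc 1 N) (fun _ => 1) (fun _ => zero_le_one)
      (fun i n => v i n * ee (α i * n)) N (Nat.cast_nonneg N) (fun i _ => by
        have : ∀ n ∈ Icc 1 N, (1 : ℝ) * ‖v i n * ee (α i * n)‖ ^ 2 ≤ 1 := by
          intro n _
          rw [norm_mul, c_norm_ee, mul_one, one_mul]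
          exact pow_le_one₀ (norm_nonneg _) (hv i n)
        refine (sum_le_sum this).trans ?_
        simp) (κ * N) (by positivity) (fun i hi j hj hne => by
        have h2 := hM (i, j) hi hj hne N (by have := hMle i hi j hj; omega) hNE (α i - α j)
        refine le_trans (le_of_eq ?_) h2
        congr 1
        refine sum_congr rfl fun n _ => ?_
        rw [hprod, Complex.ofReal_one, one_mul]) ξ
    have e1 : ∀ i ∈ F, ‖∑ n ∈ Icc 1 N, v i n * ξ n * ee (α i * n)‖ ^ 2 =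
        ‖∑ n ∈ Icc 1 N, ((1 : ℝ) : ℂ) * (v i n * ee (α i * n) * ξ n)‖ ^ 2 := by
      intro i _
      congr 2
      refine sum_congr rfl fun n _ => ?_
      rw [Complex.ofReal_one]
      ring
    rw [sum_congr rfl e1]
    refine h1.trans ?_
    simp only [one_mul]
    refine mul_le_mul_of_nonneg_right ?_ (sum_nonneg fun _ _ => by positivity)
    have hN0 : (0 : ℝ) ≤ N := Nat.cast_nonneg N
    nlinarith
  · have hlN : 4 / ε ≤ Real.log N := hX₁ N (by omega)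
    have hl0 : 0 ≤ Real.log N := le_trans (by positivity) hlN
    have h1 := bessel F (Icc 1 N) (fun n => 1 / (n : ℝ)) (fun _ => by positivity)
      (fun i n => v i n * ee (α i * n)) (1 + Real.log N) (by positivity) (fun i _ => by
        have : ∀ n ∈ Icc 1 N, (1 / (n : ℝ)) * ‖v i n * ee (α i * n)‖ ^ 2 ≤ 1 / (n : ℝ) := by
          intro n _
          rw [norm_mul, c_norm_ee, mul_one]
          exact mul_le_of_le_one_right (by positivity) (pow_le_one₀ (norm_nonneg _) (hv i n))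
        exact (sum_le_sum this).trans (harmonic_c N)) ((κ + κ) * Real.log N) (by positivity)
      (fun i hi j hj hne => by
        have h2 := hX₀ N (by omega) (fun n => v i n * (starRingEnd ℂ) (v j n) * ee ((α i - α j) * n))
          (fun n => by
            show ‖v i n * (starRingEnd ℂ) (v j n) * ee ((α i - α j) * n)‖ ≤ 1
            rw [norm_mul, norm_mul, RCLike.norm_conj, c_norm_ee, mul_one]
            exact mul_le_one₀ (hv i n) (norm_nonneg _) (hv j n)) κ hκ0.le (by linarith)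
          (fun N' hN' hN'E => hM (i, j) hi hj hne N' (by have := hMle i hi j hj; omega) hN'E _)
        refine le_trans (le_of_eq ?_) h2
        congr 1
        refine sum_congr rfl fun n _ => ?_
        rw [hprod]
        push_cast
        ring) ξ
    have e1 : ∀ i ∈ F, ‖∑ n ∈ Icc 1 N, v i n * ξ n * ee (α i * n) / n‖ ^ 2 =
        ‖∑ n ∈ Icc 1 N, ((1 / (n : ℝ) : ℝ) : ℂ) * (v i n * ee (α i * n) * ξ n)‖ ^ 2 := by
      intro i _
      congr 2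
      refine sum_congr rfl fun n _ => ?_
      push_cast
      ring
    have e2 : ∑ n ∈ Icc 1 N, ‖ξ n‖ ^ 2 / n = ∑ n ∈ Icc 1 N, 1 / (n : ℝ) * ‖ξ n‖ ^ 2 :=
      sum_congr rfl fun n _ => by ring
    rw [sum_congr rfl e1, e2]
    refine h1.trans ?_
    refine mul_le_mul_of_nonneg_right ?_ (sum_nonneg fun _ _ => by positivity)
    have h3 : 1 ≤ ε / 4 * Real.log N := by
      rw [div_le_iff₀ hε] at hlN
      linarith
    have h4 : F.card * ((κ + κ) * Real.log N) = 2 * (F.card * κ) * Real.log N := by ring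
    rw [h4]
    nlinarith

/-- **Bessel's inequality** for `z ^ Ω` at linear forms -/
theorem bes_lin (z : ℂ) (hz : ‖z‖ = 1) (hz1 : z ≠ 1) : ∃ E : Set ℕ, LZ E ∧ ∀ F : Finset (ℤ × ℤ),
    (∀ i ∈ F, i.1 ≠ 0) → (∀ i ∈ F, ∀ j ∈ F, i ≠ j → i.1 * j.2 ≠ j.1 * i.2) → ∀ ε : ℝ, 0 < ε →
    ∃ N₀ : ℕ, ∀ N : ℕ, N₀ ≤ N →
      (N ∉ E → ∀ (ξ : ℕ → ℂ) (α : ℤ × ℤ → ℝ),
        ∑ i ∈ F, ‖∑ n ∈ Icc 1 N, V z i.1 i.2 n * ξ n * ee (α i * n)‖ ^ 2 ≤
          (1 + ε) * N * ∑ n ∈ Icc 1 N, ‖ξ n‖ ^ 2) ∧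
      (∀ (ξ : ℕ → ℂ) (α : ℤ × ℤ → ℝ),
        ∑ i ∈ F, ‖∑ n ∈ Icc 1 N, V z i.1 i.2 n * ξ n * ee (α i * n) / n‖ ^ 2 ≤
          (1 + ε) * Real.log N * ∑ n ∈ Icc 1 N, ‖ξ n‖ ^ 2 / n) := by
  obtain ⟨E, hE, h1⟩ := two_lin z z hz hz1 hz
  refine ⟨E, hE, fun F hF hFF ε hε => ?_⟩
  exact bes_gen E hE F (fun i => V z i.1 i.2) (fun i n => (V_norm z hz _ _ n).le)
    (fun i hi j hj hne ε' hε' => by
      obtain ⟨N₀, h2⟩ := h1 i.1 i.2 j.1 j.2 (hF i hi) (hF j hj) (hFF i hi j hj hne) ε' hε'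
      exact ⟨N₀, fun N hN hNE γ => h2 N hN hNE γ N le_rfl⟩) ε hε

/-- the same function with the value `0` at `0` -/
noncomputable def V0 (z : ℂ) (a b : ℤ) (n : ℕ) : ℂ := if a * n + b = 0 then 0 else V z a b n

lemma V0_le (z : ℂ) (hz : ‖z‖ = 1) (a b : ℤ) (n : ℕ) : ‖V0 z a b n‖ ≤ 1 := by
  unfold V0
  split_ifs
  · simp
  · exact (V_norm z hz a b n).le

lemma zero_card (a b : ℤ) (ha : a ≠ 0) (y : ℕ) : ((Icc 1 y).filter (fun n : ℕ => a * n + b = 0)).card ≤ 1 := by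
  rw [card_le_one]
  intro m hm n hn
  rw [mem_filter] at hm hn
  have h1 : a * m = a * n := by linarith [hm.2, hn.2]
  have h2 := mul_left_cancel₀ ha h1
  exact_mod_cast h2

lemma V0_sum (z w : ℂ) (hz : ‖z‖ = 1) (hw : ‖w‖ = 1) (a b a' b' : ℤ) (ha : a ≠ 0) (ha' : a' ≠ 0)
    (γ : ℝ) (y : ℕ) :
    ‖∑ n ∈ Icc 1 y, V0 z a b n * (starRingEnd ℂ) (V0 w a' b' n) * ee (γ * n)‖ ≤
      ‖∑ n ∈ Icc 1 y, V z a b n * (starRingEnd ℂ) (V w a' b' n) * ee (γ * n)‖ + 2 := by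
  have h1 : ∑ n ∈ Icc 1 y, V0 z a b n * (starRingEnd ℂ) (V0 w a' b' n) * ee (γ * n) =
      ∑ n ∈ Icc 1 y, V z a b n * (starRingEnd ℂ) (V w a' b' n) * ee (γ * n) -
      ∑ n ∈ Icc 1 y, (V z a b n * (starRingEnd ℂ) (V w a' b' n) * ee (γ * n) -
        V0 z a b n * (starRingEnd ℂ) (V0 w a' b' n) * ee (γ * n)) := by
    rw [sum_sub_distrib]
    ring
  have h2 : ‖∑ n ∈ Icc 1 y, (V z a b n * (starRingEnd ℂ) (V w a' b' n) * ee (γ * n) -
        V0 z a b n * (starRingEnd ℂ) (V0 w a' b' n) * ee (γ * n))‖ ≤ 2 := by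
    have h3 : ∀ n ∈ Icc 1 y, ‖V z a b n * (starRingEnd ℂ) (V w a' b' n) * ee (γ * n) -
        V0 z a b n * (starRingEnd ℂ) (V0 w a' b' n) * ee (γ * n)‖ ≤
        (if a * (n : ℤ) + b = 0 then (1 : ℝ) else 0) + if a' * (n : ℤ) + b' = 0 then 1 else 0 := by
      intro n _
      unfold V0
      split_ifs with g1 g2 g2
      · simp only [map_zero, zero_mul, sub_zero]
        rw [norm_mul, norm_mul, RCLike.norm_conj, V_norm z hz, V_norm w hw, c_norm_ee]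
        norm_num
      · simp only [zero_mul, sub_zero]
        rw [norm_mul, norm_mul, RCLike.norm_conj, V_norm z hz, V_norm w hw, c_norm_ee]
        norm_num
      · simp only [map_zero, mul_zero, zero_mul, sub_zero]
        rw [norm_mul, norm_mul, RCLike.norm_conj, V_norm z hz, V_norm w hw, c_norm_ee]
        norm_num
      · simp
    refine (norm_sum_le _ _).trans ((sum_le_sum h3).trans ?_)
    rw [sum_add_distrib, ← sum_filter, ← sum_filter, sum_const, sum_const, nsmul_eq_mul, nsmul_eq_mul,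
      mul_one, mul_one]
    have c1 : (((Icc 1 y).filter (fun n : ℕ => a * n + b = 0)).card : ℝ) ≤ 1 := by
      exact_mod_cast zero_card a b ha y
    have c2 : (((Icc 1 y).filter (fun n : ℕ => a' * n + b' = 0)).card : ℝ) ≤ 1 := by
      exact_mod_cast zero_card a' b' ha' y
    linarith
  rw [h1]
  exact (norm_sub_le _ _).trans (by linarith)

/-- **integer coefficients**, the value `0` at `0` -/
theorem two_lin0 (z w : ℂ) (hz : ‖z‖ = 1) (hz1 : z ≠ 1) (hw : ‖w‖ = 1) : ∃ E : Set ℕ, LZ E ∧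
    ∀ a b a' b' : ℤ, a ≠ 0 → a' ≠ 0 → a * b' ≠ a' * b →
    ∀ ε : ℝ, 0 < ε → ∃ N₀ : ℕ, ∀ N : ℕ, N₀ ≤ N → N ∉ E → ∀ (γ : ℝ) (y : ℕ), y ≤ N →
      ‖∑ n ∈ Icc 1 y, V0 z a b n * (starRingEnd ℂ) (V0 w a' b' n) * ee (γ * n)‖ ≤ ε * N := by
  obtain ⟨E, hE, h1⟩ := two_lin z w hz hz1 hw
  refine ⟨E, hE, fun a b a' b' ha ha' hab ε hε => ?_⟩
  obtain ⟨N₀, h2⟩ := h1 a b a' b' ha ha' hab (ε / 2) (by positivity)
  refine ⟨N₀ + ⌈2 * 2 / ε⌉₊, fun N hN hNE γ y hy => ?_⟩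
  have h3 := h2 N (by omega) hNE γ y hy
  have h4 := V0_sum z w hz hw a b a' b' ha ha' γ y
  have h5 : 2 * 2 / ε ≤ (N : ℝ) := (Nat.le_ceil _).trans (Nat.cast_le.2 (by omega))
  rw [div_le_iff₀ hε] at h5
  linarith

/-- **Bessel's inequality** for `z ^ Ω` at linear forms, the value `0` at `0` -/
theorem bes_lin0 (z : ℂ) (hz : ‖z‖ = 1) (hz1 : z ≠ 1) : ∃ E : Set ℕ, LZ E ∧ ∀ F : Finset (ℤ × ℤ),
    (∀ i ∈ F, i.1 ≠ 0) → (∀ i ∈ F, ∀ j ∈ F, i ≠ j → i.1 * j.2 ≠ j.1 * i.2) → ∀ ε : ℝ, 0 < ε →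
    ∃ N₀ : ℕ, ∀ N : ℕ, N₀ ≤ N →
      (N ∉ E → ∀ (ξ : ℕ → ℂ) (α : ℤ × ℤ → ℝ),
        ∑ i ∈ F, ‖∑ n ∈ Icc 1 N, V0 z i.1 i.2 n * ξ n * ee (α i * n)‖ ^ 2 ≤
          (1 + ε) * N * ∑ n ∈ Icc 1 N, ‖ξ n‖ ^ 2) ∧
      (∀ (ξ : ℕ → ℂ) (α : ℤ × ℤ → ℝ),
        ∑ i ∈ F, ‖∑ n ∈ Icc 1 N, V0 z i.1 i.2 n * ξ n * ee (α i * n) / n‖ ^ 2 ≤
          (1 + ε) * Real.log N * ∑ n ∈ Icc 1 N, ‖ξ n‖ ^ 2 / n) := by
  obtain ⟨E, hE, h1⟩ := two_lin0 z z hz hz1 hz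
  refine ⟨E, hE, fun F hF hFF ε hε => ?_⟩
  exact bes_gen E hE F (fun i => V0 z i.1 i.2) (fun i n => V0_le z hz _ _ n)
    (fun i hi j hj hne ε' hε' => by
      obtain ⟨N₀, h2⟩ := h1 i.1 i.2 j.1 j.2 (hF i hi) (hF j hj) (hFF i hi j hj hne) ε' hε'
      exact ⟨N₀, fun N hN hNE γ => h2 N hN hNE γ N le_rfl⟩) ε hε

/-- at most `S / (δ² N²)` members are large -/
lemma few {ι : Type*} (F : Finset ι) (A : ι → ℝ) (S δ : ℝ) (hδ : 0 < δ) (h : ∑ i ∈ F, A i ^ 2 ≤ S) [DecidablePred fun i => δ ≤ A i] :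
    ((F.filter (fun i => δ ≤ A i)).card : ℝ) ≤ S / δ ^ 2 := by
  rw [le_div_iff₀ (by positivity)]
  calc ((F.filter (fun i => δ ≤ A i)).card : ℝ) * δ ^ 2 = ∑ i ∈ F.filter (fun i => δ ≤ A i), δ ^ 2 := by
        rw [sum_const, nsmul_eq_mul]
    _ ≤ ∑ i ∈ F.filter (fun i => δ ≤ A i), A i ^ 2 := sum_le_sum fun i hi => by
        rw [mem_filter] at hi
        exact pow_le_pow_left₀ hδ.le hi.2 2
    _ ≤ ∑ i ∈ F, A i ^ 2 := sum_le_sum_of_subset_of_nonneg (filter_subset _ _) fun _ _ _ => sq_nonneg _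
    _ ≤ S := h

end Pool.Agent.Q42.SH
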