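import Pool.Agent.Q42.SH.BesLin

/-!
Library Q42.SH (helper42), part 8: Bessel's inequality at one scale.
-/

set_option autoImplicit false

open Finset Filter

namespace Pool.Agent.Q42.SH

open Pool.Agent.Helper602.MK (ee)
open Pool.Agent.Helper602.MK.N_J1c (c_ee_add c_ee_int c_norm_ee)
open ArithmeticFunction (cardFactors)

lemma vv_prod {ι : Type*} (v : ι → ℕ → ℂ) (α : ι → ℝ) (i j : ι) (n : ℕ) : (v i n * ee (α i * n)) *
      (starRingEnd ℂ) (v j n * ee (α j * n)) =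
      v i n * (starRingEnd ℂ) (v j n) * ee ((α i - α j) * n) := by
  have e1 : ee ((α i - α j) * n) = ee (α i * n) * ee (-(α j * n)) := by
    rw [← c_ee_add]
    congr 1
    ring
  rw [map_mul, ee_conj, e1]
  ring

/-- natural averages, one scale -/
theorem bes_one {ι : Type*} (F : Finset ι) (v : ι → ℕ → ℂ) (hv : ∀ i n, ‖v i n‖ ≤ 1) (N : ℕ) (κ ε : ℝ)
    (hκ : 0 ≤ κ) (hκε : F.card * κ ≤ ε)
    (hij : ∀ i ∈ F, ∀ j ∈ F, i ≠ j → ∀ γ : ℝ,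
      ‖∑ n ∈ Icc 1 N, v i n * (starRingEnd ℂ) (v j n) * ee (γ * n)‖ ≤ κ * N)
    (ξ : ℕ → ℂ) (α : ι → ℝ) :
    ∑ i ∈ F, ‖∑ n ∈ Icc 1 N, v i n * ξ n * ee (α i * n)‖ ^ 2 ≤
      (1 + ε) * N * ∑ n ∈ Icc 1 N, ‖ξ n‖ ^ 2 := by
  have h1 := bessel F (Icc 1 N) (fun _ => 1) (fun _ => zero_le_one)
    (fun i n => v i n * ee (α i * n)) N (Nat.cast_nonneg N) (fun i _ => by
      have : ∀ n ∈ Icc 1 N, (1 : ℝ) * ‖v i n * ee (α i * n)‖ ^ 2 ≤ 1 := by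
        intro n _
        rw [norm_mul, c_norm_ee, mul_one, one_mul]
        exact pow_le_one₀ (norm_nonneg _) (hv i n)
      refine (sum_le_sum this).trans ?_
      simp) (κ * N) (by positivity) (fun i hi j hj hne => by
      refine le_trans (le_of_eq ?_) (hij i hi j hj hne (α i - α j))
      congr 1
      refine sum_congr rfl fun n _ => ?_
      rw [vv_prod, Complex.ofReal_one, one_mul]) ξ
  have e1 : ∀ i ∈ F, ‖∑ n ∈ Icc 1 N, v i n * ξ n * ee (α i * n)‖ ^ 2 =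
      ‖∑ n ∈ Icc 1 N, ((1 : ℝ) : ℂ) * (v i n * ee (α i * n) * ξ n)‖ ^ 2 := by
    intro i _
    congr 2
    refine sum_congr rfl fun n _ => ?_
    rw [Complex.ofReal_one]
    ring
  rw [sum_congr rfl e1]
  refine h1.trans ?_
  simp only [one_mul]
  refine mul_le_mul_of_nonneg_right ?_ (sum_nonneg fun _ _ => by positivity)
  have hN0 : (0 : ℝ) ≤ N := Nat.cast_nonneg N
  have h2 : F.card * (κ * N) = F.card * κ * N := by ring
  rw [h2]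
  nlinarith

/-- logarithmic averages, one scale -/
theorem bes_log {ι : Type*} (F : Finset ι) (v : ι → ℕ → ℂ) (hv : ∀ i n, ‖v i n‖ ≤ 1) (X : ℕ) (κ ε : ℝ)
    (hκ : 0 ≤ κ) (hκε : F.card * κ ≤ ε / 2) (hX : 2 ≤ ε * Real.log X)
    (hij : ∀ i ∈ F, ∀ j ∈ F, i ≠ j → ∀ γ : ℝ,
      ‖∑ n ∈ Icc 1 X, v i n * (starRingEnd ℂ) (v j n) * ee (γ * n) / n‖ ≤ κ * Real.log X)
    (ξ : ℕ → ℂ) (α : ι → ℝ) :
    ∑ i ∈ F, ‖∑ n ∈ Icc 1 X, v i n * ξ n * ee (α i * n) / n‖ ^ 2 ≤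
      (1 + ε) * Real.log X * ∑ n ∈ Icc 1 X, ‖ξ n‖ ^ 2 / n := by
  have hl0 : 0 ≤ Real.log X := Real.log_natCast_nonneg X
  have h1 := bessel F (Icc 1 X) (fun n => 1 / (n : ℝ)) (fun _ => by positivity)
    (fun i n => v i n * ee (α i * n)) (1 + Real.log X) (by positivity) (fun i _ => by
      have : ∀ n ∈ Icc 1 X, (1 / (n : ℝ)) * ‖v i n * ee (α i * n)‖ ^ 2 ≤ 1 / (n : ℝ) := by
        intro n _
        rw [norm_mul, c_norm_ee, mul_one]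
        exact mul_le_of_le_one_right (by positivity) (pow_le_one₀ (norm_nonneg _) (hv i n))
      exact (sum_le_sum this).trans (harmonic_c X)) (κ * Real.log X) (by positivity)
    (fun i hi j hj hne => by
      refine le_trans (le_of_eq ?_) (hij i hi j hj hne (α i - α j))
      congr 1
      refine sum_congr rfl fun n _ => ?_
      rw [vv_prod]
      push_cast
      ring) ξ
  have e1 : ∀ i ∈ F, ‖∑ n ∈ Icc 1 X, v i n * ξ n * ee (α i * n) / n‖ ^ 2 =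
      ‖∑ n ∈ Icc 1 X, ((1 / (n : ℝ) : ℝ) : ℂ) * (v i n * ee (α i * n) * ξ n)‖ ^ 2 := by
    intro i _
    congr 2
    refine sum_congr rfl fun n _ => ?_
    push_cast
    ring
  have e2 : ∑ n ∈ Icc 1 X, ‖ξ n‖ ^ 2 / n = ∑ n ∈ Icc 1 X, 1 / (n : ℝ) * ‖ξ n‖ ^ 2 :=
    sum_congr rfl fun n _ => by ring
  rw [sum_congr rfl e1, e2]
  refine h1.trans ?_
  refine mul_le_mul_of_nonneg_right ?_ (sum_nonneg fun _ _ => by positivity)
  have h4 : F.card * (κ * Real.log X) = (F.card * κ) * Real.log X := by ring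
  rw [h4]
  nlinarith

/-- the choice of the worst frequency -/
lemma pick {ι : Type*} (S : ι → ℝ → ℝ) (D : ℝ) : ∃ α : ι → ℝ, ∀ L, (∃ a, D ≤ S L a) → D ≤ S L (α L) := by
  have : ∀ L, ∃ a, (∃ a, D ≤ S L a) → D ≤ S L a := by
    intro L
    by_cases h : ∃ a, D ≤ S L a
    · obtain ⟨a, ha⟩ := h
      exact ⟨a, fun _ => ha⟩
    · exact ⟨0, fun hh => absurd hh h⟩
  choose α hα using this
  exact ⟨α, hα⟩

open Classical in
/-- the number of members with a large value -/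
lemma few_pick {ι : Type*} (F : Finset ι) (S : ι → ℝ → ℝ) (D B : ℝ) (hD : 0 < D)
    (h : ∀ α : ι → ℝ, ∑ i ∈ F, S i (α i) ^ 2 ≤ B) :
    ((F.filter (fun i => ∃ a : ℝ, D ≤ S i a)).card : ℝ) ≤ B / D ^ 2 := by
  obtain ⟨α, hα⟩ := pick S D
  have h1 := few F (fun i => S i (α i)) B D hD (h α)
  refine le_trans ?_ h1
  exact_mod_cast card_le_card fun i hi => by
    rw [mem_filter] at hi ⊢
    exact ⟨hi.1, hα i hi.2⟩

/-- the sum of the squares of a bounded sequence -/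
lemma sq_le_N (ξ : ℕ → ℂ) (hξ : ∀ n, ‖ξ n‖ ≤ 1) (N : ℕ) : ∑ n ∈ Icc 1 N, ‖ξ n‖ ^ 2 ≤ N := by
  refine (sum_le_sum fun n _ => pow_le_one₀ (norm_nonneg _) (hξ n)).trans ?_
  simp

lemma sq_le_log (ξ : ℕ → ℂ) (hξ : ∀ n, ‖ξ n‖ ≤ 1) (N : ℕ) :
    ∑ n ∈ Icc 1 N, ‖ξ n‖ ^ 2 / n ≤ 1 + Real.log N := by
  refine le_trans (sum_le_sum fun n _ => ?_) (harmonic_c N)
  exact div_le_div_of_nonneg_right (pow_le_one₀ (norm_nonneg _) (hξ n)) (Nat.cast_nonneg n)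

/-- finitely many lower bounds for `N` -/
lemma max_pairs {ι : Type*} (F : Finset ι) (P : ι → ι → ℕ → Prop)
    (h : ∀ i ∈ F, ∀ j ∈ F, i ≠ j → ∃ N₀ : ℕ, ∀ N : ℕ, N₀ ≤ N → P i j N) :
    ∃ N₀ : ℕ, ∀ N : ℕ, N₀ ≤ N → ∀ i ∈ F, ∀ j ∈ F, i ≠ j → P i j N := by
  classical
  have h1 : ∀ p : ι × ι, ∃ N₀ : ℕ, p.1 ∈ F → p.2 ∈ F → p.1 ≠ p.2 → ∀ N : ℕ, N₀ ≤ N → P p.1 p.2 N := by
    intro p
    by_cases hp : p.1 ∈ F ∧ p.2 ∈ F ∧ p.1 ≠ p.2
    · obtain ⟨N₀, h2⟩ := h p.1 hp.1 p.2 hp.2.1 hp.2.2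
      exact ⟨N₀, fun _ _ _ => h2⟩
    · exact ⟨0, fun h1 h2 h3 => absurd ⟨h1, h2, h3⟩ hp⟩
  choose M hM using h1
  refine ⟨∑ p ∈ F ×ˢ F, M p, fun N hN i hi j hj hne => hM (i, j) hi hj hne N ?_⟩
  exact (single_le_sum (f := M) (fun _ _ => Nat.zero_le _)
    (show (i, j) ∈ F ×ˢ F from mem_product.2 ⟨hi, hj⟩)).trans hN

end Pool.Agent.Q42.SH
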