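import Mathlib

/-!
Library Q42.SH (helper42): Bessel's inequality for almost orthogonal functions on a set.
-/

set_option autoImplicit false

open Finset

namespace Pool.Agent.Q42.SH

/-- Bessel's inequality for almost orthogonal functions -/
theorem bessel_t {ι Y : Type*} (F : Finset ι) (s : Finset Y) (w : Y → ℝ) (hw : ∀ n, 0 ≤ w n)
    (v : ι → Y → ℂ) (W : ℝ) (hW : 0 ≤ W) (hv : ∀ i ∈ F, ∑ n ∈ s, w n * ‖v i n‖ ^ 2 ≤ W) (D : ℝ) (hD : 0 ≤ D)
    (hij : ∀ i ∈ F, ∀ j ∈ F, i ≠ j →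
      ‖∑ n ∈ s, (w n : ℂ) * (v i n * (starRingEnd ℂ) (v j n))‖ ≤ D) (ξ : Y → ℂ) :
    ∑ i ∈ F, ‖∑ n ∈ s, (w n : ℂ) * (v i n * ξ n)‖ ^ 2 ≤
      (W + F.card * D) * ∑ n ∈ s, w n * ‖ξ n‖ ^ 2 := by
  classical
  set A : ι → ℂ := fun i => ∑ n ∈ s, (w n : ℂ) * (v i n * ξ n) with hA
  set S : ℝ := ∑ i ∈ F, ‖A i‖ ^ 2 with hS
  set Ξ : ℝ := ∑ n ∈ s, w n * ‖ξ n‖ ^ 2 with hΞ
  set g : Y → ℂ := fun n => ∑ i ∈ F, (starRingEnd ℂ) (A i) * v i n with hg
  have hS0 : 0 ≤ S := sum_nonneg fun _ _ => by positivity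
  have hΞ0 : 0 ≤ Ξ := sum_nonneg fun n _ => mul_nonneg (hw n) (by positivity)
  -- S as a scalar product
  have h1 : (S : ℂ) = ∑ n ∈ s, (w n : ℂ) * (g n * ξ n) := by
    rw [hS]
    push_cast
    have e1 : ∀ i ∈ F, ((‖A i‖ : ℂ)) ^ 2 = ∑ n ∈ s, (w n : ℂ) * (((starRingEnd ℂ) (A i) * v i n) * ξ n) := by
      intro i _
      have e2 : ((‖A i‖ : ℂ)) ^ 2 = (starRingEnd ℂ) (A i) * A i := by
        rw [mul_comm, Complex.mul_conj, Complex.normSq_eq_norm_sq]
        push_cast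
        rfl
      rw [e2]
      conv_lhs => rw [hA]
      simp only []
      rw [mul_sum]
      refine sum_congr rfl fun n _ => ?_
      ring
    rw [sum_congr rfl e1, sum_comm]
    refine sum_congr rfl fun n _ => ?_
    rw [hg]
    simp only []
    rw [sum_mul, mul_sum]
  -- the square of the norm of g
  set G : ℝ := ∑ n ∈ s, w n * ‖g n‖ ^ 2 with hG
  have h2 : S ^ 2 ≤ G * Ξ := by
    have a1 : S ≤ ∑ n ∈ s, (√(w n) * ‖g n‖) * (√(w n) * ‖ξ n‖) := by
      have b1 : S = ‖(S : ℂ)‖ := by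
        rw [Complex.norm_real, Real.norm_of_nonneg hS0]
      rw [b1, h1]
      refine (norm_sum_le _ _).trans (sum_le_sum fun n _ => ?_)
      rw [norm_mul, norm_mul, Complex.norm_real, Real.norm_of_nonneg (hw n)]
      have b2 : √(w n) * √(w n) = w n := Real.mul_self_sqrt (hw n)
      calc w n * (‖g n‖ * ‖ξ n‖) = (√(w n) * √(w n)) * (‖g n‖ * ‖ξ n‖) := by rw [b2]
        _ ≤ _ := le_of_eq (by ring)
    have a2 := sum_mul_sq_le_sq_mul_sq s (fun n => √(w n) * ‖g n‖) (fun n => √(w n) * ‖ξ n‖)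
    have a3 : ∑ n ∈ s, (√(w n) * ‖g n‖) ^ 2 = G := by
      rw [hG]
      refine sum_congr rfl fun n _ => ?_
      rw [mul_pow, Real.sq_sqrt (hw n)]
    have a4 : ∑ n ∈ s, (√(w n) * ‖ξ n‖) ^ 2 = Ξ := by
      rw [hΞ]
      refine sum_congr rfl fun n _ => ?_
      rw [mul_pow, Real.sq_sqrt (hw n)]
    rw [a3, a4] at a2
    exact (pow_le_pow_left₀ hS0 a1 2).trans a2
  have h3 : G ≤ (W + F.card * D) * S := by
    have b1 : (G : ℂ) = ∑ i ∈ F, ∑ j ∈ F, ((starRingEnd ℂ) (A i) * A j) *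
        ∑ n ∈ s, (w n : ℂ) * (v i n * (starRingEnd ℂ) (v j n)) := by
      rw [hG]
      push_cast
      have c1 : ∀ n ∈ s, (w n : ℂ) * (‖g n‖ : ℂ) ^ 2 = ∑ i ∈ F, ∑ j ∈ F,
          ((starRingEnd ℂ) (A i) * A j) * ((w n : ℂ) * (v i n * (starRingEnd ℂ) (v j n))) := by
        intro n _
        have c2 : (‖g n‖ : ℂ) ^ 2 = g n * (starRingEnd ℂ) (g n) := by
          rw [Complex.mul_conj, Complex.normSq_eq_norm_sq]
          push_cast
          rfl
        rw [c2]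
        simp only [hg]
        rw [map_sum, sum_mul_sum, mul_sum]
        refine sum_congr rfl fun i _ => ?_
        rw [mul_sum]
        refine sum_congr rfl fun j _ => ?_
        rw [map_mul, Complex.conj_conj]
        ring
      rw [sum_congr rfl c1, sum_comm]
      refine sum_congr rfl fun i _ => ?_
      rw [sum_comm]
      refine sum_congr rfl fun j _ => ?_
      exact (mul_sum _ _ _).symm
    have b2 : G ≤ ∑ i ∈ F, ∑ j ∈ F, (‖A i‖ * ‖A j‖) * (if i = j then W else D) := by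
      have c0 : 0 ≤ G := sum_nonneg fun n _ => mul_nonneg (hw n) (by positivity)
      have c1 : G = ‖(G : ℂ)‖ := by
        rw [Complex.norm_real, Real.norm_of_nonneg c0]
      rw [c1, b1]
      refine (norm_sum_le _ _).trans (sum_le_sum fun i hi => ?_)
      refine (norm_sum_le _ _).trans (sum_le_sum fun j hj => ?_)
      rw [norm_mul, norm_mul, RCLike.norm_conj]
      refine mul_le_mul_of_nonneg_left ?_ (by positivity)
      split_ifs with hh
      · subst hh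
        refine le_trans ?_ (hv i hi)
        refine (norm_sum_le _ _).trans (le_of_eq (sum_congr rfl fun n _ => ?_))
        rw [norm_mul, norm_mul, RCLike.norm_conj, Complex.norm_real, Real.norm_of_nonneg (hw n)]
        ring
      · exact hij i hi j hj hh
    have b3 : ∑ i ∈ F, ∑ j ∈ F, (‖A i‖ * ‖A j‖) * (if i = j then W else D) ≤
        ∑ i ∈ F, ∑ j ∈ F, ((if i = j then W * ‖A i‖ ^ 2 else 0) +
          D * ((‖A i‖ ^ 2 + ‖A j‖ ^ 2) / 2)) := by
      refine sum_le_sum fun i _ => sum_le_sum fun j _ => ?_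
      have c1 : ‖A i‖ * ‖A j‖ ≤ (‖A i‖ ^ 2 + ‖A j‖ ^ 2) / 2 := by
        nlinarith [sq_nonneg (‖A i‖ - ‖A j‖)]
      split_ifs with hh
      · subst hh
        have c2 : 0 ≤ D * ((‖A i‖ ^ 2 + ‖A i‖ ^ 2) / 2) := by positivity
        calc ‖A i‖ * ‖A i‖ * W = W * ‖A i‖ ^ 2 := by ring
          _ ≤ _ := by linarith
      · rw [zero_add, mul_comm]
        exact mul_le_mul_of_nonneg_left c1 hD
    have b4 : ∑ i ∈ F, ∑ j ∈ F, ((if i = j then W * ‖A i‖ ^ 2 else 0) +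
          D * ((‖A i‖ ^ 2 + ‖A j‖ ^ 2) / 2)) = (W + F.card * D) * S := by
      simp_rw [sum_add_distrib]
      have c1 : ∑ i ∈ F, ∑ j ∈ F, (if i = j then W * ‖A i‖ ^ 2 else 0) = W * S := by
        rw [hS, mul_sum]
        refine sum_congr rfl fun i hi => ?_
        rw [sum_ite_eq, if_pos hi]
      have c2 : ∑ i ∈ F, ∑ j ∈ F, D * ((‖A i‖ ^ 2 + ‖A j‖ ^ 2) / 2) = F.card * D * S := by
        have d1 : ∀ i ∈ F, ∑ j ∈ F, D * ((‖A i‖ ^ 2 + ‖A j‖ ^ 2) / 2) =
            D / 2 * (F.card * ‖A i‖ ^ 2 + S) := by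
          intro i _
          rw [← mul_sum, ← sum_div, sum_add_distrib, sum_const, nsmul_eq_mul]
          ring
        rw [sum_congr rfl d1, ← mul_sum, sum_add_distrib, ← mul_sum, sum_const, nsmul_eq_mul]
        ring
      rw [c1, c2]
      ring
    linarith
  have hW0 : 0 ≤ G := sum_nonneg fun n _ => mul_nonneg (hw n) (by positivity)
  rcases hS0.eq_or_lt with h0 | h0
  · show S ≤ (W + F.card * D) * Ξ
    rw [← h0]
    positivity
  · have h4 : S ^ 2 ≤ ((W + F.card * D) * Ξ) * S := by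
      calc S ^ 2 ≤ G * Ξ := h2
        _ ≤ ((W + F.card * D) * S) * Ξ := mul_le_mul_of_nonneg_right h3 hΞ0
        _ = _ := by ring
    show S ≤ (W + F.card * D) * Ξ
    rw [sq] at h4
    exact le_of_mul_le_mul_right h4 h0

end Pool.Agent.Q42.SH
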