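import Pool.Agent.Q42.SH.BesT
import Pool.Agent.Q42.SH.BesLin
import Pool.Agent.H373R2.T7.SupLiou

/-!
Library Q42.SH (helper42), part 19: the Liouville function at the values of binary linear forms.
-/

set_option autoImplicit false

open Finset Filter

namespace Pool.Agent.Q42.SH.Bin

open Pool.Agent.Helper602.MK (ee)
open Pool.Agent.Helper602.MK.N_J1c (c_ee_add c_ee_int c_norm_ee)
open Pool.Agent.H373R2.T7 (liR sup_liou liR_norm ev_log' ev_L')
open ArithmeticFunction (cardFactors)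

/-- the Liouville function on the integers -/
noncomputable def h (m : ℤ) : ℂ := if m = 0 then 0 else (-1) ^ cardFactors m.natAbs

lemma h_le (m : ℤ) : ‖h m‖ ≤ 1 := by
  unfold h
  split_ifs <;> simp

lemma h_neg (m : ℤ) : h (-m) = h m := by
  unfold h
  simp only [neg_eq_zero, Int.natAbs_neg]

lemma h_zero : h 0 = 0 := by simp [h]

lemma h_conj (m : ℤ) : (starRingEnd ℂ) (h m) = h m := by
  unfold h
  split_ifs <;> simp

lemma h_nat (n : ℕ) (hn : 1 ≤ n) : h n = liR n := by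
  unfold h liR
  rw [if_neg (by omega), Int.natAbs_natCast]

lemma dav_ee (x : ℝ) : Pool.Agent.H807R2.Dav.ee x = ee x := by
  unfold Pool.Agent.H807R2.Dav.ee ee
  congr 1
  ring

/-- partial sums -/
theorem part (U : ℕ) : ∃ Z₀ : ℕ, ∀ Z : ℕ, Z₀ ≤ Z → ∀ y : ℕ, y ≤ Z → ∀ θ : ℝ,
    ‖∑ n ∈ Icc 1 y, h n * ee (θ * n)‖ ≤ Z / Real.log Z ^ U := by
  obtain ⟨N0, h0⟩ := sup_liou (U + 1)
  obtain ⟨m1, e1⟩ := ev_log' U 1
  obtain ⟨m2, e2⟩ := ev_L' (2 ^ (U + 1) + 1)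
  refine ⟨m1 + m2 + N0 * N0, fun Z hZ y hy θ => ?_⟩
  have a1 := e1 Z (by omega)
  have a2 := e2 Z (by omega)
  rw [one_mul] at a1
  have p1 : (1 : ℝ) ≤ 2 ^ (U + 1) := one_le_pow₀ (by norm_num)
  have hL1 : 1 < Real.log Z := by linarith
  have hL0 : 0 < Real.log Z := by linarith
  have hZ1 : (1 : ℝ) ≤ Z := by
    rcases Nat.eq_zero_or_pos Z with hc | hc
    · rw [hc] at hL1
      simp at hL1
      linarith
    · exact_mod_cast hc
  have hZ0 : (0 : ℝ) < Z := by linarith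
  have hb : ‖∑ n ∈ Icc 1 y, h n * ee (θ * n)‖ ≤ y := by
    refine (norm_sum_le _ _).trans ((sum_le_sum fun n _ => ?_).trans (le_of_eq (by simp : ∑ n ∈ Icc 1 y, (1 : ℝ) = y)))
    rw [norm_mul, c_norm_ee, mul_one]
    exact h_le _
  by_cases hyZ : y * y ≤ Z
  · have b1 : (y : ℝ) ≤ √Z := by
      apply Real.le_sqrt_of_sq_le
      have : ((y * y : ℕ) : ℝ) ≤ Z := by exact_mod_cast hyZ
      push_cast at this
      nlinarith
    refine hb.trans (b1.trans ?_)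
    rw [le_div_iff₀ (by positivity)]
    calc √Z * Real.log Z ^ U ≤ √Z * √Z := mul_le_mul_of_nonneg_left a1 (Real.sqrt_nonneg _)
      _ = Z := Real.mul_self_sqrt hZ0.le
  · have hyN : N0 ≤ y := by
      by_contra hc
      have : y * y ≤ N0 * N0 := Nat.mul_le_mul (by omega) (by omega)
      omega
    have b1 := h0 y hyN θ
    have b2 : ∑ n ∈ Icc 1 y, liR n * Pool.Agent.H807R2.Dav.ee ((n : ℝ) * θ) =
        ∑ n ∈ Icc 1 y, h n * ee (θ * n) := by
      refine sum_congr rfl fun n hn => ?_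
      rw [mem_Icc] at hn
      rw [h_nat n hn.1, dav_ee, mul_comm (n : ℝ) θ]
    rw [b2] at b1
    have hy1 : (1 : ℝ) ≤ y := by
      have : 1 ≤ y := by
        by_contra hc
        have : y = 0 := by omega
        subst this
        simp at hyZ
      exact_mod_cast this
    have b3 : Real.log Z / 2 ≤ Real.log y := by
      have c1 : (Z : ℝ) ≤ (y : ℝ) ^ 2 := by
        have : ((Z : ℕ) : ℝ) ≤ ((y * y : ℕ) : ℝ) := by exact_mod_cast (not_le.1 hyZ).le
        push_cast at this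
        nlinarith
      have c2 := Real.log_le_log hZ0 c1
      rw [Real.log_pow] at c2
      push_cast at c2
      linarith
    refine b1.trans ?_
    have b4 : (y : ℝ) ≤ Z := by exact_mod_cast hy
    have b5 : (Real.log Z / 2) ^ (U + 1) ≤ Real.log y ^ (U + 1) := pow_le_pow_left₀ (by positivity) b3 _
    calc (y : ℝ) / Real.log y ^ (U + 1) ≤ Z / (Real.log Z / 2) ^ (U + 1) := by
          refine div_le_div₀ hZ0.le b4 (by positivity) b5
      _ = Z / Real.log Z ^ U * (2 ^ (U + 1) / Real.log Z) := by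
          rw [div_pow]
          field_simp
          ring
      _ ≤ Z / Real.log Z ^ U * 1 := by
          refine mul_le_mul_of_nonneg_left ?_ (by positivity)
          rw [div_le_one hL0]
          linarith
      _ = _ := mul_one _

/-- the primitive -/
noncomputable def A (θ : ℝ) (y : ℤ) : ℂ :=
  if 0 ≤ y then ∑ k ∈ range (y.toNat + 1), h k * ee (θ * k)
  else - ∑ k ∈ range (-y).toNat, h k * ee (-θ * k)

lemma A_step (θ : ℝ) (y : ℤ) : A θ (y + 1) = A θ y + h (y + 1) * ee (θ * ((y + 1 : ℤ) : ℝ)) := by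
  unfold A
  rcases lt_trichotomy y (-1) with hy | hy | hy
  · obtain ⟨k, hk⟩ := Int.eq_ofNat_of_zero_le (show 0 ≤ -y - 1 by omega)
    rw [if_neg (by omega), if_neg (by omega)]
    have e1 : (-(y + 1)).toNat = k := by omega
    have e2 : (-y).toNat = k + 1 := by omega
    rw [e1, e2, sum_range_succ]
    have e3 : (y + 1 : ℤ) = -(k : ℤ) := by omega
    rw [e3, h_neg]
    have e4 : -θ * (k : ℝ) = θ * ((-(k : ℤ) : ℤ) : ℝ) := by push_cast; ring
    rw [e4]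
    ring
  · subst hy
    simp [h_zero]
  · obtain ⟨k, rfl⟩ := Int.eq_ofNat_of_zero_le (show 0 ≤ y by omega)
    rw [if_pos (by omega), if_pos (by omega)]
    have e1 : ((k : ℤ) + 1).toNat = k + 1 := by omega
    have e2 : (k : ℤ).toNat = k := by omega
    rw [e1, e2, sum_range_succ _ (k + 1)]
    push_cast
    rfl

lemma A_sum (θ : ℝ) (m : ℤ) (J : ℕ) :
    ∑ j ∈ Icc 1 J, h (m + j) * ee (θ * ((m + j : ℤ) : ℝ)) = A θ (m + J) - A θ m := by
  induction J with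
  | zero => simp
  | succ J ih =>
    rw [sum_Icc_succ_top (by omega), ih]
    have := A_step θ (m + J)
    have e : m + ((J + 1 : ℕ) : ℤ) = m + J + 1 := by push_cast; ring
    rw [e, this]
    ring

lemma range_Icc (f : ℕ → ℂ) (hf : f 0 = 0) (n : ℕ) : ∑ k ∈ range (n + 1), f k = ∑ k ∈ Icc 1 n, f k := by
  induction n with
  | zero => simp [hf]
  | succ n ih => rw [sum_range_succ, ih, sum_Icc_succ_top (by omega)]

lemma A_le (Z : ℕ) (M : ℝ) (hM0 : 0 ≤ M) (hM : ∀ y : ℕ, y ≤ Z → ∀ θ : ℝ, ‖∑ n ∈ Icc 1 y, h n * ee (θ * n)‖ ≤ M)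
    (θ : ℝ) (y : ℤ) (hy : |y| ≤ Z) : ‖A θ y‖ ≤ M := by
  have hy' := abs_le.1 hy
  unfold A
  split_ifs with h0
  · rw [range_Icc (fun k => h k * ee (θ * k)) (by simp [h_zero])]
    exact hM _ (by omega) θ
  · obtain ⟨k, hk⟩ := Int.eq_ofNat_of_zero_le (show 0 ≤ -y - 1 by omega)
    have e2 : (-y).toNat = k + 1 := by omega
    rw [e2, range_Icc (fun k => h k * ee (-θ * k)) (by simp [h_zero]), norm_neg]
    exact hM k (by omega) (-θ)

/-- sums over progressions -/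
lemma ap_nat (Z : ℕ) (M : ℝ) (hM0 : 0 ≤ M) (hM : ∀ y : ℕ, y ≤ Z → ∀ θ : ℝ, ‖∑ n ∈ Icc 1 y, h n * ee (θ * n)‖ ≤ M)
    (D T : ℕ) (hD : 1 ≤ D) (m : ℤ) (hm : |m| ≤ Z) (hmT : |m + T * D| ≤ Z) (γ : ℝ) :
    ‖∑ t ∈ Icc 1 T, h (m + t * D) * ee (γ * t)‖ ≤ D * (2 * M) := by
  have hD0 : (D : ℝ) ≠ 0 := by exact_mod_cast (by omega : D ≠ 0)
  have h1 := Pool.Agent.Y842.PG.per_I (D * T) D hD (fun j => h (m + j) * ee (γ / D * j))
    (fun j => if D ∣ j then 1 else 0) 0 (fun n => by split_ifs <;> simp) (fun n => by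
      simp only [Nat.dvd_add_self_right]) (2 * M) (fun α => by
      have e1 : ∑ j ∈ Icc 1 (D * T), h (m + j) * ee (γ / D * j) * ee (α * j) =
          (∑ j ∈ Icc 1 (D * T), h (m + j) * ee ((γ / D + α) * ((m + j : ℤ) : ℝ))) *
            ee (-((γ / D + α) * m)) := by
        rw [sum_mul]
        refine sum_congr rfl fun j _ => ?_
        rw [mul_assoc, mul_assoc, ← c_ee_add, ← c_ee_add]
        congr 2
        push_cast
        ring
      rw [e1, norm_mul, c_norm_ee, mul_one, A_sum]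
      have e2 : m + ((D * T : ℕ) : ℤ) = m + T * D := by push_cast; ring
      rw [e2]
      refine (norm_sub_le _ _).trans ?_
      have := A_le Z M hM0 hM (γ / D + α) _ hmT
      have := A_le Z M hM0 hM (γ / D + α) _ hm
      linarith) 0
  have h2 := sum_mult (fun j => h (m + j) * ee (γ / D * j)) D T hD
  have e1 : ∑ j ∈ Icc 1 (D * T), h (m + j) * ee (γ / D * j) * (if D ∣ (j + 0) then (1 : ℂ) else 0) *
      ee (0 * j) = ∑ t ∈ Icc 1 T, h (m + t * D) * ee (γ * t) := by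
    have e2 : ∑ j ∈ Icc 1 (D * T), h (m + j) * ee (γ / D * j) * (if D ∣ (j + 0) then (1 : ℂ) else 0) *
        ee (0 * j) = ∑ j ∈ Icc 1 (D * T), if D ∣ j then h (m + j) * ee (γ / D * j) else 0 := by
      refine sum_congr rfl fun j _ => ?_
      have : ee (0 * (j : ℝ)) = 1 := by
        rw [zero_mul]
        exact_mod_cast c_ee_int 0
      rw [this, mul_one, add_zero]
      split_ifs <;> simp
    rw [e2, h2]
    refine sum_congr rfl fun t _ => ?_
    have e3 : γ / D * ((D * t : ℕ) : ℝ) = γ * t := by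
      push_cast
      field_simp
    have e4 : m + ((D * t : ℕ) : ℤ) = m + t * D := by push_cast; ring
    rw [e3, e4]
  rw [← e1]
  exact h1

lemma ap_int (Z : ℕ) (M : ℝ) (hM0 : 0 ≤ M) (hM : ∀ y : ℕ, y ≤ Z → ∀ θ : ℝ, ‖∑ n ∈ Icc 1 y, h n * ee (θ * n)‖ ≤ M)
    (D : ℤ) (T : ℕ) (hD : D ≠ 0) (m : ℤ) (hm : |m| ≤ Z) (hmT : |m + T * D| ≤ Z) (γ : ℝ) :
    ‖∑ t ∈ Icc 1 T, h (m + t * D) * ee (γ * t)‖ ≤ |(D : ℝ)| * (2 * M) := by
  rcases lt_or_gt_of_ne hD with h1 | h1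
  · obtain ⟨k, hk⟩ := Int.eq_ofNat_of_zero_le (show 0 ≤ -D by omega)
    have hD' : D = -(k : ℤ) := by omega
    subst hD'
    have h2 := ap_nat Z M hM0 hM k T (by omega) (-m) (by rwa [abs_neg]) (by
      have : -m + (T : ℤ) * k = -(m + T * -(k : ℤ)) := by ring
      rw [this, abs_neg]
      exact hmT) γ
    have e1 : ∀ t : ℕ, h (-m + t * (k : ℤ)) = h (m + t * -(k : ℤ)) := by
      intro t
      rw [← h_neg]
      congr 1
      ring
    simp_rw [e1] at h2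
    refine h2.trans (le_of_eq ?_)
    push_cast
    rw [abs_neg, Nat.abs_cast]
  · obtain ⟨k, rfl⟩ := Int.eq_ofNat_of_zero_le h1.le
    have h2 := ap_nat Z M hM0 hM k T (by omega) m hm hmT γ
    refine h2.trans (le_of_eq ?_)
    push_cast
    rw [Nat.abs_cast]

/-- shifts of an interval -/
lemma shift1 (g : ℤ → ℂ) (M : ℝ) (hg : ∀ u, ‖g u‖ ≤ M) (x y w : ℤ) :
    ‖∑ u ∈ Icc x y, g (u + w) - ∑ u ∈ Icc x y, g u‖ ≤ 2 * |(w : ℝ)| * M := by
  have hM0 : 0 ≤ M := (norm_nonneg _).trans (hg 0)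
  have key : ∀ (g : ℤ → ℂ), (∀ u, ‖g u‖ ≤ M) → ∀ r : ℕ,
      ‖∑ u ∈ Icc x y, g (u + r) - ∑ u ∈ Icc x y, g u‖ ≤ 2 * r * M := by
    intro g hg r
    induction r with
    | zero => simp
    | succ r ih =>
      have h1 : ‖∑ u ∈ Icc x y, g (u + r + 1) - ∑ u ∈ Icc x y, g (u + r)‖ ≤ 2 * M := by
        rcases le_or_gt x y with hxy | hxy
        · have e1 : ∑ u ∈ Icc x y, g (u + r + 1) = ∑ u ∈ Icc (x + 1) (y + 1), g (u + r) := by
            refine sum_bij' (fun u _ => u + 1) (fun u _ => u - 1) ?_ ?_ ?_ ?_ ?_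
            · intro u hu; rw [mem_Icc] at hu ⊢; omega
            · intro u hu; rw [mem_Icc] at hu ⊢; omega
            · intro u _; ring
            · intro u _; ring
            · intro u _; congr 1; ring
          have e2 : ∑ u ∈ Icc (x + 1) (y + 1), g (u + r) + g (x + r) =
              ∑ u ∈ Icc x y, g (u + r) + g (y + 1 + r) := by
            have a1 : Icc x (y + 1) = insert x (Icc (x + 1) (y + 1)) := by
              ext u; simp only [mem_insert, mem_Icc]; omega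
            have a2 : Icc x (y + 1) = insert (y + 1) (Icc x y) := by
              ext u; simp only [mem_insert, mem_Icc]; omega
            have b1 : ∑ u ∈ Icc x (y + 1), g (u + r) = g (x + r) + ∑ u ∈ Icc (x + 1) (y + 1), g (u + r) := by
              rw [a1, sum_insert (by simp)]
            have b2 : ∑ u ∈ Icc x (y + 1), g (u + r) = g (y + 1 + r) + ∑ u ∈ Icc x y, g (u + r) := by
              rw [a2, sum_insert (by simp)]
            rw [add_comm, ← b1, b2, add_comm]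
          have e3 : ∑ u ∈ Icc x y, g (u + r + 1) - ∑ u ∈ Icc x y, g (u + r) = g (y + 1 + r) - g (x + r) := by
            rw [e1]
            linear_combination e2
          rw [e3]
          refine (norm_sub_le _ _).trans ?_
          have := hg (y + 1 + r)
          have := hg (x + r)
          linarith
        · rw [Icc_eq_empty (by omega)]
          simp
          positivity
      have e : ∑ u ∈ Icc x y, g (u + ((r + 1 : ℕ) : ℤ)) = ∑ u ∈ Icc x y, g (u + r + 1) := by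
        refine sum_congr rfl fun u _ => ?_
        congr 1
        push_cast
        ring
      rw [e]
      have h2 := norm_add_le (∑ u ∈ Icc x y, g (u + r + 1) - ∑ u ∈ Icc x y, g (u + r))
        (∑ u ∈ Icc x y, g (u + r) - ∑ u ∈ Icc x y, g u)
      rw [sub_add_sub_cancel] at h2
      push_cast
      linarith
  rcases le_total 0 w with hw | hw
  · obtain ⟨r, rfl⟩ := Int.eq_ofNat_of_zero_le hw
    have := key g hg r
    simpa using this
  · obtain ⟨r, hr⟩ := Int.eq_ofNat_of_zero_le (show 0 ≤ -w by omega)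
    have hw' : w = -(r : ℤ) := by omega
    subst hw'
    have := key (fun u => g (u + -(r : ℤ))) (fun u => hg _) r
    rw [norm_sub_rev] at this
    simp only [add_neg_cancel_right] at this
    simpa using this

lemma shift2 (φ : ℤ → ℤ → ℂ) (hφ : ∀ u v, ‖φ u v‖ ≤ 1) (x₁ x₂ y₁ y₂ w₁ w₂ : ℤ) (Y : ℝ)
    (hI : ((Icc x₁ x₂).card : ℝ) ≤ Y) (hJ : ((Icc y₁ y₂).card : ℝ) ≤ Y) :
    ‖∑ u ∈ Icc x₁ x₂, ∑ v ∈ Icc y₁ y₂, φ (u + w₁) (v + w₂) - ∑ u ∈ Icc x₁ x₂, ∑ v ∈ Icc y₁ y₂, φ u v‖ ≤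
      2 * (|(w₁ : ℝ)| + |(w₂ : ℝ)|) * Y := by
  have h1 : ‖∑ u ∈ Icc x₁ x₂, ∑ v ∈ Icc y₁ y₂, φ (u + w₁) (v + w₂) -
      ∑ u ∈ Icc x₁ x₂, ∑ v ∈ Icc y₁ y₂, φ (u + w₁) v‖ ≤ 2 * |(w₂ : ℝ)| * Y := by
    rw [← sum_sub_distrib]
    refine (norm_sum_le _ _).trans ?_
    have : ∀ u ∈ Icc x₁ x₂, ‖∑ v ∈ Icc y₁ y₂, φ (u + w₁) (v + w₂) - ∑ v ∈ Icc y₁ y₂, φ (u + w₁) v‖ ≤
        2 * |(w₂ : ℝ)| := by
      intro u _
      have := shift1 (fun v => φ (u + w₁) v) 1 (fun v => hφ _ _) y₁ y₂ w₂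
      rw [mul_one] at this
      exact this
    refine (sum_le_sum this).trans ?_
    rw [sum_const, nsmul_eq_mul, mul_comm]
    exact mul_le_mul_of_nonneg_left hI (by positivity)
  have h2 := shift1 (fun u => ∑ v ∈ Icc y₁ y₂, φ u v) Y (fun u => by
    refine (norm_sum_le _ _).trans ((sum_le_sum fun v _ => hφ u v).trans ?_)
    rw [sum_const, nsmul_eq_mul, mul_one]
    exact hJ) x₁ x₂ w₁
  have h3 := norm_add_le (∑ u ∈ Icc x₁ x₂, ∑ v ∈ Icc y₁ y₂, φ (u + w₁) (v + w₂) -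
      ∑ u ∈ Icc x₁ x₂, ∑ v ∈ Icc y₁ y₂, φ (u + w₁) v)
    (∑ u ∈ Icc x₁ x₂, ∑ v ∈ Icc y₁ y₂, φ (u + w₁) v - ∑ u ∈ Icc x₁ x₂, ∑ v ∈ Icc y₁ y₂, φ u v)
  rw [sub_add_sub_cancel] at h3
  linarith

/-- **two linear forms** -/
theorem two_forms (Z : ℕ) (M : ℝ) (hM0 : 0 ≤ M) (hM : ∀ y : ℕ, y ≤ Z → ∀ θ : ℝ, ‖∑ n ∈ Icc 1 y, h n * ee (θ * n)‖ ≤ M)
    (q X T : ℕ) (hT : 1 ≤ T) (hTX : T ≤ X) (hq : 1 ≤ q) (hZ : 4 * q * q * X ≤ Z) (a b a' b' : ℤ)
    (ha : |a| ≤ q) (hb : |b| ≤ q) (ha' : |a'| ≤ q) (hb' : |b'| ≤ q) (hne : a * b' ≠ a' * b)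
    (x₁ x₂ y₁ y₂ : ℤ) (hx₁ : -(X : ℤ) ≤ x₁) (hx₂ : x₂ ≤ X) (hy₁ : -(X : ℤ) ≤ y₁) (hy₂ : y₂ ≤ X) (α β : ℝ) :
    ‖∑ u ∈ Icc x₁ x₂, ∑ v ∈ Icc y₁ y₂, h (a * u + b * v) * h (a' * u + b' * v) * ee (α * u + β * v)‖ ≤
      4 * T * q * (2 * X + 1) + (2 * X + 1) ^ 2 * (4 * q ^ 2 * M) / T := by
  have hT0 : (0 : ℝ) < T := by exact_mod_cast hT
  have hcard : ∀ x y : ℤ, -(X : ℤ) ≤ x → y ≤ X → ((Icc x y).card : ℝ) ≤ 2 * X + 1 := by
    intro x y hx hy
    rw [Int.card_Icc]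
    have : ((y + 1 - x).toNat : ℤ) ≤ 2 * X + 1 := by omega
    exact_mod_cast this
  have hI := hcard x₁ x₂ hx₁ hx₂
  have hJ := hcard y₁ y₂ hy₁ hy₂
  set φ : ℤ → ℤ → ℂ := fun u v => h (a * u + b * v) * h (a' * u + b' * v) * ee (α * u + β * v) with hφ
  have hφ1 : ∀ u v, ‖φ u v‖ ≤ 1 := by
    intro u v
    rw [hφ]
    simp only []
    rw [norm_mul, norm_mul, c_norm_ee, mul_one]
    exact mul_le_one₀ (h_le _) (norm_nonneg _) (h_le _)
  set S : ℂ := ∑ u ∈ Icc x₁ x₂, ∑ v ∈ Icc y₁ y₂, φ u v with hS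
  set D : ℤ := a' * b - b' * a with hD
  have hD0 : D ≠ 0 := by
    rw [hD]
    intro hc
    apply hne
    linarith
  have hqr : (1 : ℝ) ≤ q := by exact_mod_cast hq
  have haR : |(a : ℝ)| ≤ q := by exact_mod_cast ha
  have hbR : |(b : ℝ)| ≤ q := by exact_mod_cast hb
  have hDq : |D| ≤ 2 * (q * q) := by
    rw [hD]
    refine (abs_sub _ _).trans ?_
    rw [abs_mul, abs_mul]
    have e1 := mul_le_mul ha' hb (abs_nonneg b) (by positivity : (0 : ℤ) ≤ q)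
    have e2 := mul_le_mul hb' ha (abs_nonneg a) (by positivity : (0 : ℤ) ≤ q)
    linarith
  have hDqR : |(D : ℝ)| ≤ 2 * q ^ 2 := by
    have : ((|D| : ℤ) : ℝ) ≤ ((2 * (q * q) : ℤ) : ℝ) := by exact_mod_cast hDq
    push_cast at this
    rw [sq]
    exact this
  -- the shifted sums
  have h1 : ∀ t ∈ Icc 1 T, ‖∑ u ∈ Icc x₁ x₂, ∑ v ∈ Icc y₁ y₂, φ (u + t * b) (v + -(t * a)) - S‖ ≤
      4 * T * q * (2 * X + 1) := by
    intro t ht
    rw [mem_Icc] at ht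
    have c1 := shift2 φ hφ1 x₁ x₂ y₁ y₂ (t * b) (-(t * a)) (2 * X + 1) hI hJ
    refine c1.trans ?_
    push_cast
    rw [abs_neg, abs_mul, abs_mul, Nat.abs_cast]
    have htT : (t : ℝ) ≤ T := by exact_mod_cast ht.2
    have c2 : (t : ℝ) * |(b : ℝ)| + t * |(a : ℝ)| ≤ 2 * (T * q) := by
      have d1 := mul_le_mul htT hbR (abs_nonneg _) hT0.le
      have d2 := mul_le_mul htT haR (abs_nonneg _) hT0.le
      linarith
    calc 2 * ((t : ℝ) * |(b : ℝ)| + t * |(a : ℝ)|) * (2 * X + 1) ≤ 2 * (2 * (T * q)) * (2 * X + 1) :=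
          mul_le_mul_of_nonneg_right (mul_le_mul_of_nonneg_left c2 (by norm_num)) (by positivity)
      _ = _ := by ring
  have h2 : ∑ t ∈ Icc 1 T, ∑ u ∈ Icc x₁ x₂, ∑ v ∈ Icc y₁ y₂, φ (u + t * b) (v + -(t * a)) =
      ∑ u ∈ Icc x₁ x₂, ∑ v ∈ Icc y₁ y₂, (h (a * u + b * v) * ee (α * u + β * v)) *
        ∑ t ∈ Icc 1 T, h (a' * u + b' * v + t * D) * ee ((α * b - β * a) * t) := by
    rw [sum_comm]
    refine sum_congr rfl fun u _ => ?_
    rw [sum_comm]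
    refine sum_congr rfl fun v _ => ?_
    rw [mul_sum]
    refine sum_congr rfl fun t _ => ?_
    rw [hφ]
    simp only []
    have e1 : a * (u + t * b) + b * (v + -(t * a)) = a * u + b * v := by ring
    have e2 : a' * (u + t * b) + b' * (v + -(t * a)) = a' * u + b' * v + t * D := by
      rw [hD]
      ring
    have e3 : ee (α * ((u + t * b : ℤ) : ℝ) + β * ((v + -(t * a) : ℤ) : ℝ)) =
        ee (α * u + β * v) * ee ((α * b - β * a) * t) := by
      rw [← c_ee_add]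
      congr 1
      push_cast
      ring
    rw [e1, e2, e3]
    ring
  have h3 : ‖∑ t ∈ Icc 1 T, ∑ u ∈ Icc x₁ x₂, ∑ v ∈ Icc y₁ y₂, φ (u + t * b) (v + -(t * a))‖ ≤
      (2 * X + 1) ^ 2 * (4 * q ^ 2 * M) := by
    rw [h2]
    have c1 : ∀ u ∈ Icc x₁ x₂, ∀ v ∈ Icc y₁ y₂, ‖(h (a * u + b * v) * ee (α * u + β * v)) *
        ∑ t ∈ Icc 1 T, h (a' * u + b' * v + t * D) * ee ((α * b - β * a) * t)‖ ≤ 4 * q ^ 2 * M := by
      intro u hu v hv
      rw [mem_Icc] at hu hv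
      have d0 : |u| ≤ X := abs_le.2 ⟨by omega, by omega⟩
      have d0' : |v| ≤ X := abs_le.2 ⟨by omega, by omega⟩
      have d1 : |a' * u + b' * v| ≤ 2 * q * X := by
        refine (abs_add_le _ _).trans ?_
        rw [abs_mul, abs_mul]
        have e1 := mul_le_mul ha' d0 (abs_nonneg u) (by positivity : (0 : ℤ) ≤ q)
        have e2 := mul_le_mul hb' d0' (abs_nonneg v) (by positivity : (0 : ℤ) ≤ q)
        linarith
      have hZ' : (4 : ℤ) * q * q * X ≤ Z := by exact_mod_cast hZ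
      have hX0 : (0 : ℤ) ≤ X := by positivity
      have hq0 : (1 : ℤ) ≤ q := by exact_mod_cast hq
      have hqX : (q : ℤ) * X ≤ q * q * X := by nlinarith [mul_nonneg (show (0:ℤ) ≤ q by omega) hX0]
      have d2 : |a' * u + b' * v| ≤ Z := by linarith
      have d3 : |a' * u + b' * v + T * D| ≤ Z := by
        refine (abs_add_le _ _).trans ?_
        rw [abs_mul, Nat.abs_cast]
        have hTX' : (T : ℤ) ≤ X := by exact_mod_cast hTX
        have e1 : (T : ℤ) * |D| ≤ X * (2 * (q * q)) := mul_le_mul hTX' hDq (abs_nonneg _) hX0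
        linarith
      have d4 := ap_int Z M hM0 hM D T hD0 (a' * u + b' * v) d2 d3 (α * b - β * a)
      rw [norm_mul, norm_mul, c_norm_ee, mul_one]
      have d5 : |(D : ℝ)| * (2 * M) ≤ 4 * q ^ 2 * M := by
        calc |(D : ℝ)| * (2 * M) ≤ 2 * q ^ 2 * (2 * M) := mul_le_mul_of_nonneg_right hDqR (by positivity)
          _ = _ := by ring
      calc ‖h (a * u + b * v)‖ * ‖∑ t ∈ Icc 1 T, h (a' * u + b' * v + t * D) * ee ((α * b - β * a) * t)‖ ≤
            1 * (4 * q ^ 2 * M) := mul_le_mul (h_le _) (d4.trans d5) (norm_nonneg _) zero_le_one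
        _ = _ := one_mul _
    have hM4 : (0 : ℝ) ≤ 4 * q ^ 2 * M := by positivity
    refine (norm_sum_le _ _).trans ?_
    calc ∑ u ∈ Icc x₁ x₂, ‖∑ v ∈ Icc y₁ y₂, (h (a * u + b * v) * ee (α * u + β * v)) *
        ∑ t ∈ Icc 1 T, h (a' * u + b' * v + t * D) * ee ((α * b - β * a) * t)‖ ≤
          ∑ u ∈ Icc x₁ x₂, (2 * X + 1) * (4 * q ^ 2 * M) := by
          refine sum_le_sum fun u hu => ?_
          refine (norm_sum_le _ _).trans ((sum_le_sum fun v hv => c1 u hu v hv).trans ?_)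
          rw [sum_const, nsmul_eq_mul]
          exact mul_le_mul_of_nonneg_right hJ hM4
      _ = (Icc x₁ x₂).card * ((2 * X + 1) * (4 * q ^ 2 * M)) := by rw [sum_const, nsmul_eq_mul]
      _ ≤ (2 * X + 1) * ((2 * X + 1) * (4 * q ^ 2 * M)) := mul_le_mul_of_nonneg_right hI (by positivity)
      _ = _ := by ring
  have h4 : (T : ℝ) * ‖S‖ ≤ T * (4 * T * q * (2 * X + 1)) + (2 * X + 1) ^ 2 * (4 * q ^ 2 * M) := by
    have e1 : (T : ℂ) * S = ∑ t ∈ Icc 1 T, ∑ u ∈ Icc x₁ x₂, ∑ v ∈ Icc y₁ y₂, φ (u + t * b) (v + -(t * a)) -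
        ∑ t ∈ Icc 1 T, (∑ u ∈ Icc x₁ x₂, ∑ v ∈ Icc y₁ y₂, φ (u + t * b) (v + -(t * a)) - S) := by
      rw [← sum_sub_distrib]
      simp
    have e2 : (T : ℝ) * ‖S‖ = ‖(T : ℂ) * S‖ := by rw [norm_mul, Complex.norm_natCast]
    rw [e2, e1]
    refine (norm_sub_le _ _).trans ?_
    have e3 : ‖∑ t ∈ Icc 1 T, (∑ u ∈ Icc x₁ x₂, ∑ v ∈ Icc y₁ y₂, φ (u + t * b) (v + -(t * a)) - S)‖ ≤
        T * (4 * T * q * (2 * X + 1)) := by
      refine (norm_sum_le _ _).trans ((sum_le_sum h1).trans (le_of_eq ?_))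
      rw [sum_const, Nat.card_Icc, add_tsub_cancel_right, nsmul_eq_mul]
    linarith
  have h5 : (T : ℝ) * ‖S‖ ≤ T * (4 * T * q * (2 * X + 1) + (2 * X + 1) ^ 2 * (4 * q ^ 2 * M) / T) := by
    refine h4.trans (le_of_eq ?_)
    field_simp
  exact le_of_mul_le_mul_left h5 hT0

/-- **two linear forms**, with powers of the logarithm -/
theorem two_log (B K : ℕ) : ∃ X₀ : ℕ, ∀ X : ℕ, X₀ ≤ X → ∀ q : ℕ, 1 ≤ q → (q : ℝ) ≤ Real.log X ^ B →
    ∀ a b a' b' : ℤ, |a| ≤ q → |b| ≤ q → |a'| ≤ q → |b'| ≤ q → a * b' ≠ a' * b →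
    ∀ x₁ x₂ y₁ y₂ : ℤ, -(X : ℤ) ≤ x₁ → x₂ ≤ X → -(X : ℤ) ≤ y₁ → y₂ ≤ X → ∀ α β : ℝ,
    ‖∑ u ∈ Icc x₁ x₂, ∑ v ∈ Icc y₁ y₂, h (a * u + b * v) * h (a' * u + b' * v) * ee (α * u + β * v)‖ ≤
      300 * (X : ℝ) ^ 2 / Real.log X ^ K := by
  obtain ⟨Z₀, hZ₀⟩ := part (5 * B + 2 * K)
  obtain ⟨m1, e1⟩ := ev_log' (B + K) 1
  obtain ⟨m2, e2⟩ := ev_L' 1
  refine ⟨Z₀ + m1 + m2 + 1, fun X hX q hq hqB a b a' b' ha hb ha' hb' hne x₁ x₂ y₁ y₂ hx₁ hx₂ hy₁ hy₂ α β => ?_⟩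
  have a1 := e1 X (by omega)
  have a2 := e2 X (by omega)
  rw [one_mul] at a1
  set ℓ : ℝ := Real.log X with hℓ
  have hℓ0 : 0 < ℓ := by linarith
  have hX1 : (1 : ℝ) ≤ X := by exact_mod_cast (by omega : 1 ≤ X)
  have hX0 : (0 : ℝ) < X := by linarith
  have hqr : (1 : ℝ) ≤ q := by exact_mod_cast hq
  have hq0 : (0 : ℝ) < q := by linarith
  have hK1 : (1 : ℝ) ≤ ℓ ^ K := one_le_pow₀ a2
  -- the bound for the partial sums
  set Z : ℕ := 4 * q * q * X with hZ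
  have hXZ : X ≤ Z := by
    rw [hZ]
    exact Nat.le_mul_of_pos_left X (by positivity)
  set M : ℝ := Z / Real.log Z ^ (5 * B + 2 * K) with hM
  have hlogZ : ℓ ≤ Real.log Z := Real.log_le_log hX0 (by exact_mod_cast hXZ)
  have hM0 : 0 ≤ M := by
    rw [hM]
    have : 0 ≤ Real.log Z := by linarith
    positivity
  have hM1 : M ≤ 4 * q ^ 2 * X / ℓ ^ (5 * B + 2 * K) := by
    rw [hM]
    have c1 : (Z : ℝ) = 4 * q ^ 2 * X := by
      rw [hZ]
      push_cast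
      ring
    calc (Z : ℝ) / Real.log Z ^ (5 * B + 2 * K) ≤ Z / ℓ ^ (5 * B + 2 * K) :=
          div_le_div_of_nonneg_left (by positivity) (by positivity) (pow_le_pow_left₀ hℓ0.le hlogZ _)
      _ = _ := by rw [c1]
  -- the length of the shifts
  set T : ℕ := ⌊(X : ℝ) / (q * ℓ ^ K)⌋₊ with hT
  have hqK : (q : ℝ) * ℓ ^ K ≤ X := by
    calc (q : ℝ) * ℓ ^ K ≤ ℓ ^ B * ℓ ^ K := mul_le_mul_of_nonneg_right hqB (by positivity)
      _ = ℓ ^ (B + K) := (pow_add _ _ _).symm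
      _ ≤ √X := a1
      _ ≤ X := by
          rw [Real.sqrt_le_left hX0.le]
          nlinarith
  have hTle : (T : ℝ) ≤ X / (q * ℓ ^ K) := Nat.floor_le (by positivity)
  have hT1 : 1 ≤ T := by
    rw [hT]
    apply Nat.le_floor
    rw [Nat.cast_one, le_div_iff₀ (by positivity), one_mul]
    exact hqK
  have hT1' : (1 : ℝ) ≤ T := by exact_mod_cast hT1
  have hTge : X / (q * ℓ ^ K) ≤ 2 * T := by
    have := Nat.lt_floor_add_one ((X : ℝ) / (q * ℓ ^ K))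
    rw [← hT] at this
    linarith
  have hTX : T ≤ X := by
    have c1 : (T : ℝ) ≤ X := hTle.trans (div_le_self hX0.le (by nlinarith))
    exact_mod_cast c1
  have h1 := two_forms Z M hM0 (fun y hy θ => hZ₀ Z (by omega) y hy θ) q X T hT1 hTX hq le_rfl a b a' b'
    ha hb ha' hb' hne x₁ x₂ y₁ y₂ hx₁ hx₂ hy₁ hy₂ α β
  refine h1.trans ?_
  have h2 : 4 * (T : ℝ) * q * (2 * X + 1) ≤ 12 * X ^ 2 / ℓ ^ K := by
    have c1 : (T : ℝ) * q ≤ X / ℓ ^ K := by
      calc (T : ℝ) * q ≤ X / (q * ℓ ^ K) * q := mul_le_mul_of_nonneg_right hTle hq0.le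
        _ = X / ℓ ^ K := by field_simp
    calc 4 * (T : ℝ) * q * (2 * X + 1) = 4 * (T * q) * (2 * X + 1) := by ring
      _ ≤ 4 * (X / ℓ ^ K) * (3 * X) := by
          refine mul_le_mul (mul_le_mul_of_nonneg_left c1 (by norm_num)) (by linarith) (by positivity)
            (by positivity)
      _ = _ := by ring
  have h3 : (2 * (X : ℝ) + 1) ^ 2 * (4 * q ^ 2 * M) / T ≤ 288 * X ^ 2 / ℓ ^ K := by
    have hT0 : (0 : ℝ) < T := by linarith
    have c1 : 1 / (T : ℝ) ≤ 2 * (q * ℓ ^ K) / X := by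
      rw [div_le_div_iff₀ hT0 hX0]
      rw [div_le_iff₀ (by positivity)] at hTge
      linarith
    have c2 : (q : ℝ) ^ 5 ≤ ℓ ^ (5 * B) := by
      calc (q : ℝ) ^ 5 ≤ (ℓ ^ B) ^ 5 := pow_le_pow_left₀ hq0.le hqB 5
        _ = ℓ ^ (5 * B) := by rw [← pow_mul]; ring_nf
    have c3 : (2 * (X : ℝ) + 1) ^ 2 ≤ 9 * X ^ 2 := by nlinarith
    calc (2 * (X : ℝ) + 1) ^ 2 * (4 * q ^ 2 * M) / T = (2 * (X : ℝ) + 1) ^ 2 * (4 * q ^ 2 * M) * (1 / T) := by ring
      _ ≤ (9 * X ^ 2) * (4 * q ^ 2 * (4 * q ^ 2 * X / ℓ ^ (5 * B + 2 * K))) * (2 * (q * ℓ ^ K) / X) := by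
          refine mul_le_mul (mul_le_mul c3 (mul_le_mul_of_nonneg_left hM1 (by positivity)) (by positivity)
            (by positivity)) c1 (by positivity) (by positivity)
      _ = 288 * X ^ 2 * ((q : ℝ) ^ 5 / ℓ ^ (5 * B)) / ℓ ^ K := by
          rw [pow_add, show 2 * K = K + K by ring, pow_add]
          field_simp
          ring
      _ ≤ 288 * X ^ 2 * 1 / ℓ ^ K := by
          refine div_le_div_of_nonneg_right (mul_le_mul_of_nonneg_left ?_ (by positivity)) (by positivity)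
          rw [div_le_one (by positivity)]
          exact c2
      _ = _ := by rw [mul_one]
  calc 4 * (T : ℝ) * q * (2 * X + 1) + (2 * (X : ℝ) + 1) ^ 2 * (4 * q ^ 2 * M) / T ≤
        12 * X ^ 2 / ℓ ^ K + 288 * X ^ 2 / ℓ ^ K := add_le_add h2 h3
    _ = _ := by ring

/-- the square -/
noncomputable def box (X : ℕ) : Finset (ℤ × ℤ) := Icc (-(X : ℤ)) X ×ˢ Icc (-(X : ℤ)) X

/-- a rectangle -/
noncomputable def rect (R : (ℤ × ℤ) × (ℤ × ℤ)) : Finset (ℤ × ℤ) := Icc R.1.1 R.1.2 ×ˢ Icc R.2.1 R.2.2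

lemma box_card (X : ℕ) : ((box X).card : ℝ) = (2 * X + 1) ^ 2 := by
  unfold box
  rw [card_product, Int.card_Icc]
  have : ((X : ℤ) + 1 - -(X : ℤ)).toNat = 2 * X + 1 := by omega
  rw [this]
  push_cast
  ring

/-- **Bessel's inequality for linear forms** -/
theorem bes_forms (B : ℕ) (ε : ℝ) (hε : 0 < ε) : ∃ X₀ : ℕ, ∀ X : ℕ, X₀ ≤ X → ∀ q : ℕ, 1 ≤ q →
    (q : ℝ) ≤ Real.log X ^ B → ∀ F : Finset (ℤ × ℤ), (∀ L ∈ F, |L.1| ≤ q ∧ |L.2| ≤ q) →
    (∀ L ∈ F, ∀ L' ∈ F, L ≠ L' → L.1 * L'.2 ≠ L'.1 * L.2) →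
    ∀ (R : ℤ × ℤ → (ℤ × ℤ) × (ℤ × ℤ)) (α β : ℤ × ℤ → ℝ) (G : ℤ × ℤ → ℂ),
    ∑ L ∈ F, ‖∑ P ∈ box X ∩ rect (R L), h (L.1 * P.1 + L.2 * P.2) * G P * ee (α L * P.1 + β L * P.2)‖ ^ 2 ≤
      (1 + ε) * (2 * X + 1) ^ 2 * ∑ P ∈ box X, ‖G P‖ ^ 2 := by
  classical
  obtain ⟨X₁, h1⟩ := two_log B (2 * B + 1)
  obtain ⟨m2, e2⟩ := ev_L' (max 1 (2700 / ε))
  refine ⟨X₁ + m2 + 1, fun X hX q hq hqB F hF hFF R α β G => ?_⟩
  have a2 := e2 X (by omega)
  set ℓ : ℝ := Real.log X with hℓ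
  have hℓ1 : 1 ≤ ℓ := (le_max_left _ _).trans a2
  have hℓ2 : 2700 / ε ≤ ℓ := (le_max_right _ _).trans a2
  have hℓ0 : 0 < ℓ := by linarith
  rw [div_le_iff₀ hε] at hℓ2
  have hX1 : (1 : ℝ) ≤ X := by exact_mod_cast (by omega : 1 ≤ X)
  set v : ℤ × ℤ → ℤ × ℤ → ℂ := fun L P =>
    if P ∈ rect (R L) then h (L.1 * P.1 + L.2 * P.2) * ee (α L * P.1 + β L * P.2) else 0 with hv
  have hv1 : ∀ L P, ‖v L P‖ ≤ 1 := by
    intro L P
    rw [hv]
    simp only []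
    split_ifs
    · rw [norm_mul, c_norm_ee, mul_one]
      exact h_le _
    · simp
  set D : ℝ := 300 * (X : ℝ) ^ 2 / ℓ ^ (2 * B + 1) with hD
  have hD0 : 0 ≤ D := by positivity
  have h2 := bessel_t F (box X) (fun _ => 1) (fun _ => zero_le_one) v ((2 * X + 1) ^ 2) (by positivity)
    (fun L _ => by
      have : ∀ P ∈ box X, (1 : ℝ) * ‖v L P‖ ^ 2 ≤ 1 := fun P _ => by
        rw [one_mul]
        exact pow_le_one₀ (norm_nonneg _) (hv1 L P)
      refine (sum_le_sum this).trans (le_of_eq ?_)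
      rw [sum_const, nsmul_eq_mul, mul_one, box_card]) D hD0 (fun L hL L' hL' hne => by
      have c1 : ∑ P ∈ box X, ((1 : ℝ) : ℂ) * (v L P * (starRingEnd ℂ) (v L' P)) =
          ∑ u ∈ Icc (max (-(X : ℤ)) (max (R L).1.1 (R L').1.1)) (min (X : ℤ) (min (R L).1.2 (R L').1.2)),
            ∑ w ∈ Icc (max (-(X : ℤ)) (max (R L).2.1 (R L').2.1)) (min (X : ℤ) (min (R L).2.2 (R L').2.2)),
              h (L.1 * u + L.2 * w) * h (L'.1 * u + L'.2 * w) * ee ((α L - α L') * u + (β L - β L') * w) := by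
        rw [← sum_product']
        have d1 : ∀ P ∈ box X, ((1 : ℝ) : ℂ) * (v L P * (starRingEnd ℂ) (v L' P)) =
            if P ∈ rect (R L) ∧ P ∈ rect (R L') then
              h (L.1 * P.1 + L.2 * P.2) * h (L'.1 * P.1 + L'.2 * P.2) *
                ee ((α L - α L') * P.1 + (β L - β L') * P.2) else 0 := by
          intro P _
          rw [hv]
          simp only []
          rw [Complex.ofReal_one, one_mul]
          by_cases p1 : P ∈ rect (R L)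
          · by_cases p2 : P ∈ rect (R L')
            · rw [if_pos p1, if_pos p2, if_pos ⟨p1, p2⟩, map_mul, h_conj, ee_conj]
              have : ee ((α L - α L') * P.1 + (β L - β L') * P.2) =
                  ee (α L * P.1 + β L * P.2) * ee (-(α L' * P.1 + β L' * P.2)) := by
                rw [← c_ee_add]
                congr 1
                ring
              rw [this]
              ring
            · rw [if_neg p2, if_neg (fun hh : P ∈ rect (R L) ∧ P ∈ rect (R L') => p2 hh.2), map_zero, mul_zero]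
          · rw [if_neg p1, if_neg (fun hh : P ∈ rect (R L) ∧ P ∈ rect (R L') => p1 hh.1), zero_mul]
        rw [sum_congr rfl d1, ← sum_filter]
        refine sum_congr ?_ fun P _ => rfl
        ext P
        simp only [mem_filter, box, rect, mem_product, mem_Icc, le_min_iff, max_le_iff]
        tauto
      rw [c1]
      have hFL := hF L hL
      have hFL' := hF L' hL'
      exact h1 X (by omega) q hq hqB L.1 L.2 L'.1 L'.2 hFL.1 hFL.2 hFL'.1 hFL'.2 (hFF L hL L' hL' hne)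
        _ _ _ _ (le_max_left _ _) (min_le_left _ _) (le_max_left _ _) (min_le_left _ _) _ _) G
  have e1 : ∀ L ∈ F, ‖∑ P ∈ box X ∩ rect (R L), h (L.1 * P.1 + L.2 * P.2) * G P *
      ee (α L * P.1 + β L * P.2)‖ ^ 2 = ‖∑ P ∈ box X, ((1 : ℝ) : ℂ) * (v L P * G P)‖ ^ 2 := by
    intro L _
    congr 2
    rw [← filter_mem_eq_inter, sum_filter]
    refine sum_congr rfl fun P _ => ?_
    rw [hv]
    simp only []
    rw [Complex.ofReal_one, one_mul]
    split_ifs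
    · ring
    · rw [zero_mul]
  rw [sum_congr rfl e1]
  refine h2.trans ?_
  simp only [one_mul]
  refine mul_le_mul_of_nonneg_right ?_ (sum_nonneg fun _ _ => by positivity)
  -- the number of forms
  have hcard : (F.card : ℝ) ≤ 9 * ℓ ^ (2 * B) := by
    have c1 : F ⊆ Icc (-(q : ℤ)) q ×ˢ Icc (-(q : ℤ)) q := by
      intro L hL
      have := hF L hL
      rw [mem_product, mem_Icc, mem_Icc]
      exact ⟨abs_le.1 this.1, abs_le.1 this.2⟩
    have c2 := card_le_card c1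
    rw [card_product, Int.card_Icc] at c2
    have c3 : ((q : ℤ) + 1 - -(q : ℤ)).toNat = 2 * q + 1 := by omega
    rw [c3] at c2
    have c4 : (F.card : ℝ) ≤ (2 * q + 1) * (2 * q + 1) := by exact_mod_cast c2
    have hq1 : (1 : ℝ) ≤ q := by exact_mod_cast hq
    have c5 : (q : ℝ) ^ 2 ≤ ℓ ^ (2 * B) := by
      calc (q : ℝ) ^ 2 ≤ (ℓ ^ B) ^ 2 := pow_le_pow_left₀ (by linarith) hqB 2
        _ = ℓ ^ (2 * B) := by rw [← pow_mul]; ring_nf
    nlinarith
  have h5 : F.card * D ≤ ε * X ^ 2 := by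
    calc F.card * D ≤ 9 * ℓ ^ (2 * B) * D := mul_le_mul_of_nonneg_right hcard hD0
      _ = 2700 * X ^ 2 / ℓ := by
          rw [hD, pow_succ]
          field_simp
          ring
      _ ≤ ε * X ^ 2 := by
          rw [div_le_iff₀ hℓ0]
          nlinarith [sq_nonneg (X : ℝ)]
  nlinarith

end Pool.Agent.Q42.SH.Bin
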