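import Pool.Agent.Q42.SH.BesOne

/-!
Library Q42.SH (helper42), part 14: Bessel's inequality in C*-algebras.
-/

set_option autoImplicit false

open Finset

namespace Pool.Agent.Q42.SH

section dec
open scoped MatrixOrder Matrix.Norms.L2Operator ComplexOrder

lemma psd_dec {κ : Type*} [Fintype κ] [DecidableEq κ] (K : Matrix κ κ ℂ) (hK : K.PosSemidef) :
    ∃ B : Matrix κ κ ℂ, K = B.conjTranspose * B := by
  obtain ⟨B, hB⟩ := CStarAlgebra.nonneg_iff_eq_star_mul_self.mp hK.nonneg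
  exact ⟨B, hB⟩

lemma psd_of {κ : Type*} [Fintype κ] [DecidableEq κ] (K : Matrix κ κ ℂ) (hH : K.IsHermitian)
    (h : ∀ x : κ → ℂ, ∃ r : ℝ, 0 ≤ r ∧ ∑ n, (starRingEnd ℂ) (x n) * ∑ m, K n m * x m = (r : ℂ)) :
    ∃ B : Matrix κ κ ℂ, K = B.conjTranspose * B := by
  apply psd_dec
  refine Matrix.PosSemidef.of_dotProduct_mulVec_nonneg hH fun x => ?_
  obtain ⟨r, hr, h1⟩ := h x
  have h2 : star x ⬝ᵥ K.mulVec x = (r : ℂ) := h1
  rw [h2]
  exact_mod_cast hr

end dec

/-- a positive kernel gives positive elements -/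
lemma kernel_pos {A : Type*} [NonUnitalCStarAlgebra A] [PartialOrder A] [StarOrderedRing A]
    {κ : Type*} [Fintype κ] (K B : Matrix κ κ ℂ) (hK : K = B.conjTranspose * B)
    (a : κ → A) : 0 ≤ ∑ n, ∑ m, K n m • (star (a n) * a m) := by
  have h1 : ∑ n, ∑ m, K n m • (star (a n) * a m) =
      ∑ k, star (∑ m, B k m • a m) * (∑ m, B k m • a m) := by
    have h2 : ∀ k, star (∑ m, B k m • a m) * (∑ m, B k m • a m) =
        ∑ n, ∑ m, ((starRingEnd ℂ) (B k n) * B k m) • (star (a n) * a m) := by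
      intro k
      rw [star_sum, sum_mul_sum]
      refine sum_congr rfl fun n _ => sum_congr rfl fun m _ => ?_
      rw [star_smul, smul_mul_smul_comm]
      rfl
    simp_rw [h2]
    symm
    rw [sum_comm]
    refine sum_congr rfl fun n _ => ?_
    rw [sum_comm]
    refine sum_congr rfl fun m _ => ?_
    rw [← sum_smul]
    congr 1
    rw [hK, Matrix.mul_apply]
    rfl
  rw [h1]
  exact sum_nonneg fun k _ => star_mul_self_nonneg _

/-- **Bessel's inequality in a C*-algebra** -/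
theorem cstar_bessel {A : Type*} [NonUnitalCStarAlgebra A] [PartialOrder A] [StarOrderedRing A]
    {ι : Type*} (F : Finset ι) (N : ℕ) (v : ι → ℕ → ℂ) (W : ℝ)
    (hb : ∀ ξ : ℕ → ℂ, ∑ i ∈ F, ‖∑ n ∈ Icc 1 N, v i n * ξ n‖ ^ 2 ≤ W * ∑ n ∈ Icc 1 N, ‖ξ n‖ ^ 2)
    (a : ℕ → A) :
    ∑ i ∈ F, star (∑ n ∈ Icc 1 N, v i n • a n) * (∑ n ∈ Icc 1 N, v i n • a n) ≤
      (W : ℂ) • ∑ n ∈ Icc 1 N, star (a n) * a n := by
  classical
  set κ := (Icc 1 N : Finset ℕ) with hκ
  set K : Matrix κ κ ℂ := fun n m => (if n = m then (W : ℂ) else 0) - ∑ i ∈ F, (starRingEnd ℂ) (v i n) * v i m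
    with hKd
  have hH : K.IsHermitian := by
    ext n m
    rw [Matrix.conjTranspose_apply]
    show (starRingEnd ℂ) (K m n) = K n m
    rw [hKd]
    simp only [map_sub, map_sum, map_mul, Complex.conj_conj]
    congr 1
    · by_cases h : n = m
      · rw [if_pos h, if_pos h.symm, Complex.conj_ofReal]
      · rw [if_neg h, if_neg (Ne.symm h), map_zero]
    · exact sum_congr rfl fun i _ => by ring
  obtain ⟨B, hB⟩ := psd_of K hH (fun x => by
    set ξ : ℕ → ℂ := fun n => if h : n ∈ κ then x ⟨n, h⟩ else 0 with hξ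
    have hx : ∀ n : κ, ξ n = x n := by
      intro n
      rw [hξ]
      simp only []
      rw [dif_pos n.2]
    have h1 := hb ξ
    refine ⟨W * ∑ n ∈ Icc 1 N, ‖ξ n‖ ^ 2 - ∑ i ∈ F, ‖∑ n ∈ Icc 1 N, v i n * ξ n‖ ^ 2, by linarith, ?_⟩
    have e1 : ∑ n ∈ Icc 1 N, ‖ξ n‖ ^ 2 = ∑ n : κ, ‖x n‖ ^ 2 := by
      rw [← sum_coe_sort κ (fun n => ‖ξ n‖ ^ 2)]
      exact sum_congr rfl fun n _ => by rw [hx]
    have e2 : ∀ i ∈ F, ∑ n ∈ Icc 1 N, v i n * ξ n = ∑ n : κ, v i n * x n := by
      intro i _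
      rw [← sum_coe_sort κ (fun n => v i n * ξ n)]
      exact sum_congr rfl fun n _ => by rw [hx]
    have e3 : ∀ n : κ, ∑ m, K n m * x m = (W : ℂ) * x n - ∑ i ∈ F, (starRingEnd ℂ) (v i n) * ∑ m : κ, v i m * x m := by
      intro n
      rw [hKd]
      simp only [sub_mul, sum_sub_distrib]
      congr 1
      · simp
      · simp_rw [sum_mul]
        rw [sum_comm]
        refine sum_congr rfl fun i _ => ?_
        rw [mul_sum]
        exact sum_congr rfl fun m _ => by ring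
    have e4 : ∑ n : κ, (starRingEnd ℂ) (x n) * ∑ m, K n m * x m =
        (W : ℂ) * ∑ n : κ, ((‖x n‖ ^ 2 : ℝ) : ℂ) - ∑ i ∈ F, ((‖∑ m : κ, v i m * x m‖ ^ 2 : ℝ) : ℂ) := by
      simp_rw [e3, mul_sub, sum_sub_distrib]
      congr 1
      · rw [mul_sum]
        refine sum_congr rfl fun n _ => ?_
        rw [← Complex.normSq_eq_norm_sq, ← Complex.mul_conj]
        ring
      · simp_rw [mul_sum (F)]
        rw [sum_comm]
        refine sum_congr rfl fun i _ => ?_
        rw [← Complex.normSq_eq_norm_sq, ← Complex.mul_conj, map_sum, mul_comm, sum_mul]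
        refine sum_congr rfl fun n _ => ?_
        rw [map_mul]
        ring
    have e6 : ∑ i ∈ F, ‖∑ n ∈ Icc 1 N, v i n * ξ n‖ ^ 2 = ∑ i ∈ F, ‖∑ n : κ, v i n * x n‖ ^ 2 :=
      sum_congr rfl fun i hi => by rw [e2 i hi]
    rw [e4, e1, e6]
    push_cast
    ring)
  have h2 := kernel_pos K B hB (fun n : κ => a n)
  have h3 : ∑ n : κ, ∑ m : κ, K n m • (star (a n) * a m) = (W : ℂ) • ∑ n ∈ Icc 1 N, star (a n) * a n -
      ∑ i ∈ F, star (∑ n ∈ Icc 1 N, v i n • a n) * (∑ n ∈ Icc 1 N, v i n • a n) := by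
    rw [hKd]
    simp only [sub_smul, sum_sub_distrib]
    congr 1
    · have : ∀ n : κ, ∑ m : κ, (if n = m then (W : ℂ) else 0) • (star (a n) * a m) =
          (W : ℂ) • (star (a (n : ℕ)) * a (n : ℕ)) := by
        intro n
        rw [sum_eq_single n]
        · rw [if_pos rfl]
        · intro m _ hm
          rw [if_neg (Ne.symm hm), zero_smul]
        · intro hc
          exact absurd (mem_univ n) hc
      rw [sum_congr rfl fun n _ => this n, ← sum_coe_sort κ (fun n => star (a n) * a n), smul_sum]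
    · have e1 : ∀ i ∈ F, star (∑ n ∈ Icc 1 N, v i n • a n) * (∑ n ∈ Icc 1 N, v i n • a n) =
          ∑ n : κ, ∑ m : κ, ((starRingEnd ℂ) (v i n) * v i m) • (star (a n) * a m) := by
        intro i _
        rw [← sum_coe_sort κ (fun n => v i n • a n), star_sum, sum_mul_sum]
        refine sum_congr rfl fun n _ => sum_congr rfl fun m _ => ?_
        rw [star_smul, smul_mul_smul_comm]
        rfl
      rw [sum_congr rfl e1]
      symm
      rw [sum_comm]
      refine sum_congr rfl fun n _ => ?_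
      rw [sum_comm]
      refine sum_congr rfl fun m _ => ?_
      rw [sum_smul]
  rw [h3] at h2
  exact sub_nonneg.1 h2

end Pool.Agent.Q42.SH
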