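import Pool.Agent.Q42.SH.CStar

/-!
Library Q42.SH (helper42), part 15: the twisted sums of an orbit of a C*-automorphism.
-/

set_option autoImplicit false

open Finset

namespace Pool.Agent.Q42.SH

open Pool.Agent.Helper602.MK (ee)
open Pool.Agent.Helper602.MK.N_J1c (c_ee_add c_ee_int c_norm_ee)

lemma shift_V {A : Type*} [NormedAddCommGroup A] (Q : ℕ → A) (M : ℝ) (hQ : ∀ n, ‖Q n‖ ≤ M) (m N : ℕ) :
    ‖∑ n ∈ Icc 1 N, Q (n + m) - ∑ n ∈ Icc 1 N, Q n‖ ≤ 2 * m * M := by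
  induction m with
  | zero => simp
  | succ m ih =>
    have h1 : ∀ N : ℕ, ∑ n ∈ Icc 1 N, Q (n + (m + 1)) - ∑ n ∈ Icc 1 N, Q (n + m) =
        Q (N + 1 + m) - Q (1 + m) := by
      intro N
      induction N with
      | zero => simp
      | succ N ihN =>
        rw [sum_Icc_succ_top (by omega), sum_Icc_succ_top (by omega)]
        have e1 : N + 1 + (m + 1) = N + 1 + 1 + m := by ring
        rw [e1]
        calc _ = (∑ n ∈ Icc 1 N, Q (n + (m + 1)) - ∑ n ∈ Icc 1 N, Q (n + m)) +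
              (Q (N + 1 + 1 + m) - Q (N + 1 + m)) := by abel
          _ = _ := by
            rw [ihN]
            abel
    have e : ∑ n ∈ Icc 1 N, Q (n + (m + 1)) - ∑ n ∈ Icc 1 N, Q n =
        (Q (N + 1 + m) - Q (1 + m)) + (∑ n ∈ Icc 1 N, Q (n + m) - ∑ n ∈ Icc 1 N, Q n) := by
      rw [← h1 N]
      abel
    rw [e]
    have h3 := norm_add_le (Q (N + 1 + m) - Q (1 + m)) (∑ n ∈ Icc 1 N, Q (n + m) - ∑ n ∈ Icc 1 N, Q n)
    have h4 := norm_sub_le (Q (N + 1 + m)) (Q (1 + m))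
    have h5 := hQ (N + 1 + m)
    have h6 := hQ (1 + m)
    push_cast
    linarith

/-- the sum of `u(n) e(θ n) α^n(x)` over `n ≤ N` -/
noncomputable def tw {A : Type*} [NonUnitalCStarAlgebra A] (u : ℕ → ℂ) (α : A ≃⋆ₐ[ℂ] A) (x : A) (θ : ℝ)
    (N : ℕ) : A := ∑ n ∈ Icc 1 N, (u n * ee (θ * n)) • (⇑α)^[n] x

lemma iter_norm {A : Type*} [NonUnitalCStarAlgebra A] (α : A ≃⋆ₐ[ℂ] A) (n : ℕ) (x : A) :
    ‖(⇑α)^[n] x‖ = ‖x‖ := by
  induction n with
  | zero => rfl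
  | succ n ih => rw [Function.iterate_succ_apply', StarAlgEquiv.norm_map, ih]

lemma tw_norm {A : Type*} [NonUnitalCStarAlgebra A] (u : ℕ → ℂ) (hu : ∀ n, ‖u n‖ ≤ 1) (α : A ≃⋆ₐ[ℂ] A) (x : A)
    (θ : ℝ) (N : ℕ) : ‖tw u α x θ N‖ ≤ N * ‖x‖ := by
  unfold tw
  refine (norm_sum_le _ _).trans ?_
  have h1 : ∀ n ∈ Icc 1 N, ‖(u n * ee (θ * n)) • (⇑α)^[n] x‖ ≤ ‖x‖ := by
    intro n _
    rw [norm_smul, norm_mul, c_norm_ee, mul_one, iter_norm]
    exact mul_le_of_le_one_left (norm_nonneg _) (hu n)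
  refine (sum_le_sum h1).trans (le_of_eq ?_)
  simp

/-- the translate of the twisted sum -/
lemma tw_shift {A : Type*} [NonUnitalCStarAlgebra A] (u : ℕ → ℂ) (hu : ∀ n, ‖u n‖ ≤ 1) (α : A ≃⋆ₐ[ℂ] A) (x : A)
    (θ : ℝ) (N h : ℕ) :
    ‖(⇑α.symm)^[h] (tw u α x θ N) -
      ∑ n ∈ Icc 1 N, (u (n + h) * ee (θ * n) * ee (θ * h)) • (⇑α)^[n] x‖ ≤ 2 * h * ‖x‖ := by
  have hinv : ∀ (h : ℕ) (y : A), (⇑α.symm)^[h] ((⇑α)^[h] y) = y := by
    intro h
    induction h with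
    | zero => intro y; rfl
    | succ h ih =>
      intro y
      rw [Function.iterate_succ_apply, Function.iterate_succ_apply', StarAlgEquiv.symm_apply_apply]
      exact ih y
  have hlin : ∀ (h : ℕ) (s : Finset ℕ) (c : ℕ → ℂ) (y : ℕ → A),
      (⇑α.symm)^[h] (∑ n ∈ s, c n • y n) = ∑ n ∈ s, c n • (⇑α.symm)^[h] (y n) := by
    intro h
    induction h with
    | zero => intro s c y; rfl
    | succ h ih =>
      intro s c y
      rw [Function.iterate_succ_apply, map_sum]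
      simp_rw [map_smul]
      rw [ih]
      rfl
  have e1 : ∑ n ∈ Icc 1 N, (u (n + h) * ee (θ * n) * ee (θ * h)) • (⇑α)^[n] x =
      (⇑α.symm)^[h] (∑ n ∈ Icc 1 N, (u (n + h) * ee (θ * ((n + h : ℕ) : ℝ))) • (⇑α)^[n + h] x) := by
    rw [hlin h (Icc 1 N) (fun n => u (n + h) * ee (θ * ((n + h : ℕ) : ℝ))) (fun n => (⇑α)^[n + h] x)]
    refine sum_congr rfl fun n _ => ?_
    have e2 : (⇑α)^[n + h] x = (⇑α)^[h] ((⇑α)^[n] x) := by
      rw [add_comm, Function.iterate_add_apply]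
    have e3 : ee (θ * ((n + h : ℕ) : ℝ)) = ee (θ * n) * ee (θ * h) := by
      rw [← c_ee_add]
      congr 1
      push_cast
      ring
    rw [e2, hinv, e3, mul_assoc]
  have e4 : (⇑α.symm)^[h] (tw u α x θ N) -
      (⇑α.symm)^[h] (∑ n ∈ Icc 1 N, (u (n + h) * ee (θ * ((n + h : ℕ) : ℝ))) • (⇑α)^[n + h] x) =
      (⇑α.symm)^[h] (tw u α x θ N - ∑ n ∈ Icc 1 N, (u (n + h) * ee (θ * ((n + h : ℕ) : ℝ))) • (⇑α)^[n + h] x) := by
    have : ∀ (h : ℕ) (y z : A), (⇑α.symm)^[h] y - (⇑α.symm)^[h] z = (⇑α.symm)^[h] (y - z) := by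
      intro h
      induction h with
      | zero => intro y z; rfl
      | succ h ih =>
        intro y z
        rw [Function.iterate_succ_apply, Function.iterate_succ_apply, Function.iterate_succ_apply, ih, map_sub]
    exact this h _ _
  rw [e1, e4, iter_norm α.symm, norm_sub_rev]
  exact shift_V (fun n => (u n * ee (θ * n)) • (⇑α)^[n] x) ‖x‖ (fun n => by
    rw [norm_smul, norm_mul, c_norm_ee, mul_one, iter_norm]
    exact mul_le_of_le_one_left (norm_nonneg _) (hu n)) h N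

/-- **the orbit of the twisted sums** -/
theorem cstar_orb {A : Type*} [NonUnitalCStarAlgebra A] (u : ℕ → ℂ) (hu : ∀ n, ‖u n‖ ≤ 1)
    (H N : ℕ) (W : ℝ) (hW : 0 ≤ W)
    (hb : ∀ (ξ : ℕ → ℂ) (θ : ℕ → ℝ), ∑ h ∈ range H, ‖∑ n ∈ Icc 1 N, u (n + h) * ξ n * ee (θ h * n)‖ ^ 2 ≤
      W * ∑ n ∈ Icc 1 N, ‖ξ n‖ ^ 2) (α : A ≃⋆ₐ[ℂ] A) (x : A) (θ : ℕ → ℝ) :
    ‖∑ h ∈ range H, (⇑α.symm)^[h] (star (tw u α x (θ h) N) * tw u α x (θ h) N)‖ ≤
      W * N * ‖x‖ ^ 2 + 4 * H ^ 2 * N * ‖x‖ ^ 2 := by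
  let _ := CStarAlgebra.spectralOrder A
  have _ := CStarAlgebra.spectralOrderedRing A
  set a : ℕ → A := fun n => (⇑α)^[n] x with ha
  set v : ℕ → ℕ → ℂ := fun h n => u (n + h) * ee (θ h * n) * ee (θ h * h) with hv
  set P : ℕ → A := fun h => ∑ n ∈ Icc 1 N, v h n • a n with hP
  set Q : ℕ → A := fun h => (⇑α.symm)^[h] (tw u α x (θ h) N) with hQ
  have h1 := cstar_bessel (range H) N v W (fun ξ => by
    refine le_trans (le_of_eq (sum_congr rfl fun h _ => ?_)) (hb ξ θ)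
    have : ∑ n ∈ Icc 1 N, v h n * ξ n = (∑ n ∈ Icc 1 N, u (n + h) * ξ n * ee (θ h * n)) * ee (θ h * h) := by
      rw [sum_mul]
      refine sum_congr rfl fun n _ => ?_
      rw [hv]
      simp only []
      ring
    rw [this, norm_mul, c_norm_ee, mul_one]) a
  have h2 : ‖∑ h ∈ range H, star (P h) * P h‖ ≤ W * (N * ‖x‖ ^ 2) := by
    have a1 := CStarAlgebra.norm_le_norm_of_nonneg_of_le
      (sum_nonneg fun h _ => star_mul_self_nonneg (P h)) h1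
    refine a1.trans ?_
    rw [norm_smul, Complex.norm_real, Real.norm_of_nonneg hW]
    refine mul_le_mul_of_nonneg_left ?_ hW
    refine (norm_sum_le _ _).trans ?_
    have a2 : ∀ n ∈ Icc 1 N, ‖star (a n) * a n‖ ≤ ‖x‖ ^ 2 := by
      intro n _
      rw [CStarRing.norm_star_mul_self, ha]
      simp only []
      rw [iter_norm, sq]
    refine (sum_le_sum a2).trans (le_of_eq ?_)
    simp
  have hQP : ∀ h, ‖Q h - P h‖ ≤ 2 * h * ‖x‖ := fun h => tw_shift u hu α x (θ h) N h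
  have hQn : ∀ h, ‖Q h‖ ≤ N * ‖x‖ := by
    intro h
    rw [hQ]
    simp only []
    rw [iter_norm α.symm]
    exact tw_norm u hu α x (θ h) N
  have hPn : ∀ h, ‖P h‖ ≤ N * ‖x‖ := by
    intro h
    rw [hP]
    simp only []
    refine (norm_sum_le _ _).trans ?_
    have a3 : ∀ n ∈ Icc 1 N, ‖v h n • a n‖ ≤ ‖x‖ := by
      intro n _
      rw [norm_smul, hv, ha]
      simp only []
      rw [norm_mul, norm_mul, c_norm_ee, c_norm_ee, mul_one, mul_one, iter_norm]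
      exact mul_le_of_le_one_left (norm_nonneg _) (hu _)
    refine (sum_le_sum a3).trans (le_of_eq ?_)
    simp
  have hmul : ∀ (h : ℕ) (y z : A), (⇑α.symm)^[h] (y * z) = (⇑α.symm)^[h] y * (⇑α.symm)^[h] z := by
    intro h
    induction h with
    | zero => intro y z; rfl
    | succ h ih =>
      intro y z
      rw [Function.iterate_succ_apply, map_mul, ih]
      rfl
  have hstar : ∀ (h : ℕ) (y : A), (⇑α.symm)^[h] (star y) = star ((⇑α.symm)^[h] y) := by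
    intro h
    induction h with
    | zero => intro y; rfl
    | succ h ih =>
      intro y
      rw [Function.iterate_succ_apply, map_star, ih]
      rfl
  have h3 : ∀ h ∈ range H, (⇑α.symm)^[h] (star (tw u α x (θ h) N) * tw u α x (θ h) N) = star (Q h) * Q h := by
    intro h _
    rw [hmul, hstar]
  rw [sum_congr rfl h3]
  have h4 : ∑ h ∈ range H, star (Q h) * Q h = ∑ h ∈ range H, star (P h) * P h +
      ∑ h ∈ range H, (star (Q h) * Q h - star (P h) * P h) := by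
    rw [← sum_add_distrib]
    exact sum_congr rfl fun h _ => by abel
  have h5 : ∀ h ∈ range H, ‖star (Q h) * Q h - star (P h) * P h‖ ≤ 4 * H * N * ‖x‖ ^ 2 := by
    intro h hh
    have hhH : (h : ℝ) ≤ H := by
      have := mem_range.1 hh
      exact_mod_cast this.le
    have b1 : star (Q h) * Q h - star (P h) * P h = star (Q h) * (Q h - P h) + star (Q h - P h) * P h := by
      rw [star_sub]
      noncomm_ring
    rw [b1]
    refine (norm_add_le _ _).trans ?_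
    have b2 : ‖star (Q h) * (Q h - P h)‖ ≤ (N * ‖x‖) * (2 * h * ‖x‖) := by
      refine (norm_mul_le _ _).trans ?_
      rw [norm_star]
      exact mul_le_mul (hQn h) (hQP h) (norm_nonneg _) (by positivity)
    have b3 : ‖star (Q h - P h) * P h‖ ≤ (2 * h * ‖x‖) * (N * ‖x‖) := by
      refine (norm_mul_le _ _).trans ?_
      rw [norm_star]
      exact mul_le_mul (hQP h) (hPn h) (norm_nonneg _) (by positivity)
    have b4 : (N * ‖x‖) * (2 * h * ‖x‖) + (2 * h * ‖x‖) * (N * ‖x‖) = 4 * h * (N * ‖x‖ ^ 2) := by ring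
    have b5 : 4 * h * (N * ‖x‖ ^ 2) ≤ 4 * H * (N * ‖x‖ ^ 2) := by
      apply mul_le_mul_of_nonneg_right _ (by positivity)
      linarith
    nlinarith
  rw [h4]
  refine (norm_add_le _ _).trans ?_
  have h6 : ‖∑ h ∈ range H, (star (Q h) * Q h - star (P h) * P h)‖ ≤ H * (4 * H * N * ‖x‖ ^ 2) := by
    refine (norm_sum_le _ _).trans ((sum_le_sum h5).trans (le_of_eq ?_))
    rw [sum_const, card_range, nsmul_eq_mul]
  nlinarith

/-- **functionals** -/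
theorem func_orb {A : Type*} [NonUnitalCStarAlgebra A] (u : ℕ → ℂ) (hu : ∀ n, ‖u n‖ ≤ 1)
    (H N : ℕ) (W : ℝ) (hW : 0 ≤ W)
    (hb : ∀ (ξ : ℕ → ℂ) (θ : ℕ → ℝ), ∑ h ∈ range H, ‖∑ n ∈ Icc 1 N, u (n + h) * ξ n * ee (θ h * n)‖ ^ 2 ≤
      W * ∑ n ∈ Icc 1 N, ‖ξ n‖ ^ 2) (α : A ≃⋆ₐ[ℂ] A) (x : A) (θ : ℕ → ℝ) (ρ : A →L[ℂ] ℂ) (hρ : ‖ρ‖ ≤ 1) :
    ∑ h ∈ range H, ‖ρ ((⇑α.symm)^[h] (tw u α x (θ h) N))‖ ^ 2 ≤
      W * N * ‖x‖ ^ 2 + 4 * H ^ 2 * N * ‖x‖ ^ 2 := by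
  have hρy : ∀ y, ‖ρ y‖ ≤ ‖y‖ := fun y => (ρ.le_opNorm y).trans (mul_le_of_le_one_left (norm_nonneg _) hρ)
  set a : ℕ → A := fun n => (⇑α)^[n] x with ha
  set v : ℕ → ℕ → ℂ := fun h n => u (n + h) * ee (θ h * n) * ee (θ h * h) with hv
  set P : ℕ → A := fun h => ∑ n ∈ Icc 1 N, v h n • a n with hP
  set Q : ℕ → A := fun h => (⇑α.symm)^[h] (tw u α x (θ h) N) with hQ
  have h1 : ∑ h ∈ range H, ‖ρ (P h)‖ ^ 2 ≤ W * (N * ‖x‖ ^ 2) := by
    have a1 := hb (fun n => ρ (a n)) θ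
    have a2 : ∑ n ∈ Icc 1 N, ‖ρ (a n)‖ ^ 2 ≤ N * ‖x‖ ^ 2 := by
      have : ∀ n ∈ Icc 1 N, ‖ρ (a n)‖ ^ 2 ≤ ‖x‖ ^ 2 := by
        intro n _
        refine pow_le_pow_left₀ (norm_nonneg _) ?_ 2
        refine (hρy _).trans (le_of_eq ?_)
        rw [ha]
        exact iter_norm α n x
      refine (sum_le_sum this).trans (le_of_eq ?_)
      simp
    refine le_trans (le_of_eq (sum_congr rfl fun h _ => ?_)) (a1.trans (mul_le_mul_of_nonneg_left a2 hW))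
    have : ρ (P h) = (∑ n ∈ Icc 1 N, u (n + h) * ρ (a n) * ee (θ h * n)) * ee (θ h * h) := by
      rw [hP]
      simp only []
      rw [map_sum, sum_mul]
      refine sum_congr rfl fun n _ => ?_
      rw [map_smul, smul_eq_mul, hv]
      simp only []
      ring
    rw [this, norm_mul, c_norm_ee, mul_one]
  have hQP : ∀ h, ‖Q h - P h‖ ≤ 2 * h * ‖x‖ := fun h => tw_shift u hu α x (θ h) N h
  have hQn : ∀ h, ‖Q h‖ ≤ N * ‖x‖ := by
    intro h
    rw [hQ]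
    simp only []
    rw [iter_norm α.symm]
    exact tw_norm u hu α x (θ h) N
  have hPn : ∀ h, ‖P h‖ ≤ N * ‖x‖ := by
    intro h
    rw [hP]
    simp only []
    refine (norm_sum_le _ _).trans ?_
    have a3 : ∀ n ∈ Icc 1 N, ‖v h n • a n‖ ≤ ‖x‖ := by
      intro n _
      rw [norm_smul, hv, ha]
      simp only []
      rw [norm_mul, norm_mul, c_norm_ee, c_norm_ee, mul_one, mul_one, iter_norm]
      exact mul_le_of_le_one_left (norm_nonneg _) (hu _)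
    refine (sum_le_sum a3).trans (le_of_eq ?_)
    simp
  have h5 : ∀ h ∈ range H, ‖ρ (Q h)‖ ^ 2 ≤ ‖ρ (P h)‖ ^ 2 + 4 * H * N * ‖x‖ ^ 2 := by
    intro h hh
    have hhH : (h : ℝ) ≤ H := by
      have := mem_range.1 hh
      exact_mod_cast this.le
    have b1 : ‖ρ (Q h)‖ ≤ ‖ρ (P h)‖ + 2 * h * ‖x‖ := by
      have c1 : ρ (Q h) = ρ (P h) + ρ (Q h - P h) := by
        rw [← map_add]
        congr 1
        abel
      rw [c1]
      exact (norm_add_le _ _).trans (add_le_add le_rfl ((hρy _).trans (hQP h)))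
    have b2 : ‖ρ (Q h)‖ ≤ N * ‖x‖ := (hρy _).trans (hQn h)
    have b3 : ‖ρ (P h)‖ ≤ N * ‖x‖ := (hρy _).trans (hPn h)
    have p1 := norm_nonneg (ρ (Q h))
    have p2 := norm_nonneg (ρ (P h))
    have p3 := norm_nonneg x
    have p4 : (0 : ℝ) ≤ N := Nat.cast_nonneg N
    have p5 : (0 : ℝ) ≤ h := Nat.cast_nonneg h
    have b4 : (‖ρ (Q h)‖ - ‖ρ (P h)‖) * (‖ρ (Q h)‖ + ‖ρ (P h)‖) ≤ (2 * h * ‖x‖) * (N * ‖x‖ + N * ‖x‖) := by
      calc (‖ρ (Q h)‖ - ‖ρ (P h)‖) * (‖ρ (Q h)‖ + ‖ρ (P h)‖) ≤ (2 * h * ‖x‖) * (‖ρ (Q h)‖ + ‖ρ (P h)‖) :=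
            mul_le_mul_of_nonneg_right (by linarith) (by positivity)
        _ ≤ _ := mul_le_mul_of_nonneg_left (by linarith) (by positivity)
    have b5 : (2 * h * ‖x‖) * (N * ‖x‖ + N * ‖x‖) = 4 * h * (N * ‖x‖ ^ 2) := by ring
    have b6 : 4 * h * (N * ‖x‖ ^ 2) ≤ 4 * H * (N * ‖x‖ ^ 2) := by
      apply mul_le_mul_of_nonneg_right _ (by positivity)
      linarith
    nlinarith
  refine (sum_le_sum h5).trans ?_
  rw [sum_add_distrib, sum_const, card_range, nsmul_eq_mul]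
  nlinarith

end Pool.Agent.Q42.SH
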