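import Pool.Agent.Q42.SH.Scales
import Pool.Agent.Q42.SH.Bes
import Pool.Agent.Y842.EL.Dens
import Pool.Agent.Y958.U.Diag

/-!
Library Q42.SH (helper42), part 5: the two point theorem for `z ^ Ω` at linear forms with integer
coefficients, with linear phases, one exceptional set of scales; logarithmic averages.
-/

set_option autoImplicit false

open Finset Filter

namespace Pool.Agent.Q42.SH

open Pool.Agent.Helper602.MK (ee)
open Pool.Agent.Helper602.MK.N_J1c (c_ee_add c_ee_int c_norm_ee)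
open Pool.Agent.Y842.QY
open Pool.Agent.Y842.PG (per_I)
open Pool.Agent.Y958.U (LZ)
open ArithmeticFunction (cardFactors)

/-- the two point theorem for `z ^ Ω` and `w ^ Ω`, one exceptional set of scales -/
theorem two_zw (z w : ℂ) (hz : ‖z‖ = 1) (hz1 : z ≠ 1) (hw : ‖w‖ = 1) : ∃ E : Set ℕ, LZ E ∧ ∀ a c : ℕ, a ≠ c →
    ∀ ε : ℝ, 0 < ε → ∃ N₀ : ℕ, ∀ N : ℕ, N₀ ≤ N → N ∉ E → ∀ (γ : ℝ) (y : ℕ), y ≤ N →
      ‖∑ n ∈ Icc 1 y, z ^ cardFactors (n + a) * (starRingEnd ℂ) w ^ cardFactors (n + c) *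
        ee (γ * n)‖ ≤ ε * N := by
  have hwc : ‖(starRingEnd ℂ) w‖ = 1 := by rw [RCLike.norm_conj, hw]
  obtain ⟨E, hE, h⟩ := excW (kc := 1) (fun _ => 0) (fun _ => 1) (fun _ => by simp)
    (fun n => (starRingEnd ℂ) w ^ cardFactors n) (fun n _ => by
      show ‖(starRingEnd ℂ) w ^ cardFactors n‖ ≤ 1
      rw [norm_pow, hwc, one_pow])
    (fun m n hm hn _ => g_mul _ m n hm hn) (fun l => z ^ l) (fun l => by rw [norm_pow, hz, one_pow])
  refine ⟨E, hE, fun a c hac ε hε => ?_⟩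
  obtain ⟨N₁, h1⟩ := h a c hac (ε / 2) (by positivity)
  have hδ : 0 < ‖z - 1‖ := norm_pos_iff.2 (sub_ne_zero.2 hz1)
  obtain ⟨N₂, h2⟩ := zmean ‖z - 1‖ (ε / 2) hδ (by positivity)
  refine ⟨N₁ + N₂, fun N hN hNE γ y hy => ?_⟩
  have h3 := h1 N (by omega) hNE γ y hy
  have h4 := h2 z hz.le le_rfl N (by omega)
  have hyN : (y : ℝ) ≤ N := by exact_mod_cast hy
  have e1 : ∑ n ∈ Icc 1 y, z ^ cardFactors (n + a) * (starRingEnd ℂ) w ^ cardFactors (n + c) *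
        ee (γ * n) = Lc (fun n => 1 * (starRingEnd ℂ) w ^ cardFactors (n + c) * ee (γ * n)) a N y
          (fun l => z ^ l) + ∑ n ∈ Icc 1 y, mB (fun l => z ^ l) N *
            ((starRingEnd ℂ) w ^ cardFactors (n + c) * ee (γ * n)) := by
    unfold Lc
    rw [← sum_add_distrib]
    refine sum_congr rfl fun n _ => ?_
    ring
  have e2 : ‖∑ n ∈ Icc 1 y, mB (fun l => z ^ l) N *
            ((starRingEnd ℂ) w ^ cardFactors (n + c) * ee (γ * n))‖ ≤ ε / 2 * N := by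
    calc ‖∑ n ∈ Icc 1 y, mB (fun l => z ^ l) N *
            ((starRingEnd ℂ) w ^ cardFactors (n + c) * ee (γ * n))‖ ≤
          ∑ n ∈ Icc 1 y, ‖mB (fun l => z ^ l) N‖ := by
          refine (norm_sum_le _ _).trans (sum_le_sum fun n _ => ?_)
          rw [norm_mul, norm_mul, norm_pow, hwc, one_pow, one_mul, c_norm_ee, mul_one]
      _ = y * ‖mB (fun l => z ^ l) N‖ := by simp
      _ ≤ N * (ε / 2) := mul_le_mul hyN h4 (norm_nonneg _) (Nat.cast_nonneg N)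
      _ = _ := by ring
  rw [e1]
  have h5 := norm_add_le (Lc (fun n => 1 * (starRingEnd ℂ) w ^ cardFactors (n + c) * ee (γ * n)) a N y
          (fun l => z ^ l)) (∑ n ∈ Icc 1 y, mB (fun l => z ^ l) N *
            ((starRingEnd ℂ) w ^ cardFactors (n + c) * ee (γ * n)))
  have h6 : ‖Lc (fun n => 1 * (starRingEnd ℂ) w ^ cardFactors (n + c) * ee (γ * n)) a N y
          (fun l => z ^ l)‖ ≤ ε / 2 * N := h3
  linarith

/-- the multiples of `a` -/
lemma sum_mult (f : ℕ → ℂ) (a y : ℕ) (ha : 1 ≤ a) :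
    ∑ m ∈ Icc 1 (a * y), (if a ∣ m then f m else 0) = ∑ n ∈ Icc 1 y, f (a * n) := by
  rw [← sum_filter]
  symm
  refine sum_bij (fun n _ => a * n) ?_ ?_ ?_ ?_
  · intro n hn
    rw [mem_Icc] at hn
    rw [mem_filter, mem_Icc]
    refine ⟨⟨?_, Nat.mul_le_mul_left a hn.2⟩, dvd_mul_right a n⟩
    exact Nat.mul_pos ha hn.1
  · intro n _ n' _ h
    exact Nat.eq_of_mul_eq_mul_left (by omega : 0 < a) h
  · intro m hm
    rw [mem_filter, mem_Icc] at hm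
    obtain ⟨⟨h1, h2⟩, n, rfl⟩ := hm
    refine ⟨n, ?_, rfl⟩
    rw [mem_Icc]
    constructor
    · by_contra hc
      have : n = 0 := by omega
      subst this
      simp at h1
    · exact Nat.le_of_mul_le_mul_left h2 (by omega)
  · intro n _
    rfl

/-- the same leading coefficient, natural numbers -/
theorem two_nat (z w : ℂ) (hz : ‖z‖ = 1) (hz1 : z ≠ 1) (hw : ‖w‖ = 1) : ∃ E : Set ℕ, LZ E ∧
    ∀ a b b' : ℕ, 1 ≤ a → b ≠ b' →
    ∀ ε : ℝ, 0 < ε → ∃ N₀ : ℕ, ∀ N : ℕ, N₀ ≤ N → N ∉ E → ∀ (γ : ℝ) (y : ℕ), y ≤ N →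
      ‖∑ n ∈ Icc 1 y, z ^ cardFactors (a * n + b) * (starRingEnd ℂ) w ^ cardFactors (a * n + b') *
        ee (γ * n)‖ ≤ ε * N := by
  obtain ⟨E₀, hE₀, h0⟩ := two_zw z w hz hz1 hw
  obtain ⟨E, hE, h1⟩ := Pool.Agent.Y842.EL.LZ_diag' (ι := ℕ) (fun a => {N | (a + 1) * N + 0 ∈ E₀})
    (fun a => Pool.Agent.Y842.EL.LZ_pull hE₀ (a + 1) 0 (by omega))
  refine ⟨E, hE, fun a b b' ha hb ε hε => ?_⟩
  have ha0 : (0 : ℝ) < a := by exact_mod_cast ha
  obtain ⟨N₁, h2⟩ := h1 (a - 1)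
  obtain ⟨N₂, h3⟩ := h0 b b' hb (ε / a / a) (by positivity)
  refine ⟨N₁ + N₂, fun N hN hNE γ y hy => ?_⟩
  have h4 : a * N ∉ E₀ := by
    intro hh
    apply hNE
    apply h2 N (by omega)
    rw [Set.mem_ofPred_eq, Nat.sub_add_cancel ha, add_zero]
    exact hh
  have h5 : N₂ ≤ a * N := by
    have : 1 * N ≤ a * N := Nat.mul_le_mul_right N ha
    omega
  have h6 := per_I (a * y) a ha (fun m => z ^ cardFactors (m + b) *
      (starRingEnd ℂ) w ^ cardFactors (m + b')) (fun m => if a ∣ m then 1 else 0) 0 (fun n => by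
        show ‖(if a ∣ n then (1 : ℂ) else 0)‖ ≤ 1
        split_ifs <;> simp) (fun n => by
        show (if a ∣ n + a then (1 : ℂ) else 0) = if a ∣ n then 1 else 0
        simp only [Nat.dvd_add_self_right]) (ε / a / a * (a * N : ℕ))
      (fun γ' => h3 (a * N) h5 h4 γ' (a * y) (Nat.mul_le_mul_left a hy)) (γ / a)
  have h7 : ∑ n ∈ Icc 1 y, z ^ cardFactors (a * n + b) * (starRingEnd ℂ) w ^ cardFactors (a * n + b') *
        ee (γ * n) = ∑ m ∈ Icc 1 (a * y), z ^ cardFactors (m + b) *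
        (starRingEnd ℂ) w ^ cardFactors (m + b') * (if a ∣ m + 0 then 1 else 0) * ee (γ / a * m) := by
    have e1 := sum_mult (fun m => z ^ cardFactors (m + b) * (starRingEnd ℂ) w ^ cardFactors (m + b') *
        ee (γ / a * m)) a y ha
    have e2 : ∑ n ∈ Icc 1 y, z ^ cardFactors (a * n + b) * (starRingEnd ℂ) w ^ cardFactors (a * n + b') *
        ee (γ * n) = ∑ n ∈ Icc 1 y, z ^ cardFactors (a * n + b) *
          (starRingEnd ℂ) w ^ cardFactors (a * n + b') * ee (γ / a * ((a * n : ℕ) : ℝ)) := by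
      refine sum_congr rfl fun n _ => ?_
      congr 2
      push_cast
      field_simp
    rw [e2, ← e1]
    refine sum_congr rfl fun m _ => ?_
    rw [add_zero]
    split_ifs <;> ring
  rw [h7]
  refine h6.trans (le_of_eq ?_)
  push_cast
  field_simp

/-- the function at a linear form with integer coefficients -/
noncomputable def V (z : ℂ) (a b : ℤ) (n : ℕ) : ℂ := z ^ cardFactors (a * n + b).natAbs

lemma V_norm (z : ℂ) (hz : ‖z‖ = 1) (a b : ℤ) (n : ℕ) : ‖V z a b n‖ = 1 := by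
  unfold V
  rw [norm_pow, hz, one_pow]

lemma V_neg (z : ℂ) (a b : ℤ) (n : ℕ) : V z (-a) (-b) n = V z a b n := by
  unfold V
  have : -a * (n : ℤ) + -b = -(a * n + b) := by ring
  rw [this, Int.natAbs_neg]

/-- natural coefficients: reduction to the same leading coefficient -/
theorem two_gen (z w : ℂ) (hz : ‖z‖ = 1) (hz1 : z ≠ 1) (hw : ‖w‖ = 1) : ∃ E : Set ℕ, LZ E ∧
    ∀ a b a' b' : ℕ, 1 ≤ a → 1 ≤ a' → a * b' ≠ a' * b →
    ∀ ε : ℝ, 0 < ε → ∃ N₀ : ℕ, ∀ N : ℕ, N₀ ≤ N → N ∉ E → ∀ (γ : ℝ) (y : ℕ), y ≤ N →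
      ‖∑ n ∈ Icc 1 y, z ^ cardFactors (a * n + b) * (starRingEnd ℂ) w ^ cardFactors (a' * n + b') *
        ee (γ * n)‖ ≤ ε * N := by
  obtain ⟨E, hE, h1⟩ := two_nat z w hz hz1 hw
  refine ⟨E, hE, fun a b a' b' ha ha' hab ε hε => ?_⟩
  obtain ⟨N₀, h2⟩ := h1 (a' * a) (a' * b) (a * b') (Nat.mul_pos ha' ha) (fun h => hab h.symm) ε hε
  refine ⟨N₀, fun N hN hNE γ y hy => ?_⟩
  have h3 := h2 N hN hNE γ y hy
  have e : ∀ n ∈ Icc 1 y, z ^ cardFactors (a' * a * n + a' * b) *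
      (starRingEnd ℂ) w ^ cardFactors (a' * a * n + a * b') * ee (γ * n) =
      (z ^ cardFactors a' * (starRingEnd ℂ) w ^ cardFactors a) *
      (z ^ cardFactors (a * n + b) * (starRingEnd ℂ) w ^ cardFactors (a' * n + b') * ee (γ * n)) := by
    intro n hn
    rw [mem_Icc] at hn
    have e1 : a' * a * n + a' * b = a' * (a * n + b) := by ring
    have e2 : a' * a * n + a * b' = a * (a' * n + b') := by ring
    have p1 : 1 ≤ a * n + b := by
      have := Nat.mul_pos ha hn.1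
      omega
    have p2 : 1 ≤ a' * n + b' := by
      have := Nat.mul_pos ha' hn.1
      omega
    rw [e1, e2, g_mul z a' (a * n + b) ha' p1, g_mul _ a (a' * n + b') ha p2]
    ring
  rw [sum_congr rfl e, ← mul_sum, norm_mul, norm_mul, norm_pow, norm_pow, RCLike.norm_conj, hz, hw,
    one_pow, one_pow, one_mul, one_mul] at h3
  exact h3

lemma sgn_form (z : ℂ) (a b : ℤ) (ha : a ≠ 0) : ∃ (A : ℕ) (B : ℤ), 1 ≤ A ∧
    (∀ n, V z a b n = V z A B n) ∧ ((a = A ∧ b = B) ∨ (a = -A ∧ b = -B)) := by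
  rcases lt_or_gt_of_ne ha with h | h
  · refine ⟨a.natAbs, -b, by omega, fun n => ?_, Or.inr ⟨by omega, by ring⟩⟩
    rw [← V_neg]
    congr 1
    omega
  · refine ⟨a.natAbs, b, by omega, fun n => ?_, Or.inl ⟨by omega, rfl⟩⟩
    congr 1
    omega

/-- **integer coefficients** -/
theorem two_lin (z w : ℂ) (hz : ‖z‖ = 1) (hz1 : z ≠ 1) (hw : ‖w‖ = 1) : ∃ E : Set ℕ, LZ E ∧
    ∀ a b a' b' : ℤ, a ≠ 0 → a' ≠ 0 → a * b' ≠ a' * b →
    ∀ ε : ℝ, 0 < ε → ∃ N₀ : ℕ, ∀ N : ℕ, N₀ ≤ N → N ∉ E → ∀ (γ : ℝ) (y : ℕ), y ≤ N →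
      ‖∑ n ∈ Icc 1 y, V z a b n * (starRingEnd ℂ) (V w a' b' n) * ee (γ * n)‖ ≤ ε * N := by
  obtain ⟨E, hE, h1⟩ := two_gen z w hz hz1 hw
  refine ⟨E, hE, fun a₀ b₀ a₀' b₀' ha₀ ha₀' hab₀ ε hε => ?_⟩
  obtain ⟨a, b, ha, hV, hs⟩ := sgn_form z a₀ b₀ ha₀
  obtain ⟨a', b', ha', hV', hs'⟩ := sgn_form w a₀' b₀' ha₀'
  have hab : (a : ℤ) * b' ≠ a' * b := by
    intro h
    apply hab₀
    rcases hs with ⟨h1, h2⟩ | ⟨h1, h2⟩ <;> rcases hs' with ⟨h3, h4⟩ | ⟨h3, h4⟩ <;> rw [h1, h2, h3, h4]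
    · exact h
    · linear_combination -h
    · linear_combination -h
    · linear_combination h
  set c : ℕ := b.natAbs + b'.natAbs with hc
  have hac : ((c : ℤ)) ≤ a * c := by
    have : (1 : ℤ) ≤ a := by exact_mod_cast ha
    nlinarith [Int.natCast_nonneg c]
  have hac' : ((c : ℤ)) ≤ a' * c := by
    have : (1 : ℤ) ≤ a' := by exact_mod_cast ha'
    nlinarith [Int.natCast_nonneg c]
  obtain ⟨β, hβ⟩ : ∃ β : ℕ, (a : ℤ) * c + b = β := ⟨((a : ℤ) * c + b).toNat, by omega⟩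
  obtain ⟨β', hβ'⟩ : ∃ β' : ℕ, (a' : ℤ) * c + b' = β' := ⟨((a' : ℤ) * c + b').toNat, by omega⟩
  have hne : a * β' ≠ a' * β := by
    intro h
    apply hab
    have h2 : (a : ℤ) * β' = a' * β := by exact_mod_cast h
    rw [← hβ, ← hβ'] at h2
    linear_combination h2
  obtain ⟨N₁, h2⟩ := h1 a β a' β' ha ha' hne (ε / 2) (by positivity)
  refine ⟨N₁ + ⌈2 * c * 2 / ε⌉₊, fun N hN hNE γ y hy => ?_⟩
  have h3 := h2 N (by omega) hNE γ y hy
  have e1 : ∑ n ∈ Icc 1 y, V z a₀ b₀ n * (starRingEnd ℂ) (V w a₀' b₀' n) * ee (γ * n) =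
      ∑ n ∈ Icc 1 y, V z a b n * (starRingEnd ℂ) (V w a' b' n) * ee (γ * n) :=
    sum_congr rfl fun n _ => by rw [hV, hV']
  rw [e1]
  have h4 := shift_c (fun n => V z a b n * (starRingEnd ℂ) (V w a' b' n) * ee (γ * n)) (fun n => by
    show ‖V z a b n * (starRingEnd ℂ) (V w a' b' n) * ee (γ * n)‖ ≤ 1
    rw [norm_mul, norm_mul, RCLike.norm_conj, V_norm z hz, V_norm w hw, c_norm_ee]
    norm_num) c y
  have e2 : ∑ n ∈ Icc 1 y, V z a b (n + c) * (starRingEnd ℂ) (V w a' b' (n + c)) *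
      ee (γ * ((n + c : ℕ) : ℝ)) = (∑ n ∈ Icc 1 y, z ^ cardFactors (a * n + β) *
        (starRingEnd ℂ) w ^ cardFactors (a' * n + β') * ee (γ * n)) * ee (γ * c) := by
    rw [sum_mul]
    refine sum_congr rfl fun n _ => ?_
    have f1 : V z a b (n + c) = z ^ cardFactors (a * n + β) := by
      unfold V
      congr 2
      push_cast
      have : (a : ℤ) * (n + c) + b = ((a * n + β : ℕ) : ℤ) := by
        push_cast
        linear_combination hβ
      rw [this, Int.natAbs_natCast]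
    have f2 : V w a' b' (n + c) = w ^ cardFactors (a' * n + β') := by
      unfold V
      congr 2
      push_cast
      have : (a' : ℤ) * (n + c) + b' = ((a' * n + β' : ℕ) : ℤ) := by
        push_cast
        linear_combination hβ'
      rw [this, Int.natAbs_natCast]
    have f3 : ee (γ * ((n + c : ℕ) : ℝ)) = ee (γ * n) * ee (γ * c) := by
      rw [← c_ee_add]
      congr 1
      push_cast
      ring
    rw [f1, f2, f3, map_pow]
    ring
  have e3 : ‖∑ n ∈ Icc 1 y, V z a b (n + c) * (starRingEnd ℂ) (V w a' b' (n + c)) *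
      ee (γ * ((n + c : ℕ) : ℝ))‖ ≤ ε / 2 * N := by
    rw [e2, norm_mul, c_norm_ee, mul_one]
    exact h3
  have h5 : 2 * c * 2 / ε ≤ (N : ℝ) := (Nat.le_ceil _).trans (Nat.cast_le.2 (by omega))
  rw [div_le_iff₀ hε] at h5
  have h6 := norm_sub_le (∑ n ∈ Icc 1 y, V z a b (n + c) * (starRingEnd ℂ) (V w a' b' (n + c)) *
      ee (γ * ((n + c : ℕ) : ℝ))) (∑ n ∈ Icc 1 y, V z a b (n + c) *
      (starRingEnd ℂ) (V w a' b' (n + c)) * ee (γ * ((n + c : ℕ) : ℝ)) -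
      ∑ n ∈ Icc 1 y, V z a b n * (starRingEnd ℂ) (V w a' b' n) * ee (γ * n))
  rw [sub_sub_cancel] at h6
  linarith

/-- logarithmic averages, uniformly over the functions -/
theorem log_unif (E : Set ℕ) (hE : LZ E) (N₀ : ℕ) (ε : ℝ) (hε : 0 < ε) : ∃ X₀ : ℕ, ∀ X : ℕ, X₀ ≤ X →
    ∀ F : ℕ → ℂ, (∀ n, ‖F n‖ ≤ 1) → ∀ C : ℝ, 0 ≤ C → C ≤ 1 →
      (∀ N, N₀ ≤ N → N ∉ E → ‖∑ n ∈ Icc 1 N, F n‖ ≤ C * N) →
      ‖∑ n ∈ Icc 1 X, F n / n‖ ≤ (C + ε) * Real.log X := by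
  have hT : LZ (E ∪ {N | N < N₀}) :=
    Pool.Agent.Y842.EL.LZ_union hE (Pool.Agent.Y958.U.LZ_bdd _ N₀ fun n hn => hn)
  have hlog : Tendsto (fun X : ℕ => Real.log X) atTop atTop :=
    Real.tendsto_log_atTop.comp tendsto_natCast_atTop_atTop
  have h3 := hT.eventually (ge_mem_nhds (show (0 : ℝ) < ε / 2 by positivity))
  obtain ⟨X₀, hX₀⟩ := eventually_atTop.1 (h3.and ((hlog.eventually_ge_atTop (2 * 2 / ε)).and
    (hlog.eventually_gt_atTop 0)))
  refine ⟨X₀, fun X hX F hF C hC hC1 h => ?_⟩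
  obtain ⟨b1, b2, b3⟩ := hX₀ X hX
  rw [div_le_iff₀ b3] at b1
  rw [div_le_iff₀ hε] at b2
  have h4 := log_c F hF C hC X (E ∪ {N | N < N₀}) (fun N _ _ hNT => by
    have c1 : N ∉ E := fun hh => hNT (Or.inl hh)
    have c2 : N₀ ≤ N := by
      by_contra hcc
      exact hNT (Or.inr (not_le.1 hcc))
    exact h N c2 c1)
  refine h4.trans ?_
  nlinarith

end Pool.Agent.Q42.SH
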