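import Pool.Agent.Q42.SH.Mob

/-!
Library Q42.SH (helper42), part 13: logarithmic averages of the Möbius function along backward orbits.
-/

set_option autoImplicit false

open Finset Filter

namespace Pool.Agent.Q42.SH

open Pool.Agent.Helper602.MK (ee)
open Pool.Agent.Helper602.MK.N_J1c (c_ee_add c_ee_int c_norm_ee)
open Pool.Agent.Y958.U (LZ)

lemma log_shift (Q : ℕ → ℂ) (hQ : ∀ n, ‖Q n‖ ≤ 1) (m N : ℕ) :
    ‖∑ n ∈ Icc 1 N, Q (n + m) / n - ∑ n ∈ Icc 1 N, Q n / n‖ ≤ 3 * m := by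
  induction m with
  | zero => simp
  | succ m ih =>
    have h1 : ∀ N : ℕ, ‖∑ n ∈ Icc 1 N, Q (n + (m + 1)) / n - ∑ n ∈ Icc 1 N, Q (n + m) / n‖ ≤ 3 := by
      intro N
      have e1 : ∀ N : ℕ, ∑ n ∈ Icc 1 N, Q (n + (m + 1)) / n - ∑ n ∈ Icc 1 N, Q (n + m) / n =
          ∑ n ∈ Icc 1 N, Q (n + (m + 1)) * (1 / (n : ℂ) - 1 / ((n + 1 : ℕ) : ℂ)) +
            (Q (N + 1 + m) / ((N + 1 : ℕ) : ℂ) - Q (1 + m)) := by
        intro N
        induction N with
        | zero => simp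
        | succ N ihN =>
          rw [sum_Icc_succ_top (by omega), sum_Icc_succ_top (by omega), sum_Icc_succ_top (by omega)]
          have e2 : N + 1 + (m + 1) = N + 1 + 1 + m := by ring
          rw [e2]
          have h1 : ((N + 1 : ℕ) : ℂ) ≠ 0 := by exact_mod_cast (Nat.succ_ne_zero N)
          have h2 : ((N + 1 + 1 : ℕ) : ℂ) ≠ 0 := by exact_mod_cast (Nat.succ_ne_zero (N + 1))
          linear_combination ihN
      rw [e1]
      have h2 : ‖∑ n ∈ Icc 1 N, Q (n + (m + 1)) * (1 / (n : ℂ) - 1 / ((n + 1 : ℕ) : ℂ))‖ ≤ 1 := by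
        have h3 : ∀ n ∈ Icc 1 N, ‖Q (n + (m + 1)) * (1 / (n : ℂ) - 1 / ((n + 1 : ℕ) : ℂ))‖ ≤
            1 / (n : ℝ) - 1 / ((n + 1 : ℕ) : ℝ) := by
          intro n hn
          rw [mem_Icc] at hn
          have hn0 : (0 : ℝ) < n := by exact_mod_cast (by omega : 0 < n)
          have e3 : (1 / (n : ℂ) - 1 / ((n + 1 : ℕ) : ℂ)) = ((1 / (n : ℝ) - 1 / ((n + 1 : ℕ) : ℝ) : ℝ) : ℂ) := by
            push_cast
            ring
          have p1 : 0 ≤ 1 / (n : ℝ) - 1 / ((n + 1 : ℕ) : ℝ) := by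
            rw [sub_nonneg]
            apply one_div_le_one_div_of_le hn0
            push_cast
            linarith
          rw [norm_mul, e3, Complex.norm_real, Real.norm_of_nonneg p1]
          exact mul_le_of_le_one_left p1 (hQ _)
        refine (norm_sum_le _ _).trans ((sum_le_sum h3).trans ?_)
        have e4 : ∀ N : ℕ, ∑ n ∈ Icc 1 N, (1 / (n : ℝ) - 1 / ((n + 1 : ℕ) : ℝ)) = 1 - 1 / ((N + 1 : ℕ) : ℝ) := by
          intro N
          induction N with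
          | zero => simp
          | succ N ihN =>
            rw [sum_Icc_succ_top (by omega), ihN]
            ring
        rw [e4]
        have : 0 ≤ 1 / ((N + 1 : ℕ) : ℝ) := by positivity
        linarith
      have h4 : ‖Q (N + 1 + m) / ((N + 1 : ℕ) : ℂ)‖ ≤ 1 := by
        rw [norm_div, Complex.norm_natCast, div_le_one (by positivity)]
        refine (hQ _).trans ?_
        push_cast
        have : (0 : ℝ) ≤ N := Nat.cast_nonneg N
        linarith
      have h5 := norm_sub_le (Q (N + 1 + m) / ((N + 1 : ℕ) : ℂ)) (Q (1 + m))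
      have h6 := hQ (1 + m)
      refine (norm_add_le _ _).trans ?_
      linarith
    have e : ∑ n ∈ Icc 1 N, Q (n + (m + 1)) / n - ∑ n ∈ Icc 1 N, Q n / n =
        (∑ n ∈ Icc 1 N, Q (n + (m + 1)) / n - ∑ n ∈ Icc 1 N, Q (n + m) / n) +
        (∑ n ∈ Icc 1 N, Q (n + m) / n - ∑ n ∈ Icc 1 N, Q n / n) := by ring
    rw [e]
    have h3 := norm_add_le (∑ n ∈ Icc 1 N, Q (n + (m + 1)) / n - ∑ n ∈ Icc 1 N, Q (n + m) / n)
      (∑ n ∈ Icc 1 N, Q (n + m) / n - ∑ n ∈ Icc 1 N, Q n / n)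
    have h4 := h1 N
    push_cast
    linarith

/-- **logarithmic Bessel inequality along backward orbits**, for a function with asymptotically
orthogonal shifts -/
theorem log_orb (u : ℕ → ℂ) (hu : ∀ n, ‖u n‖ ≤ 1) (E : Set ℕ) (hE : LZ E)
    (h : ∀ a c : ℕ, a ≠ c → ∀ κ : ℝ, 0 < κ → ∃ N₀ : ℕ, ∀ N : ℕ, N₀ ≤ N → N ∉ E → ∀ γ : ℝ,
      ‖∑ n ∈ Icc 1 N, u (n + a) * (starRingEnd ℂ) (u (n + c)) * ee (γ * n)‖ ≤ κ * N)
    (H : ℕ) (ε : ℝ) (hε : 0 < ε) : ∃ N₀ : ℕ, ∀ N : ℕ, N₀ ≤ N → ∀ ζ : ℕ → ℕ → ℂ, (∀ a n, ‖ζ a n‖ ≤ 1) →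
      (∀ a n, ζ a (n + a) = ζ 0 n) → ∀ α : ℕ → ℝ,
        ∑ a ∈ range H, ‖∑ n ∈ Icc 1 N, u n * ζ a n * ee (α a * n) / n‖ ^ 2 ≤ (1 + ε) * Real.log N ^ 2 := by
  -- a smaller `ε`
  obtain ⟨η, hη, hη1, hη2⟩ : ∃ η : ℝ, 0 < η ∧ η ≤ 1 ∧ (1 + η) ^ 2 + η ≤ 1 + ε := by
    refine ⟨min 1 (ε / 4), lt_min one_pos (by positivity), min_le_left _ _, ?_⟩
    have a1 : min 1 (ε / 4) ≤ 1 := min_le_left _ _
    have a2 : min 1 (ε / 4) ≤ ε / 4 := min_le_right _ _
    have a3 : 0 < min 1 (ε / 4) := lt_min one_pos (by positivity)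
    nlinarith
  set κ : ℝ := min (η / (4 * (H + 1))) (1 / 2) with hκ
  have hκ0 : 0 < κ := lt_min (by positivity) (by norm_num)
  have hκ1 : κ ≤ 1 / 2 := min_le_right _ _
  have hκ2 : (range H).card * (κ + κ) ≤ η / 2 := by
    have h2 : κ ≤ η / (4 * (H + 1)) := min_le_left _ _
    rw [card_range]
    calc (H : ℝ) * (κ + κ) ≤ (H + 1) * (η / (4 * (H + 1)) + η / (4 * (H + 1))) :=
          mul_le_mul (by linarith) (by linarith) (by positivity) (by positivity)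
      _ = η / 2 := by
          field_simp
          ring
  obtain ⟨N₁, h1⟩ := max_pairs (range H) (fun a c N => N ∉ E → ∀ γ : ℝ,
      ‖∑ n ∈ Icc 1 N, u (n + a) * (starRingEnd ℂ) (u (n + c)) * ee (γ * n)‖ ≤ κ * N)
    (fun a _ c _ hac => h a c hac κ hκ0)
  obtain ⟨X₀, hX₀⟩ := log_unif E hE N₁ κ hκ0
  have hlog : Tendsto (fun X : ℕ => Real.log X) atTop atTop :=
    Real.tendsto_log_atTop.comp tendsto_natCast_atTop_atTop
  obtain ⟨N₂, hN₂⟩ := eventually_atTop.1 (hlog.eventually_ge_atTop (2 / η + (12 * H + 9 * H ^ 2) * H / η + 1))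
  refine ⟨X₀ + N₂ + 1, fun N hN ζ hζ hζs α => ?_⟩
  have hl := hN₂ N (by omega)
  have hp1 : 0 ≤ (12 * H + 9 * (H : ℝ) ^ 2) * H / η := by positivity
  have hp2 : 0 < 2 / η := by positivity
  have hl1 : 1 ≤ Real.log N := by linarith
  have hl2 : 2 ≤ η * Real.log N := by
    have : 2 / η ≤ Real.log N := by linarith
    rw [div_le_iff₀ hη] at this
    linarith
  have hl3 : (12 * H + 9 * (H : ℝ) ^ 2) * H ≤ η * Real.log N := by
    have : (12 * H + 9 * (H : ℝ) ^ 2) * H / η ≤ Real.log N := by linarith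
    rw [div_le_iff₀ hη] at this
    linarith
  have hb := bes_log (range H) (fun a n => u (n + a)) (fun a n => hu _) N (κ + κ) η (by positivity) hκ2
    hl2 (fun a ha c hc hne γ => hX₀ N (by omega) (fun n => u (n + a) * (starRingEnd ℂ) (u (n + c)) *
        ee (γ * n)) (fun n => by
          show ‖u (n + a) * (starRingEnd ℂ) (u (n + c)) * ee (γ * n)‖ ≤ 1
          rw [norm_mul, norm_mul, RCLike.norm_conj, c_norm_ee, mul_one]
          exact mul_le_one₀ (hu _) (norm_nonneg _) (hu _)) κ hκ0.le (by linarith)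
        (fun N' hN' hN'E => h1 N' hN' a ha c hc hne hN'E γ)) (ζ 0) α
  have hS := sq_le_log (ζ 0) (hζ 0) N
  -- comparison of the sums
  have hc : ∀ a ∈ range H, ‖∑ n ∈ Icc 1 N, u n * ζ a n * ee (α a * n) / n‖ ^ 2 ≤
      ‖∑ n ∈ Icc 1 N, u (n + a) * ζ 0 n * ee (α a * n) / n‖ ^ 2 + (12 * H + 9 * (H : ℝ) ^ 2) * Real.log N := by
    intro a ha
    have haH : (a : ℝ) ≤ H := by
      have := mem_range.1 ha
      exact_mod_cast this.le
    have ha0 : (0 : ℝ) ≤ a := Nat.cast_nonneg a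
    have c1 := log_shift (fun n => u n * ζ a n * ee (α a * n)) (fun n => by
      rw [norm_mul, norm_mul, c_norm_ee, mul_one]
      exact mul_le_one₀ (hu _) (norm_nonneg _) (hζ _ _)) a N
    have c2 : ∑ n ∈ Icc 1 N, u (n + a) * ζ a (n + a) * ee (α a * ((n + a : ℕ) : ℝ)) / n =
        (∑ n ∈ Icc 1 N, u (n + a) * ζ 0 n * ee (α a * n) / n) * ee (α a * a) := by
      rw [sum_mul]
      refine sum_congr rfl fun n _ => ?_
      have e1 : ee (α a * ((n + a : ℕ) : ℝ)) = ee (α a * n) * ee (α a * a) := by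
        rw [← c_ee_add]
        congr 1
        push_cast
        ring
      rw [hζs, e1]
      ring
    rw [c2] at c1
    set A := ∑ n ∈ Icc 1 N, u n * ζ a n * ee (α a * n) / n with hA
    set B := ∑ n ∈ Icc 1 N, u (n + a) * ζ 0 n * ee (α a * n) / n with hB
    have c3 : ‖A‖ ≤ ‖B‖ + 3 * a := by
      have := norm_sub_le (B * ee (α a * a)) (B * ee (α a * a) - A)
      rw [sub_sub_cancel, norm_mul, c_norm_ee, mul_one] at this
      linarith
    have c4 : ‖B‖ ≤ 2 * Real.log N := by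
      have d1 : ‖B‖ ≤ ∑ n ∈ Icc 1 N, 1 / (n : ℝ) := by
        refine (norm_sum_le _ _).trans (sum_le_sum fun n _ => ?_)
        rw [norm_div, norm_mul, norm_mul, c_norm_ee, mul_one, Complex.norm_natCast]
        exact div_le_div_of_nonneg_right (mul_le_one₀ (hu _) (norm_nonneg _) (hζ _ _)) (Nat.cast_nonneg n)
      have d2 := harmonic_c N
      linarith
    have c5 : ‖A‖ ^ 2 ≤ (‖B‖ + 3 * a) ^ 2 := pow_le_pow_left₀ (norm_nonneg _) c3 2
    have c6 : 6 * a * ‖B‖ ≤ 12 * H * Real.log N := by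
      have := norm_nonneg B
      nlinarith
    have c7 : 9 * (a : ℝ) ^ 2 ≤ 9 * (H : ℝ) ^ 2 * Real.log N := by
      have d1 : (a : ℝ) ^ 2 ≤ (H : ℝ) ^ 2 := pow_le_pow_left₀ ha0 haH 2
      have d2 : 0 ≤ (H : ℝ) ^ 2 := by positivity
      nlinarith
    nlinarith
  refine (sum_le_sum hc).trans ?_
  rw [sum_add_distrib, sum_const, card_range, nsmul_eq_mul]
  have h5 : (H : ℝ) * ((12 * H + 9 * (H : ℝ) ^ 2) * Real.log N) ≤ η * Real.log N ^ 2 := by
    have : (12 * H + 9 * (H : ℝ) ^ 2) * H * Real.log N ≤ η * Real.log N * Real.log N :=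
      mul_le_mul_of_nonneg_right hl3 (by linarith)
    nlinarith
  have h6 : (1 + η) * Real.log N * ∑ n ∈ Icc 1 N, ‖ζ 0 n‖ ^ 2 / n ≤ (1 + η) ^ 2 * Real.log N ^ 2 := by
    have e1 : 1 + Real.log N ≤ (1 + η) * Real.log N := by linarith
    calc (1 + η) * Real.log N * ∑ n ∈ Icc 1 N, ‖ζ 0 n‖ ^ 2 / n ≤
          (1 + η) * Real.log N * ((1 + η) * Real.log N) :=
          mul_le_mul_of_nonneg_left (hS.trans e1) (by positivity)
      _ = _ := by ring
  have h7 := hb.trans h6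
  have h8 : 0 ≤ Real.log N ^ 2 := by positivity
  nlinarith

end Pool.Agent.Q42.SH
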