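import Pool.Agent.Q42.SH.BesOne
import Pool.Agent.Y842.QY.Ell2

/-!
Library Q42.SH (helper42), part 9: the two point theorem for the Möbius function, with linear phases,
one exceptional set of scales; the general case.
-/

set_option autoImplicit false

open Finset Filter

namespace Pool.Agent.Q42.SH

open Pool.Agent.Helper602.MK (ee)
open Pool.Agent.Helper602.MK.N_J1c (c_ee_add c_ee_int c_norm_ee)
open Pool.Agent.Y842.QY
open Pool.Agent.Y958.U (LZ)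

/-- the scales with a large correlation of `f` and `g` -/
def badFG (f g : ℕ → ℂ) (a c : ℕ) (κ : ℝ) : Set ℕ :=
  {N | ∃ γ : ℝ, κ * N < ‖∑ n ∈ Icc 1 N, f (n + a) * g (n + c) * ee (γ * n)‖}

open Classical in
/-- the bad scales, uniformly in a class of functions -/
theorem badFG_sum (𝓕 : (ℕ → ℂ) → Prop) (a c : ℕ) (hPB : PB 𝓕 a c) (κ : ℝ) (hκ : 0 < κ) (ε : ℝ) (hε : 0 < ε) :
    ∃ X₀ : ℕ, ∀ X : ℕ, X₀ ≤ X → ∀ f, 𝓕 f → ∀ g : ℕ → ℂ, (∀ n, 1 ≤ n → ‖g n‖ ≤ 1) →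
      (∀ m n : ℕ, 1 ≤ m → 1 ≤ n → Nat.Coprime m n → g (m * n) = g m * g n) →
      (∑ N ∈ Icc 1 X, if N ∈ badFG f g a c κ then (1 : ℝ) / N else 0) ≤ ε * Real.log X := by
  obtain ⟨X₀, h1⟩ := hPB (ε * κ) (by positivity)
  refine ⟨X₀, fun X hX f hf g hg hm => ?_⟩
  obtain ⟨U, hU1, hU2⟩ := h1 X hX f hf g hg hm (fun N => N) (fun _ => le_rfl)
  have hU0 : ∀ N, 0 ≤ U N := fun N => (norm_nonneg _).trans (hU1 N 0)
  have h3 : ∀ N ∈ Icc 1 X, (if N ∈ badFG f g a c κ then (1 : ℝ) / N else 0) ≤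
      1 / κ * (U N / (N : ℝ) ^ 2) := by
    intro N hN
    rw [mem_Icc] at hN
    have hN0 : (0 : ℝ) < N := by exact_mod_cast (by omega : 0 < N)
    split_ifs with c1
    · obtain ⟨γ, hγ⟩ := c1
      have c2 := hγ.trans_le (hU1 N γ)
      rw [div_mul_div_comm, one_mul, div_le_div_iff₀ hN0 (by positivity)]
      have : (κ * N) * N ≤ U N * N := mul_le_mul_of_nonneg_right c2.le hN0.le
      nlinarith
    · have := hU0 N
      positivity
  refine (sum_le_sum h3).trans ?_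
  rw [← mul_sum]
  calc 1 / κ * ∑ N ∈ Icc 1 X, U N / (N : ℝ) ^ 2 ≤ 1 / κ * (ε * κ * Real.log X) :=
        mul_le_mul_of_nonneg_left hU2 (by positivity)
    _ = ε * Real.log X := by
      field_simp

/-- one exceptional set for given functions -/
theorem badFG_LZ (f g : ℕ → ℂ) (hPB : ∀ a c : ℕ, a ≠ c → PB (fun f₀ => f₀ = f) a c)
    (hg : ∀ n, 1 ≤ n → ‖g n‖ ≤ 1)
    (hm : ∀ m n : ℕ, 1 ≤ m → 1 ≤ n → Nat.Coprime m n → g (m * n) = g m * g n) :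
    ∃ E : Set ℕ, LZ E ∧ ∀ a c : ℕ, a ≠ c → ∀ κ : ℝ, 0 < κ →
      ∃ N₀ : ℕ, ∀ N : ℕ, N₀ ≤ N → N ∉ E → ∀ γ : ℝ,
        ‖∑ n ∈ Icc 1 N, f (n + a) * g (n + c) * ee (γ * n)‖ ≤ κ * N := by
  obtain ⟨E, hE, h1⟩ := Pool.Agent.Y842.EL.LZ_diag' (ι := ℕ × ℕ × ℕ)
    (fun t => if t.1 = t.2.1 then ∅ else badFG f g t.1 t.2.1 (1 / ((t.2.2 : ℝ) + 1))) (fun t => by
      show LZ (if t.1 = t.2.1 then ∅ else badFG f g t.1 t.2.1 (1 / ((t.2.2 : ℝ) + 1)))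
      split_ifs with h
      · exact Pool.Agent.Y842.EL.LZ_empty
      · rw [Pool.Agent.Y842.EL.LZ_eps]
        intro ε hε
        obtain ⟨X₀, h2⟩ := badFG_sum _ t.1 t.2.1 (hPB t.1 t.2.1 h) (1 / ((t.2.2 : ℝ) + 1))
          (by positivity) ε hε
        refine ⟨X₀, fun X hX => ?_⟩
        have h3 := h2 X hX f rfl g hg hm
        refine le_trans (le_of_eq ?_) h3
        unfold Pool.Agent.Y304.U.sE Pool.Agent.Y304.U.ind
        refine sum_congr rfl fun N _ => ?_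
        split_ifs <;> simp)
  refine ⟨E, hE, fun a c hac κ hκ => ?_⟩
  obtain ⟨j, hj⟩ := exists_nat_gt (1 / κ)
  obtain ⟨N₀, h2⟩ := h1 (a, c, j)
  refine ⟨N₀, fun N hN hNE γ => ?_⟩
  by_contra hbad
  apply hNE
  apply h2 N hN
  show N ∈ (if a = c then ∅ else badFG f g a c (1 / ((j : ℝ) + 1)))
  rw [if_neg hac]
  refine ⟨γ, lt_of_le_of_lt ?_ (not_le.1 hbad)⟩
  have : 1 / ((j : ℝ) + 1) ≤ κ := by
    rw [div_le_iff₀ (by positivity)]
    rw [div_lt_iff₀ hκ] at hj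
    nlinarith
  exact mul_le_mul_of_nonneg_right this (Nat.cast_nonneg N)

/-- the Möbius function with complex values -/
noncomputable def muC (n : ℕ) : ℂ := ((ArithmeticFunction.moebius n : ℤ) : ℂ)

lemma muC_le (n : ℕ) : ‖muC n‖ ≤ 1 :=
  Pool.Agent.Y842.PH.norm_F _ Pool.Agent.TH823.MRS.mob_bdd n

lemma muC_real (n : ℕ) : (starRingEnd ℂ) (muC n) = muC n := by
  unfold muC
  rw [map_intCast]

lemma muC_mul (m n : ℕ) (h : Nat.Coprime m n) : muC (m * n) = muC m * muC n := by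
  unfold muC
  rw [ArithmeticFunction.isMultiplicative_moebius.map_mul_of_coprime h]
  push_cast
  rfl

/-- **the two point theorem for the Möbius function** -/
theorem mob_two : ∃ E : Set ℕ, LZ E ∧ ∀ a c : ℕ, a ≠ c → ∀ κ : ℝ, 0 < κ →
      ∃ N₀ : ℕ, ∀ N : ℕ, N₀ ≤ N → N ∉ E → ∀ γ : ℝ,
        ‖∑ n ∈ Icc 1 N, muC (n + a) * (starRingEnd ℂ) (muC (n + c)) * ee (γ * n)‖ ≤ κ * N := by
  obtain ⟨E, hE, h1⟩ := badFG_LZ muC muC (fun a c hac ε' hε' => by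
    obtain ⟨X₀, h⟩ := Pool.Agent.Y842.PG.pair_bd _ muC_le Pool.Agent.TH823.MRS.expo_mob
      (Pool.Agent.Y842.PG.flip_Flp _ Pool.Agent.TH823.MRS.mob_flip) a c hac ε' hε'
    refine ⟨X₀, fun X hX f₀ hf₀ g hg hgm y hy => ?_⟩
    subst hf₀
    exact h X hX g hg hgm y hy) (fun n _ => muC_le n) (fun m n _ _ h => muC_mul m n h)
  refine ⟨E, hE, fun a c hac κ hκ => ?_⟩
  obtain ⟨N₀, h2⟩ := h1 a c hac κ hκ
  refine ⟨N₀, fun N hN hNE γ => ?_⟩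
  have h3 := h2 N hN hNE γ
  refine le_trans (le_of_eq ?_) h3
  congr 1
  refine sum_congr rfl fun n _ => ?_
  rw [muC_real]

end Pool.Agent.Q42.SH
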