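import Pool.Agent.Q42.SH.Scales
import Pool.Agent.Y842.EL.Dens

/-!
Library Q42.SH (helper42), part 4: `Ω(n) + Ω(n + t) + ⋯ + Ω(n + (k - 1) t)` modulo `m`.
-/

set_option autoImplicit false

open Finset Filter

namespace Pool.Agent.Q42.SH

open Pool.Agent.Helper602.MK (ee)
open Pool.Agent.Helper602.MK.N_J1c (c_ee_add c_ee_int c_norm_ee)
open Pool.Agent.Y958.U (LZ)
open ArithmeticFunction (cardFactors)
open scoped Pointwise

/-- the roots of unity -/
noncomputable def rt (i : ℕ × ℕ) : ℂ := Complex.exp (((2 * Real.pi * i.2 / i.1 : ℝ) : ℂ) * Complex.I)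

lemma rt_norm (i : ℕ × ℕ) : ‖rt i‖ = 1 := Complex.norm_exp_ofReal_mul_I _

/-- the two point theorem for all roots of unity, one exceptional set -/
theorem two_roots : ∃ E : Set ℕ, LZ E ∧ ∀ i : ℕ × ℕ, rt i ≠ 1 → ∀ a c : ℕ, a ≠ c →
    ∀ ε : ℝ, 0 < ε → ∃ N₀ : ℕ, ∀ N : ℕ, N₀ ≤ N → N ∉ E →
      ‖∑ n ∈ Icc 1 N, rt i ^ cardFactors (n + a) * (starRingEnd ℂ) (rt i) ^ cardFactors (n + c)‖ ≤
        ε * N := by
  classical
  have h : ∀ i : ℕ × ℕ, ∃ E : Set ℕ, LZ E ∧ (rt i ≠ 1 → ∀ a c : ℕ, a ≠ c →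
    ∀ ε : ℝ, 0 < ε → ∃ N₀ : ℕ, ∀ N : ℕ, N₀ ≤ N → N ∉ E → ∀ (γ : ℝ) (y : ℕ), y ≤ N →
      ‖∑ n ∈ Icc 1 y, rt i ^ cardFactors (n + a) * (starRingEnd ℂ) (rt i) ^ cardFactors (n + c) *
        ee (γ * n)‖ ≤ ε * N) := by
    intro i
    by_cases hi : rt i = 1
    · refine ⟨∅, ?_, fun h => absurd hi h⟩
      unfold LZ
      simp
    · obtain ⟨E, hE, h1⟩ := two_LZ (rt i) (rt_norm i) hi
      exact ⟨E, hE, fun _ => h1⟩
  choose E hE h1 using h
  obtain ⟨F, hF, h2⟩ := Pool.Agent.Y842.EL.LZ_diag' E hE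
  refine ⟨F, hF, fun i hi a c hac ε hε => ?_⟩
  obtain ⟨N₁, h3⟩ := h2 i
  obtain ⟨N₂, h4⟩ := h1 i hi a c hac ε hε
  refine ⟨N₁ + N₂, fun N hN hNF => ?_⟩
  have h5 := h4 N (by omega) (fun hh => hNF (h3 N (by omega) hh)) 0 N le_rfl
  refine le_trans (le_of_eq ?_) h5
  congr 1
  refine sum_congr rfl fun n _ => ?_
  have : ee (0 * (n : ℝ)) = 1 := by
    unfold ee
    simp
  rw [this, mul_one]

lemma rt_std (m : ℕ) [NeZero m] (b : ZMod m) : ZMod.stdAddChar b = rt (m, b.val) := by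
  have h1 : ((b.val : ℤ) : ZMod m) = b := by
    rw [Int.cast_natCast, ZMod.natCast_zmod_val]
  have h2 := ZMod.stdAddChar_coe (N := m) (b.val : ℤ)
  rw [h1] at h2
  rw [h2]
  unfold rt
  congr 1
  push_cast
  ring

lemma rt_ne (m : ℕ) [NeZero m] (b : ZMod m) (hb : b ≠ 0) : rt (m, b.val) ≠ 1 := by
  rw [← rt_std]
  intro h
  apply hb
  apply ZMod.injective_stdAddChar
  rw [h, AddChar.map_zero_eq_one]

/-- the counting function of the differences -/
lemma count_eq (m : ℕ) [NeZero m] (a c : ℕ) (D : Finset (ZMod m)) (N : ℕ) :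
    (m : ℂ) * (((Icc 1 N).filter (fun n => ((cardFactors (n + a) : ℕ) : ZMod m) -
      ((cardFactors (n + c) : ℕ) : ZMod m) ∈ D)).card : ℂ) =
    ∑ b : ZMod m, (∑ d ∈ D, ZMod.stdAddChar (-(b * d))) *
      ∑ n ∈ Icc 1 N, rt (m, b.val) ^ cardFactors (n + a) *
        (starRingEnd ℂ) (rt (m, b.val)) ^ cardFactors (n + c) := by
  classical
  have h1 : ∀ x : ZMod m, (m : ℂ) * (if x ∈ D then 1 else 0) =
      ∑ b : ZMod m, ∑ d ∈ D, ZMod.stdAddChar (b * (x - d)) := by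
    intro x
    rw [sum_comm]
    have h2 : ∀ d ∈ D, ∑ b : ZMod m, ZMod.stdAddChar (b * (x - d)) =
        if x = d then (m : ℂ) else 0 := by
      intro d _
      have h3 := AddChar.sum_mulShift (x - d) (ZMod.isPrimitive_stdAddChar m)
      rw [ZMod.card] at h3
      rw [h3]
      simp only [sub_eq_zero]
      split_ifs <;> simp
    rw [sum_congr rfl h2, sum_ite_eq]
    split_ifs <;> simp
  have h4 : (((Icc 1 N).filter (fun n => ((cardFactors (n + a) : ℕ) : ZMod m) -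
      ((cardFactors (n + c) : ℕ) : ZMod m) ∈ D)).card : ℂ) =
      ∑ n ∈ Icc 1 N, if ((cardFactors (n + a) : ℕ) : ZMod m) -
        ((cardFactors (n + c) : ℕ) : ZMod m) ∈ D then 1 else 0 := by
    rw [card_filter]
    push_cast
    rfl
  rw [h4, mul_sum, sum_congr rfl fun n _ => h1 _, sum_comm]
  refine sum_congr rfl fun b _ => ?_
  rw [sum_comm, sum_mul]
  refine sum_congr rfl fun d _ => ?_
  rw [mul_sum]
  refine sum_congr rfl fun n _ => ?_
  have e1 : b * (((cardFactors (n + a) : ℕ) : ZMod m) - ((cardFactors (n + c) : ℕ) : ZMod m) - d) =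
      -(b * d) + (cardFactors (n + a) • b + cardFactors (n + c) • (-b)) := by
    rw [nsmul_eq_mul, nsmul_eq_mul]
    ring
  have e2 : ZMod.stdAddChar (-b) = (starRingEnd ℂ) (ZMod.stdAddChar b) :=
    AddChar.map_neg_eq_conj _ _
  rw [e1, AddChar.map_add_eq_mul, AddChar.map_add_eq_mul, AddChar.map_nsmul_eq_pow,
    AddChar.map_nsmul_eq_pow, e2, rt_std m b]

/-- the differences are equidistributed -/
theorem diff_equi : ∃ E : Set ℕ, LZ E ∧ ∀ (m : ℕ), 1 ≤ m → ∀ a c : ℕ, a ≠ c →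
    ∀ D : Finset (ZMod m), ∀ ε : ℝ, 0 < ε → ∃ N₀ : ℕ, ∀ N : ℕ, N₀ ≤ N → N ∉ E →
      |(((Icc 1 N).filter (fun n => ((cardFactors (n + a) : ℕ) : ZMod m) -
        ((cardFactors (n + c) : ℕ) : ZMod m) ∈ D)).card : ℝ) - D.card / m * N| ≤ ε * N := by
  classical
  obtain ⟨E, hE, h⟩ := two_roots
  refine ⟨E, hE, fun m hm a c hac D ε hε => ?_⟩
  have : NeZero m := ⟨by omega⟩
  have hm0 : (0 : ℝ) < m := by exact_mod_cast hm
  have h1 : ∀ b : ZMod m, b ≠ 0 → ∃ N₀ : ℕ, ∀ N : ℕ, N₀ ≤ N → N ∉ E →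
      ‖∑ n ∈ Icc 1 N, rt (m, b.val) ^ cardFactors (n + a) *
        (starRingEnd ℂ) (rt (m, b.val)) ^ cardFactors (n + c)‖ ≤ ε / m * N := fun b hb =>
    h _ (rt_ne m b hb) a c hac _ (by positivity)
  have h2 : ∀ b : ZMod m, ∃ N₀ : ℕ, b ≠ 0 → ∀ N : ℕ, N₀ ≤ N → N ∉ E →
      ‖∑ n ∈ Icc 1 N, rt (m, b.val) ^ cardFactors (n + a) *
        (starRingEnd ℂ) (rt (m, b.val)) ^ cardFactors (n + c)‖ ≤ ε / m * N := by
    intro b
    by_cases hb : b = 0
    · exact ⟨0, fun hh => absurd hb hh⟩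
    · obtain ⟨N₀, h3⟩ := h1 b hb
      exact ⟨N₀, fun _ => h3⟩
  choose N₀ hN₀ using h2
  refine ⟨∑ b : ZMod m, N₀ b, fun N hN hNE => ?_⟩
  have h3 := count_eq m a c D N
  set S : ZMod m → ℂ := fun b => ∑ n ∈ Icc 1 N, rt (m, b.val) ^ cardFactors (n + a) *
        (starRingEnd ℂ) (rt (m, b.val)) ^ cardFactors (n + c) with hS
  set w : ZMod m → ℂ := fun b => ∑ d ∈ D, ZMod.stdAddChar (-(b * d)) with hw
  have h4 : S 0 = N := by
    rw [hS]
    simp [rt]
  have h5 : w 0 = D.card := by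
    rw [hw]
    simp
  have h6 : ∀ b, ‖w b‖ ≤ D.card := by
    intro b
    refine (norm_sum_le _ _).trans (le_of_eq ?_)
    simp [rt_std, rt_norm]
  have hD : (D.card : ℝ) ≤ m := by
    have := card_le_univ D
    rw [ZMod.card] at this
    exact_mod_cast this
  have h7 : (m : ℂ) * (((Icc 1 N).filter (fun n => ((cardFactors (n + a) : ℕ) : ZMod m) -
      ((cardFactors (n + c) : ℕ) : ZMod m) ∈ D)).card : ℂ) - D.card * N =
      ∑ b ∈ univ.erase (0 : ZMod m), w b * S b := by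
    rw [h3]
    show ∑ b, w b * S b - _ = _
    rw [← add_sum_erase univ _ (mem_univ (0 : ZMod m)), h4, h5]
    ring
  have h8 : ‖∑ b ∈ univ.erase (0 : ZMod m), w b * S b‖ ≤ m * (m * (ε / m * N)) := by
    calc ‖∑ b ∈ univ.erase (0 : ZMod m), w b * S b‖ ≤ ∑ b ∈ univ.erase (0 : ZMod m), m * (ε / m * N) := by
          refine (norm_sum_le _ _).trans (sum_le_sum fun b hb => ?_)
          rw [norm_mul]
          have hb0 := ne_of_mem_erase hb
          have hbN : N₀ b ≤ N := (single_le_sum (f := N₀) (fun _ _ => Nat.zero_le _) (mem_univ b)).trans hN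
          exact mul_le_mul ((h6 b).trans hD) (hN₀ b hb0 N hbN hNE) (norm_nonneg _) hm0.le
      _ = (univ.erase (0 : ZMod m)).card * (m * (ε / m * N)) := by simp
      _ ≤ _ := by
          apply mul_le_mul_of_nonneg_right _ (by positivity)
          have : (univ.erase (0 : ZMod m)).card ≤ m := (card_le_univ _).trans (by rw [ZMod.card])
          exact_mod_cast this
  set cc : ℝ := (((Icc 1 N).filter (fun n => ((cardFactors (n + a) : ℕ) : ZMod m) -
      ((cardFactors (n + c) : ℕ) : ZMod m) ∈ D)).card : ℝ) with hcc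
  have h9 : ‖((m * cc - D.card * N : ℝ) : ℂ)‖ ≤ m * (m * (ε / m * N)) := by
    refine le_trans (le_of_eq ?_) h8
    rw [← h7, hcc]
    push_cast
    rfl
  rw [Complex.norm_real, Real.norm_eq_abs] at h9
  have e1 : (m : ℝ) * (m * (ε / m * N)) = m * (ε * N) := by field_simp
  rw [e1] at h9
  have e2 : m * cc - D.card * N = m * (cc - D.card / m * N) := by field_simp
  rw [e2, abs_mul, abs_of_pos hm0] at h9
  exact le_of_mul_le_mul_left h9 hm0

end Pool.Agent.Q42.SH
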