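import Pool.Agent.Q42.SH.BesLin
import Pool.Agent.Y842.QY.Mov

/-!
Library Q42.SH (helper42), part 7: Bessel's inequality for the centred functions of `Ω(n + h)`.
-/

set_option autoImplicit false

open Finset Filter

namespace Pool.Agent.Q42.SH

open Pool.Agent.Helper602.MK (ee)
open Pool.Agent.Helper602.MK.N_J1c (c_ee_add c_ee_int c_norm_ee)
open Pool.Agent.Y842.QY
open Pool.Agent.Y958.U (LZ)
open ArithmeticFunction (cardFactors)

/-- the centred function of `Ω(n + h)` -/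
noncomputable def cB (B : ℕ → ℂ) (N h n : ℕ) : ℂ := B (cardFactors (n + h)) - mB B N

/-- the scales with a large correlation -/
def badB (B : ℕ → ℂ) (a c : ℕ) (κ : ℝ) : Set ℕ :=
  {N | ∃ γ : ℝ, κ * N < ‖∑ n ∈ Icc 1 N, cB B N a n * (starRingEnd ℂ) (cB B N c n) * ee (γ * n)‖}

lemma cB_le (B : ℕ → ℂ) (hB : ∀ l, ‖B l‖ ≤ 1) (N h n : ℕ) : ‖cB B N h n‖ ≤ 2 := by
  unfold cB
  have h1 := norm_sub_le (B (cardFactors (n + h))) (mB B N)
  have h2 := mB_le B 1 zero_le_one hB N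
  have h3 := hB (cardFactors (n + h))
  linarith

open Classical in
/-- the bad scales, uniformly in the function -/
theorem bad_sum (a c : ℕ) (hac : a ≠ c) (κ : ℝ) (hκ : 0 < κ) (ε : ℝ) (hε : 0 < ε) : ∃ X₀ : ℕ, ∀ X : ℕ, X₀ ≤ X →
    ∀ B : ℕ → ℂ, (∀ l, ‖B l‖ ≤ 1) →
      (∑ N ∈ Icc 1 X, if N ∈ badB B a c κ then (1 : ℝ) / N else 0) ≤ ε * Real.log X := by
  obtain ⟨X₀, h1⟩ := pair_om a c hac (ε * κ / 2) (by positivity)
  refine ⟨X₀, fun X hX B hB => ?_⟩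
  obtain ⟨U, hU1, hU2⟩ := h1 X hX (fun l => (starRingEnd ℂ) (B l)) B (fun l => by
    rw [RCLike.norm_conj]
    exact hB l) hB
  obtain ⟨W, hW1, hW2⟩ := h1 X hX (fun _ => 1) B (fun l => by simp) hB
  have hU0 : ∀ N, 0 ≤ U N := fun N => (norm_nonneg _).trans (hU1 N 0)
  have hW0 : ∀ N, 0 ≤ W N := fun N => (norm_nonneg _).trans (hW1 N 0)
  have h2 : ∀ N (γ : ℝ), ‖∑ n ∈ Icc 1 N, cB B N a n * (starRingEnd ℂ) (cB B N c n) * ee (γ * n)‖ ≤
      U N + W N := by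
    intro N γ
    have e1 : ∑ n ∈ Icc 1 N, cB B N a n * (starRingEnd ℂ) (cB B N c n) * ee (γ * n) =
        ∑ n ∈ Icc 1 N, (starRingEnd ℂ) (B (cardFactors (n + c))) *
          (B (cardFactors (n + a)) - mB B N) * ee (γ * n) -
        (starRingEnd ℂ) (mB B N) * ∑ n ∈ Icc 1 N, (1 : ℂ) *
          (B (cardFactors (n + a)) - mB B N) * ee (γ * n) := by
      rw [mul_sum, ← sum_sub_distrib]
      refine sum_congr rfl fun n _ => ?_
      unfold cB
      rw [map_sub]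
      ring
    rw [e1]
    refine (norm_sub_le _ _).trans ?_
    rw [norm_mul, RCLike.norm_conj]
    have h3 := hU1 N γ
    have h4 := hW1 N γ
    have h5 := mB_le B 1 zero_le_one hB N
    have h6 : ‖mB B N‖ * ‖∑ n ∈ Icc 1 N, (1 : ℂ) *
          (B (cardFactors (n + a)) - mB B N) * ee (γ * n)‖ ≤ 1 * W N :=
      mul_le_mul h5 h4 (norm_nonneg _) zero_le_one
    linarith
  have h3 : ∀ N ∈ Icc 1 X, (if N ∈ badB B a c κ then (1 : ℝ) / N else 0) ≤
      1 / κ * (U N / (N : ℝ) ^ 2 + W N / (N : ℝ) ^ 2) := by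
    intro N hN
    rw [mem_Icc] at hN
    have hN0 : (0 : ℝ) < N := by exact_mod_cast (by omega : 0 < N)
    have p1 : 0 ≤ 1 / κ * (U N / (N : ℝ) ^ 2 + W N / (N : ℝ) ^ 2) := by
      have := hU0 N
      have := hW0 N
      positivity
    split_ifs with c1
    · obtain ⟨γ, hγ⟩ := c1
      have c2 := hγ.trans_le (h2 N γ)
      rw [← add_div, div_mul_div_comm, one_mul, div_le_div_iff₀ hN0 (by positivity)]
      have : (κ * N) * N ≤ (U N + W N) * N := mul_le_mul_of_nonneg_right c2.le hN0.le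
      nlinarith
    · exact p1
  refine (sum_le_sum h3).trans ?_
  rw [← mul_sum, sum_add_distrib]
  calc 1 / κ * (∑ N ∈ Icc 1 X, U N / (N : ℝ) ^ 2 + ∑ N ∈ Icc 1 X, W N / (N : ℝ) ^ 2) ≤
        1 / κ * (ε * κ / 2 * Real.log X + ε * κ / 2 * Real.log X) :=
        mul_le_mul_of_nonneg_left (add_le_add hU2 hW2) (by positivity)
    _ = ε * Real.log X := by
      field_simp
      ring

/-- the variance of a function of `Ω` -/
noncomputable def vB (B : ℕ → ℂ) (N : ℕ) : ℝ := (∑ n ∈ Icc 1 N, ‖B (cardFactors n) - mB B N‖ ^ 2) / N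

lemma vB_shift (B : ℕ → ℂ) (hB : ∀ l, ‖B l‖ ≤ 1) (N h : ℕ) (hN : 1 ≤ N) :
    ∑ n ∈ Icc 1 N, ‖cB B N h n‖ ^ 2 ≤ vB B N * N + 8 * h := by
  have hN0 : (0 : ℝ) < N := by exact_mod_cast hN
  have h1 := shift_c (fun n => ((‖B (cardFactors n) - mB B N‖ ^ 2 / 4 : ℝ) : ℂ)) (fun n => by
    rw [Complex.norm_real, Real.norm_of_nonneg (by positivity)]
    have h2 := cB_le B hB N 0 n
    unfold cB at h2
    rw [add_zero] at h2
    have : ‖B (cardFactors n) - mB B N‖ ^ 2 ≤ 2 ^ 2 := pow_le_pow_left₀ (norm_nonneg _) h2 2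
    linarith) h N
  rw [← Complex.ofReal_sum, ← Complex.ofReal_sum, ← Complex.ofReal_sub, Complex.norm_real,
    Real.norm_eq_abs, ← sum_div, ← sum_div] at h1
  have h2 := (le_abs_self _).trans h1
  have h3 : vB B N * N = ∑ n ∈ Icc 1 N, ‖B (cardFactors n) - mB B N‖ ^ 2 := by
    unfold vB
    rw [div_mul_cancel₀ _ hN0.ne']
  rw [h3]
  unfold cB
  linarith

/-- **Bessel's inequality** outside the bad scales -/
theorem bes_om (H : Finset ℕ) (ε : ℝ) (hε : 0 < ε) (κ : ℝ) (hκ0 : 0 ≤ κ) (hκ : H.card * κ ≤ ε / 2) :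
    ∃ N₀ : ℕ, ∀ N : ℕ, N₀ ≤ N → ∀ B : ℕ → ℂ, (∀ l, ‖B l‖ ≤ 1) →
      (∀ a ∈ H, ∀ c ∈ H, a ≠ c → N ∉ badB B a c κ) → ∀ (ξ : ℕ → ℂ) (α : ℕ → ℝ),
        ∑ h ∈ H, ‖∑ n ∈ Icc 1 N, cB B N h n * ξ n * ee (α h * n)‖ ^ 2 ≤
          (vB B N + ε) * N * ∑ n ∈ Icc 1 N, ‖ξ n‖ ^ 2 := by
  classical
  set K : ℕ := ∑ h ∈ H, h with hK
  refine ⟨⌈8 * K * 2 / ε⌉₊ + 1, fun N hN B hB hbad ξ α => ?_⟩
  have hN0 : (0 : ℝ) < N := by exact_mod_cast (by omega : 0 < N)
  have hKN : 8 * K * 2 / ε ≤ (N : ℝ) := (Nat.le_ceil _).trans (Nat.cast_le.2 (by omega))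
  rw [div_le_iff₀ hε] at hKN
  have h1 := bessel H (Icc 1 N) (fun _ => 1) (fun _ => zero_le_one)
    (fun h n => cB B N h n * ee (α h * n)) (vB B N * N + 8 * K) (by
      have : 0 ≤ vB B N := by
        unfold vB
        positivity
      positivity) (fun h hh => by
      have c1 := vB_shift B hB N h (by omega)
      have c2 : (h : ℝ) ≤ K := by
        exact_mod_cast single_le_sum (f := fun h => h) (fun _ _ => Nat.zero_le _) hh
      refine le_trans (le_of_eq (sum_congr rfl fun n _ => ?_)) (c1.trans (by linarith))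
      show 1 * ‖cB B N h n * ee (α h * n)‖ ^ 2 = _
      rw [norm_mul, c_norm_ee, mul_one, one_mul]) (κ * N) (by positivity) (fun a ha c hc hne => by
      have c1 := hbad a ha c hc hne
      have c2 : ‖∑ n ∈ Icc 1 N, cB B N a n * (starRingEnd ℂ) (cB B N c n) *
          ee ((α a - α c) * n)‖ ≤ κ * N := by
        by_contra hcc
        exact c1 ⟨α a - α c, not_le.1 hcc⟩
      refine le_trans (le_of_eq ?_) c2
      congr 1
      refine sum_congr rfl fun n _ => ?_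
      have e1 : ee ((α a - α c) * n) = ee (α a * n) * ee (-(α c * n)) := by
        rw [← c_ee_add]
        congr 1
        ring
      show ((1 : ℝ) : ℂ) * (cB B N a n * ee (α a * n) * (starRingEnd ℂ) (cB B N c n * ee (α c * n))) = _
      rw [map_mul, ee_conj, e1, Complex.ofReal_one]
      ring) ξ
  have e1 : ∀ h ∈ H, ‖∑ n ∈ Icc 1 N, cB B N h n * ξ n * ee (α h * n)‖ ^ 2 =
      ‖∑ n ∈ Icc 1 N, ((1 : ℝ) : ℂ) * (cB B N h n * ee (α h * n) * ξ n)‖ ^ 2 := by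
    intro h _
    congr 2
    refine sum_congr rfl fun n _ => ?_
    rw [Complex.ofReal_one]
    ring
  rw [sum_congr rfl e1]
  refine h1.trans ?_
  simp only [one_mul]
  refine mul_le_mul_of_nonneg_right ?_ (sum_nonneg fun _ _ => by positivity)
  have h2 : H.card * (κ * N) = H.card * κ * N := by ring
  rw [h2]
  nlinarith

/-- one exceptional set for a given function -/
theorem bad_LZ (B : ℕ → ℂ) (hB : ∀ l, ‖B l‖ ≤ 1) : ∃ E : Set ℕ, LZ E ∧ ∀ a c : ℕ, a ≠ c → ∀ κ : ℝ, 0 < κ →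
    ∃ N₀ : ℕ, ∀ N : ℕ, N₀ ≤ N → N ∉ E → N ∉ badB B a c κ := by
  obtain ⟨E, hE, h1⟩ := Pool.Agent.Y842.EL.LZ_diag' (ι := ℕ × ℕ × ℕ)
    (fun t => if t.1 = t.2.1 then ∅ else badB B t.1 t.2.1 (1 / ((t.2.2 : ℝ) + 1))) (fun t => by
      show LZ (if t.1 = t.2.1 then ∅ else badB B t.1 t.2.1 (1 / ((t.2.2 : ℝ) + 1)))
      split_ifs with h
      · exact Pool.Agent.Y842.EL.LZ_empty
      · rw [Pool.Agent.Y842.EL.LZ_eps]
        intro ε hε
        obtain ⟨X₀, h2⟩ := bad_sum t.1 t.2.1 h (1 / ((t.2.2 : ℝ) + 1)) (by positivity) ε hε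
        refine ⟨X₀, fun X hX => ?_⟩
        have h3 := h2 X hX B hB
        refine le_trans (le_of_eq ?_) h3
        unfold Pool.Agent.Y304.U.sE Pool.Agent.Y304.U.ind
        refine sum_congr rfl fun N _ => ?_
        split_ifs <;> simp)
  refine ⟨E, hE, fun a c hac κ hκ => ?_⟩
  obtain ⟨j, hj⟩ := exists_nat_gt (1 / κ)
  obtain ⟨N₀, h2⟩ := h1 (a, c, j)
  refine ⟨N₀, fun N hN hNE hbad => ?_⟩
  apply hNE
  apply h2 N hN
  show N ∈ (if a = c then ∅ else badB B a c (1 / ((j : ℝ) + 1)))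
  rw [if_neg hac]
  obtain ⟨γ, hγ⟩ := hbad
  refine ⟨γ, lt_of_le_of_lt ?_ hγ⟩
  have : 1 / ((j : ℝ) + 1) ≤ κ := by
    rw [div_le_iff₀ (by positivity)]
    rw [div_lt_iff₀ hκ] at hj
    nlinarith
  exact mul_le_mul_of_nonneg_right this (Nat.cast_nonneg N)

end Pool.Agent.Q42.SH
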