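import Pool.Agent.Q42.SH.SarnakN

/-!
Library Q42.SH (helper42), part 18: the Liouville function at products along the orbit of an affine map.
-/

set_option autoImplicit false

open Finset Filter

namespace Pool.Agent.Q42.SH.Orb

open Pool.Agent.Helper602.MK (ee)
open Pool.Agent.Helper602.MK.N_J1c (c_ee_add c_ee_int c_norm_ee)
open Pool.Agent.Y958.U (LZ)
open ArithmeticFunction (cardFactors)

/-- the Liouville function on the integers -/
noncomputable def lam (m : ℤ) : ℝ := if m = 0 then 0 else (-1) ^ cardFactors m.natAbs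

/-- the affine map -/
def phi (u v x : ℤ) : ℤ := u * x + v

lemma lam_mul (x y : ℤ) : lam (x * y) = lam x * lam y := by
  unfold lam
  by_cases hx : x = 0
  · simp [hx]
  by_cases hy : y = 0
  · simp [hy]
  rw [if_neg hx, if_neg hy, if_neg (mul_ne_zero hx hy), Int.natAbs_mul,
    ArithmeticFunction.cardFactors_mul (Int.natAbs_ne_zero.2 hx) (Int.natAbs_ne_zero.2 hy), pow_add]

lemma lam_zero : lam 0 = 0 := by simp [lam]

lemma lam_sq (x : ℤ) (hx : x ≠ 0) : lam x * lam x = 1 := by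
  unfold lam
  rw [if_neg hx, ← mul_pow]
  norm_num

lemma lam_abs (x : ℤ) : |lam x| ≤ 1 := by
  unfold lam
  split_ifs
  · simp
  · rw [abs_pow, abs_neg, abs_one, one_pow]

lemma lam_prod {ι : Type*} (s : Finset ι) (g : ι → ℤ) : lam (∏ i ∈ s, g i) = ∏ i ∈ s, lam (g i) := by
  classical
  induction s using Finset.induction_on with
  | empty => simp [lam]
  | insert a s ha ih => rw [prod_insert ha, prod_insert ha, lam_mul, ih]

lemma phi_iter (u v : ℤ) (k : ℕ) (x : ℤ) :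
    (phi u v)^[k] x = u ^ k * x + v * ∑ j ∈ range k, u ^ j := by
  induction k with
  | zero => simp
  | succ k ih =>
    rw [Function.iterate_succ_apply', ih]
    have h1 : ∑ j ∈ range (k + 1), u ^ j = u * ∑ j ∈ range k, u ^ j + 1 := by
      rw [sum_range_succ', mul_sum, pow_zero]
      congr 1
      exact sum_congr rfl fun j _ => by ring
    rw [h1]
    unfold phi
    ring

/-- the product along the orbit -/
noncomputable def F (a b c u v : ℤ) (k : ℕ) (x : ℤ) : ℝ :=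
  lam (c * ∏ j ∈ range k, (a * (phi u v)^[j] x + b))

lemma F_abs (a b c u v : ℤ) (k : ℕ) (x : ℤ) : |F a b c u v k x| ≤ 1 := lam_abs _

lemma F_mul (a b c u v : ℤ) (hc : c ≠ 0) (k : ℕ) (x : ℤ)
    (hx : ∀ j ≤ k, a * (phi u v)^[j] x + b ≠ 0) :
    F a b c u v k x * F a b c u v k (phi u v x) = lam (a * x + b) * lam (a * (phi u v)^[k] x + b) := by
  unfold F
  rw [lam_mul, lam_mul, lam_prod, lam_prod]
  have h0 : ∀ j, (phi u v)^[j] (phi u v x) = (phi u v)^[j + 1] x := fun j =>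
    (Function.iterate_succ_apply _ _ _).symm
  simp_rw [h0]
  have h1 : (∏ j ∈ range k, lam (a * (phi u v)^[j] x + b)) * lam (a * (phi u v)^[k] x + b) =
      (∏ j ∈ range k, lam (a * (phi u v)^[j + 1] x + b)) * lam (a * x + b) := by
    rw [← prod_range_succ (fun j => lam (a * (phi u v)^[j] x + b)), prod_range_succ']
    rfl
  have h2 : ∏ j ∈ range k, lam (a * (phi u v)^[j] x + b) * lam (a * (phi u v)^[j] x + b) = 1 :=
    prod_eq_one fun j hj => lam_sq _ (hx j (mem_range.1 hj).le)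
  rw [prod_mul_distrib] at h2
  have h3 := lam_sq _ (hx k le_rfl)
  have h4 := lam_sq c hc
  have h5 := lam_sq _ (hx 0 (Nat.zero_le k))
  simp only [Function.iterate_zero, id_eq] at h5
  set P := ∏ j ∈ range k, lam (a * (phi u v)^[j] x + b)
  set Q := ∏ j ∈ range k, lam (a * (phi u v)^[j + 1] x + b)
  set X := lam (a * (phi u v)^[k] x + b)
  set Y := lam (a * x + b)
  -- P X = Q Y, P² = X² = Y² = 1
  calc lam c * P * (lam c * Q) = (lam c * lam c) * P * Q := by ring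
    _ = P * Q := by rw [h4, one_mul]
    _ = P * (Q * Y) * Y := by linear_combination (-(P * Q)) * h5
    _ = P * (P * X) * Y := by rw [h1]
    _ = (P * P) * X * Y := by ring
    _ = Y * X := by rw [h2]; ring

lemma root_card (a b u v : ℤ) (ha : a ≠ 0) (hu : 1 ≤ u) (j N : ℕ) :
    ((Icc 1 N).filter (fun n : ℕ => a * (phi u v)^[j] n + b = 0)).card ≤ 1 := by
  rw [card_le_one]
  intro n hn m hm
  rw [mem_filter] at hn hm
  have h1 : a * (phi u v)^[j] (n : ℤ) = a * (phi u v)^[j] (m : ℤ) := by linarith [hn.2, hm.2]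
  have h2 := mul_left_cancel₀ ha h1
  rw [phi_iter, phi_iter] at h2
  have h3 : u ^ j * (n : ℤ) = u ^ j * m := by linarith
  have h4 : (u ^ j : ℤ) ≠ 0 := pow_ne_zero _ (by omega)
  exact_mod_cast mul_left_cancel₀ h4 h3

lemma pm_abs (x y s : ℝ) (hx : x = 1 ∨ x = -1) (hy : y = 1 ∨ y = -1) (hs : s = 1 ∨ s = -1) :
    |x + s * y| ≤ 1 + s * (x * y) := by
  rcases hx with rfl | rfl <;> rcases hy with rfl | rfl <;> rcases hs with rfl | rfl <;> norm_num

lemma sgn_cases (x : ℝ) : ∃ s : ℝ, (s = 1 ∨ s = -1) ∧ |x| = s * x := by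
  rcases le_total 0 x with h | h
  · exact ⟨1, Or.inl rfl, by rw [abs_of_nonneg h, one_mul]⟩
  · exact ⟨-1, Or.inr rfl, by rw [abs_of_nonpos h]; ring⟩

lemma lam_pm (x : ℤ) (hx : x ≠ 0) : lam x = 1 ∨ lam x = -1 := by
  unfold lam
  rw [if_neg hx]
  exact neg_one_pow_eq_or ℝ _

open Classical in
/-- **the main inequality** -/
theorem master : ∃ E : Set ℕ, LZ E ∧ ∀ (a b c u v : ℤ), a ≠ 0 → c ≠ 0 → 1 ≤ u → b * (u - 1) ≠ a * v →
    ∀ k : ℕ, 1 ≤ k → ∀ ε : ℝ, 0 < ε → ∃ N₀ : ℕ, ∀ N : ℕ, N₀ ≤ N → N ∉ E →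
      |∑ n ∈ Icc 1 N, F a b c u v k n| + |∑ n ∈ Icc 1 N, F a b c u v k (phi u v n)| ≤ (1 + ε) * N := by
  obtain ⟨E, hE, h1⟩ := two_lin (-1) (-1) (by simp) (by norm_num) (by simp)
  refine ⟨E, hE, fun a b c u v ha hc hu hne k hk ε hε => ?_⟩
  set G : ℤ := ∑ j ∈ range k, u ^ j with hG
  have hG0 : 0 < G := by
    rw [hG]
    exact sum_pos (fun j _ => by positivity) ⟨0, mem_range.2 (by omega)⟩
  have hgeo : u ^ k = (u - 1) * G + 1 := by
    have := geom_sum_mul u k
    rw [← hG] at this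
    linarith
  obtain ⟨N₀, h2⟩ := h1 a b (a * u ^ k) (a * (v * G) + b) ha (mul_ne_zero ha (pow_ne_zero _ (by omega)))
    (by
      intro h
      apply hne
      have h3 : a * (a * (v * G) + b) = a * ((a * v) * G + b) := by ring
      have h4 : a * u ^ k * b = a * (u ^ k * b) := by ring
      rw [h3, h4] at h
      have h5 := mul_left_cancel₀ ha h
      rw [hgeo] at h5
      have h6 : (b * (u - 1)) * G = (a * v) * G := by linarith
      exact mul_right_cancel₀ hG0.ne' h6) (ε / 2) (by positivity)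
  refine ⟨N₀ + ⌈8 * (k + 1) / ε⌉₊ + 1, fun N hN hNE => ?_⟩
  have hN0 : (0 : ℝ) < N := by exact_mod_cast (by omega : 0 < N)
  have hk1 : 8 * (k + 1) ≤ ε * N := by
    have b1 : (8 * (k + 1) / ε : ℝ) ≤ N := by
      refine (Nat.le_ceil _).trans ?_
      exact_mod_cast (by omega : ⌈(8 * (k + 1) / ε : ℝ)⌉₊ ≤ N)
    rw [div_le_iff₀ hε] at b1
    linarith
  have h3 := h2 N (by omega) hNE 0 N le_rfl
  -- the real sum
  set W : ℕ → ℝ := fun n => (-1) ^ cardFactors (a * n + b).natAbs *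
    (-1) ^ cardFactors (a * u ^ k * n + (a * (v * G) + b)).natAbs with hW
  have h4 : |∑ n ∈ Icc 1 N, W n| ≤ ε / 2 * N := by
    have e1 : ∑ n ∈ Icc 1 N, V (-1) a b n * (starRingEnd ℂ) (V (-1) (a * u ^ k) (a * (v * G) + b) n) *
        ee (0 * n) = ((∑ n ∈ Icc 1 N, W n : ℝ) : ℂ) := by
      rw [Complex.ofReal_sum]
      refine sum_congr rfl fun n _ => ?_
      have : ee (0 * (n : ℝ)) = 1 := by
        rw [zero_mul]
        exact_mod_cast c_ee_int 0
      rw [this, mul_one, hW]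
      unfold V
      push_cast
      rw [map_pow, map_neg, map_one]
    rw [e1, Complex.norm_real, Real.norm_eq_abs] at h3
    exact h3
  -- the exceptional places
  set R : Finset ℕ := (Icc 1 N).filter (fun n : ℕ => ∃ j ≤ k, a * (phi u v)^[j] n + b = 0) with hR
  have hRc : (R.card : ℝ) ≤ k + 1 := by
    have b1 : R ⊆ (range (k + 1)).biUnion fun j => (Icc 1 N).filter (fun n : ℕ => a * (phi u v)^[j] n + b = 0) := by
      intro n hn
      rw [hR, mem_filter] at hn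
      obtain ⟨hn1, j, hj, hjn⟩ := hn
      rw [mem_biUnion]
      exact ⟨j, mem_range.2 (by omega), mem_filter.2 ⟨hn1, hjn⟩⟩
    have b2 : R.card ≤ (range (k + 1)).card * 1 :=
      (card_le_card b1).trans (card_biUnion_le_card_mul _ _ _ fun j _ => root_card a b u v ha hu j N)
    rw [card_range, mul_one] at b2
    exact_mod_cast b2
  obtain ⟨s₁, hs₁, e₁⟩ := sgn_cases (∑ n ∈ Icc 1 N, F a b c u v k n)
  obtain ⟨s₂, hs₂, e₂⟩ := sgn_cases (∑ n ∈ Icc 1 N, F a b c u v k (phi u v n))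
  set s : ℝ := s₁ * s₂ with hs
  have hs' : s = 1 ∨ s = -1 := by
    rw [hs]
    rcases hs₁ with h | h <;> rcases hs₂ with h' | h' <;> rw [h, h'] <;> norm_num
  have hsa : |s| = 1 := by rcases hs' with h | h <;> rw [h] <;> norm_num
  have hs1a : |s₁| = 1 := by rcases hs₁ with h | h <;> rw [h] <;> norm_num
  have hs1s : s₁ * s = s₂ := by
    rw [hs]
    rcases hs₁ with h | h <;> rw [h] <;> ring
  have h5 : |∑ n ∈ Icc 1 N, F a b c u v k n| + |∑ n ∈ Icc 1 N, F a b c u v k (phi u v n)| ≤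
      ∑ n ∈ Icc 1 N, |F a b c u v k n + s * F a b c u v k (phi u v n)| := by
    have : |∑ n ∈ Icc 1 N, F a b c u v k n| + |∑ n ∈ Icc 1 N, F a b c u v k (phi u v n)| =
        s₁ * ∑ n ∈ Icc 1 N, (F a b c u v k n + s * F a b c u v k (phi u v n)) := by
      rw [e₁, e₂, sum_add_distrib, ← mul_sum, mul_add, ← mul_assoc, hs1s]
    rw [this]
    refine (le_abs_self _).trans ?_
    rw [abs_mul, hs1a, one_mul]
    exact abs_sum_le_sum_abs _ _
  have h6 : ∀ n ∈ Icc 1 N, |F a b c u v k n + s * F a b c u v k (phi u v n)| ≤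
      (1 + s * W n) + if n ∈ R then 2 else 0 := by
    intro n hn
    have hWa : |W n| = 1 := by
      rw [hW]
      simp only []
      rw [abs_mul, abs_pow, abs_pow, abs_neg, abs_one, one_pow, one_pow, mul_one]
    have hsW : -1 ≤ s * W n := by
      have : |s * W n| = 1 := by rw [abs_mul, hsa, hWa, mul_one]
      exact (abs_le.1 this.le).1
    by_cases hnR : n ∈ R
    · rw [if_pos hnR]
      have b1 : |F a b c u v k n + s * F a b c u v k (phi u v n)| ≤ 1 + 1 := by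
        refine (abs_add_le _ _).trans (add_le_add (F_abs _ _ _ _ _ _ _) ?_)
        rw [abs_mul, hsa, one_mul]
        exact F_abs _ _ _ _ _ _ _
      linarith
    · rw [if_neg hnR, add_zero]
      have hx : ∀ j ≤ k, a * (phi u v)^[j] (n : ℤ) + b ≠ 0 := by
        intro j hj hc
        exact hnR (mem_filter.2 ⟨hn, j, hj, hc⟩)
      have b1 := F_mul a b c u v hc k n hx
      have b2 : lam (a * n + b) * lam (a * (phi u v)^[k] (n : ℤ) + b) = W n := by
        have c1 := hx k le_rfl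
        have c2 := hx 0 (Nat.zero_le k)
        simp only [Function.iterate_zero, id_eq] at c2
        rw [hW]
        unfold lam
        rw [if_neg c1, if_neg c2, phi_iter]
        congr 4
        ring
      have b3 : F a b c u v k n = 1 ∨ F a b c u v k n = -1 := by
        refine lam_pm _ (mul_ne_zero hc (prod_ne_zero_iff.2 fun j hj => hx j (mem_range.1 hj).le))
      have b4 : F a b c u v k (phi u v n) = 1 ∨ F a b c u v k (phi u v n) = -1 := by
        refine lam_pm _ (mul_ne_zero hc (prod_ne_zero_iff.2 fun j hj => ?_))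
        have : (phi u v)^[j] (phi u v (n : ℤ)) = (phi u v)^[j + 1] (n : ℤ) :=
          (Function.iterate_succ_apply _ _ _).symm
        rw [this]
        exact hx (j + 1) (by have := mem_range.1 hj; omega)
      have b5 := pm_abs _ _ s b3 b4 hs'
      rw [b1, b2] at b5
      exact b5
  have h7 : ∑ n ∈ Icc 1 N, ((1 + s * W n) + if n ∈ R then (2 : ℝ) else 0) ≤ N + ε / 2 * N + 2 * R.card := by
    rw [sum_add_distrib, sum_add_distrib, ← mul_sum, ← sum_filter, sum_const, sum_const]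
    simp only [Nat.card_Icc, add_tsub_cancel_right, nsmul_eq_mul, mul_one]
    have b1 : s * ∑ n ∈ Icc 1 N, W n ≤ ε / 2 * N := by
      refine (le_abs_self _).trans ?_
      rw [abs_mul, hsa, one_mul]
      exact h4
    have b2 : (((Icc 1 N).filter (fun n => n ∈ R)).card : ℝ) ≤ R.card := by
      exact_mod_cast card_le_card fun n hn => (mem_filter.1 hn).2
    linarith
  have h8 := h5.trans ((sum_le_sum h6).trans h7)
  nlinarith

lemma shift_int (G : ℤ → ℝ) (hG : ∀ x, |G x| ≤ 1) (v : ℤ) (N : ℕ) :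
    |∑ n ∈ Icc 1 N, G (n + v) - ∑ n ∈ Icc 1 N, G n| ≤ 2 * |(v : ℝ)| := by
  have key : ∀ (H : ℤ → ℝ), (∀ x, |H x| ≤ 1) → ∀ r : ℕ,
      |∑ n ∈ Icc 1 N, H ((n : ℤ) + r) - ∑ n ∈ Icc 1 N, H n| ≤ 2 * r := by
    intro H hH r
    have h1 := shift_c (fun n => ((H n : ℝ) : ℂ)) (fun n => by
      rw [Complex.norm_real]
      exact hH _) r N
    rw [← Complex.ofReal_sum, ← Complex.ofReal_sum, ← Complex.ofReal_sub, Complex.norm_real,
      Real.norm_eq_abs] at h1
    push_cast at h1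
    exact h1
  rcases le_total 0 v with hv | hv
  · obtain ⟨r, rfl⟩ := Int.eq_ofNat_of_zero_le hv
    have := key G hG r
    simpa using this
  · obtain ⟨r, hr⟩ := Int.eq_ofNat_of_zero_le (show 0 ≤ -v by omega)
    have hv' : v = -(r : ℤ) := by omega
    subst hv'
    have := key (fun x => G (x + -(r : ℤ))) (fun x => hG _) r
    rw [abs_sub_comm] at this
    simp only [add_neg_cancel_right] at this
    simpa using this

/-- **arithmetic progressions**: the bound one half -/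
theorem half : ∃ E : Set ℕ, LZ E ∧ ∀ (a b c v : ℤ), a ≠ 0 → c ≠ 0 → v ≠ 0 →
    ∀ k : ℕ, 1 ≤ k → ∀ ε : ℝ, 0 < ε → ∃ N₀ : ℕ, ∀ N : ℕ, N₀ ≤ N → N ∉ E →
      |∑ n ∈ Icc 1 N, F a b c 1 v k n| ≤ (1 / 2 + ε) * N := by
  obtain ⟨E, hE, h1⟩ := master
  refine ⟨E, hE, fun a b c v ha hc hv k hk ε hε => ?_⟩
  obtain ⟨N₀, h2⟩ := h1 a b c 1 v ha hc le_rfl (by
    rw [sub_self, mul_zero]
    exact (mul_ne_zero ha hv).symm) k hk ε hε
  refine ⟨N₀ + ⌈2 * |(v : ℝ)| / ε⌉₊, fun N hN hNE => ?_⟩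
  have h3 := h2 N (by omega) hNE
  have h4 := shift_int (F a b c 1 v k) (F_abs a b c 1 v k) v N
  have e1 : ∑ n ∈ Icc 1 N, F a b c 1 v k (phi 1 v n) = ∑ n ∈ Icc 1 N, F a b c 1 v k (n + v) := by
    refine sum_congr rfl fun n _ => ?_
    unfold phi
    rw [one_mul]
  rw [e1] at h3
  have h5 : 2 * |(v : ℝ)| ≤ ε * N := by
    have b1 : (2 * |(v : ℝ)| / ε : ℝ) ≤ N := by
      refine (Nat.le_ceil _).trans ?_
      exact_mod_cast (by omega : ⌈(2 * |(v : ℝ)| / ε : ℝ)⌉₊ ≤ N)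
    rw [div_le_iff₀ hε] at b1
    linarith
  have h6 := abs_sub_abs_le_abs_sub (∑ n ∈ Icc 1 N, F a b c 1 v k n) (∑ n ∈ Icc 1 N, F a b c 1 v k (n + v))
  rw [abs_sub_comm] at h6
  linarith

/-- a sum over the multiples of `u` and the other classes -/
lemma classes (S : ℕ → ℝ) (u X : ℕ) :
    ∑ m ∈ Icc 1 (u * X), S m = ∑ N ∈ Icc 1 X, ∑ r ∈ range u, S (u * N - r) := by
  rcases Nat.eq_zero_or_pos u with hu | hu
  · subst hu
    simp
  induction X with
  | zero => simp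
  | succ X ih =>
    rw [sum_Icc_succ_top (by omega), ← ih]
    have h1 : ∑ m ∈ Icc 1 (u * (X + 1)), S m = ∑ m ∈ Icc 1 (u * X), S m + ∑ m ∈ Ioc (u * X) (u * (X + 1)), S m := by
      have : ∀ Z : ℕ, Icc 1 Z = Ioc 0 Z := by
        intro Z
        ext n
        simp only [mem_Icc, mem_Ioc]
        omega
      rw [this, this]
      exact (sum_Ioc_consecutive S (Nat.zero_le _) (Nat.mul_le_mul_left u (Nat.le_succ X))).symm
    rw [h1]
    congr 1
    refine sum_bij' (fun m _ => u * (X + 1) - m) (fun r _ => u * (X + 1) - r) ?_ ?_ ?_ ?_ ?_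
    · intro m hm
      rw [mem_Ioc] at hm
      rw [mem_range]
      have : u * (X + 1) = u * X + u := by ring
      omega
    · intro r hr
      rw [mem_range] at hr
      rw [mem_Ioc]
      have : u * (X + 1) = u * X + u := by ring
      omega
    · intro m hm
      rw [mem_Ioc] at hm
      omega
    · intro r hr
      rw [mem_range] at hr
      have : u * (X + 1) = u * X + u := by ring
      omega
    · intro m hm
      rw [mem_Ioc] at hm
      congr 1
      omega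

/-- the sum up to `u N` -/
lemma big_sum (G : ℤ → ℝ) (hG : ∀ x, |G x| ≤ 1) (u : ℕ) (hu : 1 ≤ u) (v : ℤ) : ∃ C : ℝ, 0 ≤ C ∧ ∀ N : ℕ,
    |∑ m ∈ Icc 1 (u * N), G m| ≤ |∑ n ∈ Icc 1 N, G (phi u v n)| + ((u : ℝ) - 1) * N + C := by
  set w : ℤ := -((-v) / u) with hw
  obtain ⟨r₀, hr₀⟩ := Int.eq_ofNat_of_zero_le (Int.emod_nonneg (-v) (show (u : ℤ) ≠ 0 by omega))
  have hr0u : r₀ < u := by
    have := Int.emod_lt_of_pos (-v) (show (0 : ℤ) < u by omega)
    rw [hr₀] at this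
    exact_mod_cast this
  have hv : v = u * w - r₀ := by
    have := Int.emod_add_mul_ediv (-v) u
    rw [hr₀] at this
    rw [hw]
    linarith
  refine ⟨2 * |(w : ℝ)|, by positivity, fun N => ?_⟩
  rw [classes (fun m => G m) u N, sum_comm]
  have hmem : r₀ ∈ range u := mem_range.2 hr0u
  rw [← add_sum_erase (range u) _ hmem]
  have h1 : ∑ n ∈ Icc 1 N, G ((u * n - r₀ : ℕ) : ℤ) = ∑ n ∈ Icc 1 N, (fun x : ℤ => G (u * x - r₀)) n := by
    refine sum_congr rfl fun n hn => ?_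
    rw [mem_Icc] at hn
    have : r₀ ≤ u * n := by nlinarith
    simp only []
    congr 1
    push_cast [this]
    ring
  have h2 : ∑ n ∈ Icc 1 N, G (phi u v n) = ∑ n ∈ Icc 1 N, (fun x : ℤ => G (u * x - r₀)) (n + w) := by
    refine sum_congr rfl fun n _ => ?_
    simp only []
    unfold phi
    rw [hv]
    congr 1
    ring
  have h3 := shift_int (fun x : ℤ => G (u * x - r₀)) (fun x => hG _) w N
  have h4 : |∑ r ∈ (range u).erase r₀, ∑ n ∈ Icc 1 N, G ((u * n - r : ℕ) : ℤ)| ≤ ((u : ℝ) - 1) * N := by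
    refine (abs_sum_le_sum_abs _ _).trans ?_
    have : ∀ r ∈ (range u).erase r₀, |∑ n ∈ Icc 1 N, G ((u * n - r : ℕ) : ℤ)| ≤ N := by
      intro r _
      refine (abs_sum_le_sum_abs _ _).trans ((sum_le_sum fun n _ => hG _).trans (le_of_eq ?_))
      simp
    refine (sum_le_sum this).trans (le_of_eq ?_)
    rw [sum_const, nsmul_eq_mul, card_erase_of_mem hmem, card_range, Nat.cast_sub hu, Nat.cast_one]
  have h5 := abs_sub_abs_le_abs_sub (∑ n ∈ Icc 1 N, G ((u * n - r₀ : ℕ) : ℤ)) (∑ n ∈ Icc 1 N, G (phi u v n))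
  rw [h1, h2, abs_sub_comm] at h5
  rw [h1, h2]
  refine (abs_add_le _ _).trans ?_
  linarith

lemma ratio_sq (u N r : ℕ) (hr : r < u) (hN : 2 ≤ N) :
    1 / ((u * N - r : ℕ) : ℝ) ^ 2 ≤ (1 + 8 / (N : ℝ)) / ((u : ℝ) * N) ^ 2 := by
  have hu : (0 : ℝ) < u := by exact_mod_cast (by omega : 0 < u)
  have hN0 : (2 : ℝ) ≤ N := by exact_mod_cast hN
  have h1 : u * (N - 1) ≤ u * N - r := by
    have : u * N = u * (N - 1) + u := by
      obtain ⟨M, rfl⟩ : ∃ M, N = M + 1 := ⟨N - 1, by omega⟩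
      simp
      ring
    omega
  have h2 : (u : ℝ) * (N - 1) ≤ ((u * N - r : ℕ) : ℝ) := by
    have : ((u * (N - 1) : ℕ) : ℝ) ≤ ((u * N - r : ℕ) : ℝ) := by exact_mod_cast h1
    rw [Nat.cast_mul, Nat.cast_sub (by omega), Nat.cast_one] at this
    exact this
  have h3 : (0 : ℝ) < (u : ℝ) * (N - 1) := mul_pos hu (by linarith)
  have h4 : 1 / ((u * N - r : ℕ) : ℝ) ^ 2 ≤ 1 / ((u : ℝ) * (N - 1)) ^ 2 :=
    one_div_le_one_div_of_le (pow_pos h3 2) (pow_le_pow_left₀ h3.le h2 2)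
  refine h4.trans ?_
  rw [div_le_div_iff₀ (pow_pos h3 2) (by positivity), mul_pow, mul_pow]
  have h5 : (N : ℝ) ^ 2 ≤ (1 + 8 / (N : ℝ)) * (N - 1) ^ 2 := by
    have h6 : (1 + 8 / (N : ℝ)) * (N - 1) ^ 2 = ((N + 8) * (N - 1) ^ 2) / N := by
      field_simp
    rw [h6, le_div_iff₀ (by linarith)]
    nlinarith [mul_nonneg (show (0 : ℝ) ≤ N - 2 by linarith) (show (0 : ℝ) ≤ N by linarith),
      mul_nonneg (mul_nonneg (show (0 : ℝ) ≤ N - 2 by linarith) (show (0 : ℝ) ≤ N - 2 by linarith))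
        (show (0 : ℝ) ≤ N by linarith)]
  nlinarith [sq_nonneg (u : ℝ)]

/-- one block of the sum -/
lemma block (S : ℕ → ℝ) (hS0 : ∀ m, 0 ≤ S m) (hS1 : ∀ m, S m ≤ m) (hS2 : ∀ m r, S m ≤ S (m + r) + r)
    (u N : ℕ) (hu : 1 ≤ u) (hN : 1 ≤ N) :
    ∑ r ∈ range u, S (u * N - r) / ((u * N - r : ℕ) : ℝ) ^ 2 ≤
      1 / (u : ℝ) * (S (u * N) / (N : ℝ) ^ 2) + (17 + u) / (N : ℝ) ^ 2 := by
  have hu0 : (0 : ℝ) < u := by exact_mod_cast hu
  have hN0 : (0 : ℝ) < N := by exact_mod_cast hN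
  rcases Nat.lt_or_ge N 2 with h1 | h1
  · have : N = 1 := by omega
    subst this
    have h2 : ∀ r ∈ range u, S (u * 1 - r) / ((u * 1 - r : ℕ) : ℝ) ^ 2 ≤ 1 := by
      intro r hr
      rw [mem_range] at hr
      have h3 : (1 : ℝ) ≤ ((u * 1 - r : ℕ) : ℝ) := by exact_mod_cast (by omega : 1 ≤ u * 1 - r)
      rw [div_le_one (by positivity)]
      refine (hS1 _).trans ?_
      nlinarith
    refine (sum_le_sum h2).trans ?_
    rw [sum_const, card_range, nsmul_eq_mul, mul_one]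
    have h3 : 0 ≤ 1 / (u : ℝ) * (S (u * 1) / ((1 : ℕ) : ℝ) ^ 2) :=
      mul_nonneg (by positivity) (div_nonneg (hS0 _) (by positivity))
    push_cast
    have h4 : (17 + (u : ℝ)) / 1 ^ 2 = 17 + u := by norm_num
    rw [h4]
    push_cast at h3
    linarith
  · have hN2 : (2 : ℝ) ≤ N := by exact_mod_cast h1
    have h2 : ∀ r ∈ range u, S (u * N - r) / ((u * N - r : ℕ) : ℝ) ^ 2 ≤
        S (u * N) / ((u : ℝ) * N) ^ 2 + 17 * u / ((u : ℝ) * N) ^ 2 := by
      intro r hr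
      rw [mem_range] at hr
      have h3 := ratio_sq u N r hr h1
      have hrN : r ≤ u * N := by nlinarith
      have h4 : S (u * N - r) ≤ S (u * N) + u := by
        have := hS2 (u * N - r) r
        rw [Nat.sub_add_cancel hrN] at this
        have h5 : (r : ℝ) ≤ u := by exact_mod_cast hr.le
        linarith
      have h6 : S (u * N) ≤ u * N := by
        have := hS1 (u * N)
        push_cast at this
        exact this
      have h7 : 8 / (N : ℝ) * S (u * N) ≤ 8 * u := by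
        rw [div_mul_eq_mul_div, div_le_iff₀ hN0]
        nlinarith
      have h8 : 8 / (N : ℝ) ≤ 8 := by
        rw [div_le_iff₀ hN0]
        linarith
      calc S (u * N - r) / ((u * N - r : ℕ) : ℝ) ^ 2 = S (u * N - r) * (1 / ((u * N - r : ℕ) : ℝ) ^ 2) := by ring
        _ ≤ (S (u * N) + u) * ((1 + 8 / (N : ℝ)) / ((u : ℝ) * N) ^ 2) :=
            mul_le_mul h4 h3 (by positivity) (by have := hS0 (u * N); positivity)
        _ = (S (u * N) + u + 8 / (N : ℝ) * S (u * N) + 8 / (N : ℝ) * u) / ((u : ℝ) * N) ^ 2 := by ring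
        _ ≤ (S (u * N) + 17 * u) / ((u : ℝ) * N) ^ 2 := by
            refine div_le_div_of_nonneg_right ?_ (by positivity)
            nlinarith
        _ = _ := by rw [add_div]
    refine (sum_le_sum h2).trans ?_
    rw [sum_const, card_range, nsmul_eq_mul]
    have h3 : (u : ℝ) * (S (u * N) / ((u : ℝ) * N) ^ 2 + 17 * u / ((u : ℝ) * N) ^ 2) =
        1 / (u : ℝ) * (S (u * N) / (N : ℝ) ^ 2) + 17 / (N : ℝ) ^ 2 := by
      field_simp
    rw [h3]
    have h4 : (17 : ℝ) / (N : ℝ) ^ 2 ≤ (17 + u) / (N : ℝ) ^ 2 :=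
      div_le_div_of_nonneg_right (by linarith) (by positivity)
    linarith

open Classical in
/-- **the logarithmic mean over the scales** -/
theorem logmean (a b c u v : ℤ) (ha : a ≠ 0) (hc : c ≠ 0) (hu : 1 ≤ u) (hne : b * (u - 1) ≠ a * v)
    (k : ℕ) (hk : 1 ≤ k) (ε : ℝ) (hε : 0 < ε) : ∃ X₀ : ℕ, ∀ X : ℕ, X₀ ≤ X →
      ∑ N ∈ Icc 1 X, |∑ n ∈ Icc 1 N, F a b c u v k n| / (N : ℝ) ^ 2 ≤ (u / (u + 1) + ε) * Real.log X := by
  obtain ⟨E, hE, h1⟩ := master
  obtain ⟨U, rfl⟩ := Int.eq_ofNat_of_zero_le (show 0 ≤ u by omega)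
  obtain ⟨N₀, h2⟩ := h1 a b c U v ha hc hu hne k hk (ε / 4) (by positivity)
  have hU1 : 1 ≤ U := by exact_mod_cast hu
  have hU1' : (1 : ℝ) ≤ U := by exact_mod_cast hU1
  obtain ⟨C, hC0, hC⟩ := big_sum (F a b c U v k) (F_abs a b c U v k) U hU1 v
  obtain ⟨T, hT⟩ : ∃ T : Set ℕ, T = E ∪ {N | N < N₀} := ⟨_, rfl⟩
  have hTL : LZ T := by
    rw [hT]
    exact Pool.Agent.Y842.EL.LZ_union hE (Pool.Agent.Y958.U.LZ_bdd _ N₀ fun n hn => hn)
  have hlog : Tendsto (fun X : ℕ => Real.log X) atTop atTop :=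
    Real.tendsto_log_atTop.comp tendsto_natCast_atTop_atTop
  have h3 := hTL.eventually (ge_mem_nhds (show (0 : ℝ) < ε / 4 by positivity))
  set D : ℝ := U + ε / 4 + 2 * C + 2 * U * (17 + U) with hD
  have hD0 : 0 < D := by positivity
  obtain ⟨X₀, hX₀⟩ := eventually_atTop.1 (h3.and ((hlog.eventually_ge_atTop (4 * D / ε)).and
    (hlog.eventually_gt_atTop 0)))
  refine ⟨X₀, fun X hX => ?_⟩
  obtain ⟨b1, b2, b3⟩ := hX₀ X hX
  rw [div_le_iff₀ b3] at b1
  rw [div_le_iff₀ hε] at b2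
  set S : ℕ → ℝ := fun m => |∑ n ∈ Icc 1 m, F a b c U v k n| with hS
  have hS0 : ∀ m, 0 ≤ S m := fun m => abs_nonneg _
  have hF : ∀ m : ℕ, |∑ n ∈ Icc 1 m, F a b c U v k n| ≤ m := by
    intro m
    refine (abs_sum_le_sum_abs _ _).trans ((sum_le_sum fun n _ => F_abs _ _ _ _ _ _ _).trans (le_of_eq ?_))
    simp
  have hF' : ∀ m : ℕ, |∑ n ∈ Icc 1 m, F a b c U v k (phi U v n)| ≤ m := by
    intro m
    refine (abs_sum_le_sum_abs _ _).trans ((sum_le_sum fun n _ => F_abs _ _ _ _ _ _ _).trans (le_of_eq ?_))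
    simp
  have hS2 : ∀ m r, S m ≤ S (m + r) + r := by
    intro m r
    rw [hS]
    simp only []
    have e1 : ∑ n ∈ Icc 1 (m + r), F a b c U v k n = ∑ n ∈ Icc 1 m, F a b c U v k n +
        ∑ n ∈ Ioc m (m + r), F a b c U v k n := by
      have : ∀ Z : ℕ, Icc 1 Z = Ioc 0 Z := by
        intro Z
        ext n
        simp only [mem_Icc, mem_Ioc]
        omega
      rw [this, this]
      exact (sum_Ioc_consecutive _ (Nat.zero_le _) (Nat.le_add_right m r)).symm
    have e2 : |∑ n ∈ Ioc m (m + r), F a b c U v k n| ≤ r := by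
      refine (abs_sum_le_sum_abs _ _).trans ((sum_le_sum fun n _ => F_abs _ _ _ _ _ _ _).trans (le_of_eq ?_))
      simp
    rw [e1]
    have e3 := abs_sub_abs_le_abs_sub (∑ n ∈ Icc 1 m, F a b c U v k n)
      (∑ n ∈ Icc 1 m, F a b c U v k n + ∑ n ∈ Ioc m (m + r), F a b c U v k n)
    rw [sub_add_cancel_left, abs_neg] at e3
    linarith
  -- step 1
  have s1 : ∀ N ∈ Icc 1 X, S (U * N) / (N : ℝ) ^ 2 + S N / (N : ℝ) ^ 2 ≤
      (U + ε / 4) * (1 / (N : ℝ)) + C * (1 / (N : ℝ) ^ 2) + if N ∈ T then (1 : ℝ) / N else 0 := by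
    intro N hN
    rw [mem_Icc] at hN
    have hN0 : (0 : ℝ) < N := by exact_mod_cast (by omega : 0 < N)
    have c1 : S (U * N) ≤ |∑ n ∈ Icc 1 N, F a b c U v k (phi U v n)| + ((U : ℝ) - 1) * N + C := by
      exact hC N
    have c2 : S N + |∑ n ∈ Icc 1 N, F a b c U v k (phi U v n)| ≤
        (1 + ε / 4) * N + if N ∈ T then (N : ℝ) else 0 := by
      by_cases hNT : N ∈ T
      · rw [if_pos hNT]
        have d1 := hF N
        have d2 := hF' N
        have d3 : (0 : ℝ) ≤ ε / 4 * N := by positivity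
        rw [hS]
        simp only []
        linarith
      · rw [if_neg hNT, add_zero]
        rw [hT] at hNT
        exact h2 N (by
          by_contra hcc
          exact hNT (Or.inr (not_le.1 hcc))) (fun hh => hNT (Or.inl hh))
    have c3 : S (U * N) + S N ≤ (U + ε / 4) * N + C + if N ∈ T then (N : ℝ) else 0 := by linarith
    rw [← add_div, div_le_iff₀ (by positivity)]
    refine c3.trans (le_of_eq ?_)
    split_ifs
    · field_simp
    · field_simp
      ring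
  have s2 := sum_le_sum s1
  rw [sum_add_distrib, sum_add_distrib, sum_add_distrib, ← mul_sum, ← mul_sum] at s2
  have s3 := harmonic_c X
  have s4 := tail_sq 1 X le_rfl
  -- step 2
  have s5 : ∑ M ∈ Icc 1 X, S M / (M : ℝ) ^ 2 ≤
      1 / (U : ℝ) * (∑ N ∈ Icc 1 X, S (U * N) / (N : ℝ) ^ 2) + (17 + U) * ∑ N ∈ Icc 1 X, 1 / (N : ℝ) ^ 2 := by
    have c1 : ∑ M ∈ Icc 1 X, S M / (M : ℝ) ^ 2 ≤ ∑ M ∈ Icc 1 (U * X), S M / (M : ℝ) ^ 2 := by
      refine sum_le_sum_of_subset_of_nonneg (fun n hn => ?_) fun n _ _ => div_nonneg (hS0 _) (by positivity)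
      rw [mem_Icc] at hn ⊢
      exact ⟨hn.1, hn.2.trans (Nat.le_mul_of_pos_left X hU1)⟩
    refine c1.trans ?_
    rw [classes (fun M => S M / (M : ℝ) ^ 2) U X, mul_sum, mul_sum, ← sum_add_distrib]
    refine sum_le_sum fun N hN => ?_
    rw [mem_Icc] at hN
    refine (block S hS0 hF hS2 U N hU1 hN.1).trans (le_of_eq ?_)
    ring
  set A : ℝ := ∑ M ∈ Icc 1 X, S M / (M : ℝ) ^ 2 with hA
  set B : ℝ := ∑ N ∈ Icc 1 X, S (U * N) / (N : ℝ) ^ 2 with hB
  have hU0 : (0 : ℝ) < U := by linarith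
  have s6 : (U : ℝ) * A ≤ B + 2 * U * (17 + U) := by
    have c1 : (U : ℝ) * A ≤ U * (1 / (U : ℝ) * B + (17 + U) * 2) := by
      refine mul_le_mul_of_nonneg_left (s5.trans ?_) hU0.le
      have : (17 + (U : ℝ)) * ∑ N ∈ Icc 1 X, 1 / (N : ℝ) ^ 2 ≤ (17 + U) * 2 :=
        mul_le_mul_of_nonneg_left (by simpa using s4) (by positivity)
      linarith
    refine c1.trans (le_of_eq ?_)
    field_simp
  have s7 : B + A ≤ (U + ε / 4) * (1 + Real.log X) + C * 2 + ε / 4 * Real.log X := by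
    refine s2.trans ?_
    have c1 : ((U : ℝ) + ε / 4) * ∑ i ∈ Icc 1 X, 1 / (i : ℝ) ≤ (U + ε / 4) * (1 + Real.log X) :=
      mul_le_mul_of_nonneg_left s3 (by positivity)
    have c2 : C * ∑ i ∈ Icc 1 X, 1 / (i : ℝ) ^ 2 ≤ C * 2 :=
      mul_le_mul_of_nonneg_left (by simpa using s4) hC0
    linarith
  have hur : (((U : ℤ)) : ℝ) = U := by simp
  have s8 : (U + 1 : ℝ) * A ≤ (U + ε) * Real.log X := by
    have : (U + 1 : ℝ) * A ≤ (U + ε / 4) * Real.log X + ε / 4 * Real.log X + D := by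
      rw [hD]
      linarith
    linarith
  show A ≤ _
  rw [hur]
  have s9 : A ≤ (U + ε) * Real.log X / (U + 1) := by
    rw [le_div_iff₀ (by positivity)]
    linarith
  refine s9.trans ?_
  have s10 : (U + ε) * Real.log X / (U + 1 : ℝ) = (U / (U + 1)) * Real.log X + ε / (U + 1) * Real.log X := by ring
  rw [s10, add_mul]
  have s11 : ε / (U + 1 : ℝ) ≤ ε := div_le_self hε.le (by linarith)
  have := mul_le_mul_of_nonneg_right s11 b3.le
  linarith

end Pool.Agent.Q42.SH.Orb
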