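import Pool.Agent.Q42.SH.SarnakS

/-!
Library Q42.SH (helper42), part 12: systems with singular spectrum.
-/

set_option autoImplicit false

open Finset MeasureTheory Filter BoundedContinuousFunction

namespace Pool.Agent.Q42.SH

open Pool.Agent.Helper602.MK (ee)
open Pool.Agent.Helper602.MK.N_J1c (c_ee_add c_ee_int c_norm_ee)

lemma shift_R (g : ℕ → ℝ) (M : ℝ) (hg : ∀ n, |g n| ≤ M) (N : ℕ) :
    |∑ n ∈ Icc 1 N, g (n + 1) - ∑ n ∈ Icc 1 N, g n| ≤ 2 * M := by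
  have h1 := shift_M (fun n => ((g n : ℝ) : ℂ)) M (fun n => by
    rw [Complex.norm_real]
    exact hg n) 1 N
  rw [← Complex.ofReal_sum, ← Complex.ofReal_sum, ← Complex.ofReal_sub, Complex.norm_real,
    Real.norm_eq_abs] at h1
  simpa using h1

/-- **systems with singular spectrum**: uniformly in the point and in the phase -/
theorem sarnak_sing {X : Type*} [MetricSpace X] [CompactSpace X] [MeasurableSpace X] [BorelSpace X]
    (u : ℕ → ℂ) (hu : ∀ n, ‖u n‖ ≤ 1) (E : Set ℕ)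
    (hB : ∀ K : ℕ, ∃ N₀ : ℕ, ∀ N : ℕ, N₀ ≤ N → N ∉ E → ∀ (ζ : ℕ → ℂ) (α : ℕ → ℝ),
      ∑ a ∈ range (2 * K + 1), ‖∑ n ∈ Icc 1 N, u (n + a) * ζ n * ee (α a * n)‖ ^ 2 ≤
        2 * N * ∑ n ∈ Icc 1 N, ‖ζ n‖ ^ 2)
    (T : X → X) (hT : Continuous T) (f : C(X, ℂ))
    (hs : ∀ ν : Measure X, IsProbabilityMeasure ν → MeasurePreserving T ν ν → Spec ν T f)
    (ε : ℝ) (hε : 0 < ε) : ∃ N₀ : ℕ, ∀ N : ℕ, N₀ ≤ N → N ∉ E → ∀ (x : X) (α : ℝ),
      ‖∑ n ∈ Icc 1 N, u n * f (T^[n] x) * ee (α * n)‖ ≤ ε * N := by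
  classical
  by_contra hcon
  push Not at hcon
  set Bd : Set ℕ := {N | N ∉ E ∧ ∃ (x : X) (α : ℝ), ε * N < ‖∑ n ∈ Icc 1 N, u n * f (T^[n] x) * ee (α * n)‖}
    with hBd
  have hfreq : ∃ᶠ N in atTop, N ∈ Bd := by
    rw [frequently_atTop]
    intro N₀
    obtain ⟨N, h1, h2, x, α, h3⟩ := hcon N₀
    exact ⟨N, h1, h2, x, α, h3⟩
  have hne : (atTop ⊓ 𝓟 Bd : Filter ℕ).NeBot := frequently_mem_iff_neBot.1 hfreq
  obtain ⟨x₀⟩ : Nonempty X := by
    obtain ⟨N, _, x, _⟩ := hfreq.exists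
    exact ⟨x⟩
  obtain ⟨xs, hxs⟩ : ∃ xs : ℕ → X, ∀ N ∈ Bd, ∃ α : ℝ,
      ε * N < ‖∑ n ∈ Icc 1 N, u n * f (T^[n] (xs N)) * ee (α * n)‖ := by
    have : ∀ N : ℕ, ∃ x : X, N ∈ Bd → ∃ α : ℝ, ε * N < ‖∑ n ∈ Icc 1 N, u n * f (T^[n] x) * ee (α * n)‖ := by
      intro N
      by_cases h : N ∈ Bd
      · obtain ⟨_, x, hx⟩ := h
        exact ⟨x, fun _ => hx⟩
      · exact ⟨x₀, fun hh => absurd hh h⟩
    choose xs hxs using this
    exact ⟨xs, hxs⟩
  set U : Ultrafilter ℕ := Ultrafilter.of (atTop ⊓ 𝓟 Bd) with hU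
  have hUle : (U : Filter ℕ) ≤ atTop ⊓ 𝓟 Bd := Ultrafilter.of_le _
  have hU1 : (U : Filter ℕ) ≤ atTop := hUle.trans inf_le_left
  have hU2 : ∀ᶠ N in (U : Filter ℕ), N ∈ Bd := hUle (mem_inf_of_right (mem_principal_self Bd))
  set νs : ℕ → ProbabilityMeasure X := fun N => ⟨emp T (xs N) N, emp_prob T (xs N) N⟩ with hνs
  set ν : ProbabilityMeasure X := (U.map νs).lim with hν
  have hlim : Tendsto νs (U : Filter ℕ) (nhds ν) := (U.map νs).le_nhds_lim
  have hint : ∀ g : X →ᵇ ℝ, Tendsto (fun N => ∫ y, g y ∂(emp T (xs N) N)) (U : Filter ℕ)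
      (nhds (∫ y, g y ∂(ν : Measure X))) :=
    ProbabilityMeasure.tendsto_iff_forall_integral_tendsto.1 hlim
  -- the limit is invariant
  have hinv : MeasurePreserving T (ν : Measure X) (ν : Measure X) := by
    refine ⟨hT.measurable, ?_⟩
    have : IsProbabilityMeasure (Measure.map T (ν : Measure X)) :=
      Measure.isProbabilityMeasure_map hT.measurable.aemeasurable
    refine ext_of_forall_integral_eq_of_IsFiniteMeasure fun g => ?_
    rw [integral_map hT.measurable.aemeasurable g.continuous.aestronglyMeasurable]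
    have h1 := hint (g.compContinuous ⟨T, hT⟩)
    have h2 := hint g
    have h3 : Tendsto (fun N => ∫ y, g (T y) ∂(emp T (xs N) N) - ∫ y, g y ∂(emp T (xs N) N))
        (U : Filter ℕ) (nhds 0) := by
      have h4 : Tendsto (fun N : ℕ => 2 * ‖g‖ / (N : ℝ)) (U : Filter ℕ) (nhds 0) :=
        (tendsto_const_div_atTop_nhds_zero_nat (2 * ‖g‖)).mono_left hU1
      refine squeeze_zero_norm' ?_ h4
      filter_upwards [hU1 (eventually_ge_atTop 1)] with N hN
      rw [emp_int T (xs N) N hN (fun y => g (T y)) (g.continuous.comp hT),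
        emp_int T (xs N) N hN g g.continuous, ← sub_div, norm_div, Real.norm_natCast]
      refine div_le_div_of_nonneg_right ?_ (Nat.cast_nonneg N)
      rw [Real.norm_eq_abs]
      have h5 := shift_R (fun n => g (T^[n] (xs N))) ‖g‖ (fun n => g.norm_coe_le_norm _) N
      refine le_trans (le_of_eq ?_) h5
      congr 2
      refine sum_congr rfl fun n _ => ?_
      rw [Function.iterate_succ_apply']
    have h6 := h1.sub h2
    exact sub_eq_zero.1 (tendsto_nhds_unique h6 h3)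
  obtain ⟨σ, hσf, hσs, hσ⟩ := hs ν inferInstance hinv
  set M : ℝ := ‖f‖ with hM
  have hM0 : 0 ≤ M := norm_nonneg _
  have s2 : (0 : ℝ) < √2 := Real.sqrt_pos.2 (by norm_num)
  set r : ℝ := ε / (4 * (√2 * (M + 1))) with hr
  have hr0 : 0 < r := by positivity
  obtain ⟨S, c, hc1, hc2⟩ := sing_poly σ hσs (r ^ 2) (by positivity)
  set K : ℕ := ∑ h ∈ S, h.natAbs with hK
  have hKS : ∀ h ∈ S, |h| ≤ K := by
    intro h hh
    have := single_le_sum (f := fun h : ℤ => h.natAbs) (fun _ _ => Nat.zero_le _) hh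
    rw [Int.abs_eq_natAbs]
    exact_mod_cast this
  -- the continuous function
  set G : X → ℝ := fun y => ‖∑ h ∈ S, c h * f (T^[(K + h).toNat] y) - f (T^[K] y)‖ ^ 2 with hG
  have hGc : Continuous G := by
    rw [hG]
    refine (Continuous.norm ?_).pow 2
    refine Continuous.sub ?_ (f.continuous.comp (hT.iterate K))
    exact continuous_finsetSum _ fun h _ => continuous_const.mul (f.continuous.comp (hT.iterate _))
  have hGν : ∫ y, G y ∂(ν : Measure X) ≤ r ^ 2 := by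
    have := spec_id (ν : Measure X) T hT hinv f σ hσ K S hKS c
    rw [hG]
    simp only []
    rw [this]
    exact hc2
  have hGt := hint (BoundedContinuousFunction.mkOfCompact ⟨G, hGc⟩)
  have hev : ∀ᶠ N in (U : Filter ℕ), ∫ y, G y ∂(emp T (xs N) N) < 2 * r ^ 2 := by
    refine hGt.eventually_lt_const ?_
    have : (0 : ℝ) < r ^ 2 := by positivity
    have h7 : ∫ y, (BoundedContinuousFunction.mkOfCompact ⟨G, hGc⟩) y ∂(ν : Measure X) ≤ r ^ 2 := hGν
    linarith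
  obtain ⟨N₀, hN₀⟩ := hB K
  set N₁ : ℕ := ⌈2 * K * M * (1 + ∑ h ∈ S, ‖c h‖) / (ε / 2)⌉₊ with hN₁
  have hv3 : ∀ᶠ N in (U : Filter ℕ), N₀ + 1 ≤ N := hU1 (eventually_ge_atTop (N₀ + 1))
  have hv4 : ∀ᶠ N in (U : Filter ℕ), N₁ ≤ N := hU1 (eventually_ge_atTop N₁)
  obtain ⟨N, hN1, hN2, hN3, hN4⟩ := (hU2.and (hev.and (hv3.and hv4))).exists
  have hNpos : 1 ≤ N := le_trans (Nat.le_add_left 1 N₀) hN3
  have hN0 : (0 : ℝ) < N := by exact_mod_cast hNpos
  obtain ⟨α, hα⟩ := hxs N hN1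
  rw [emp_int T (xs N) N hNpos G hGc, div_lt_iff₀ hN0] at hN2
  have hcore := seq_core u hu N K S c hKS M (fun n => f (T^[n] (xs N))) (fun n => f.norm_coe_le_norm _)
    2 (by norm_num) (hN₀ N (le_trans (Nat.le_succ N₀) hN3) hN1.1) (2 * r ^ 2) (by positivity) (by
      refine le_trans (le_of_eq ?_) hN2.le
      refine sum_congr rfl fun n _ => ?_
      rw [hG]
      simp only []
      have e1 : ∀ b : ℕ, T^[n + b] (xs N) = T^[b] (T^[n] (xs N)) := by
        intro b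
        rw [add_comm, Function.iterate_add_apply]
      simp_rw [e1]) α
  have h8 : 2 * K * M * (1 + ∑ h ∈ S, ‖c h‖) ≤ ε / 2 * N := by
    have a1 : 2 * K * M * (1 + ∑ h ∈ S, ‖c h‖) / (ε / 2) ≤ (N : ℝ) :=
      (Nat.le_ceil _).trans (Nat.cast_le.2 hN4)
    rw [div_le_iff₀ (by positivity)] at a1
    linarith
  have h9 : √(∑ h ∈ S, ‖c h‖ ^ 2) * √2 * M + √(2 * r ^ 2) ≤ ε / 4 := by
    have a1 : √(∑ h ∈ S, ‖c h‖ ^ 2) ≤ r := by
      rw [Real.sqrt_le_left hr0.le]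
      exact hc1
    have a2 : √(2 * r ^ 2) = √2 * r := by
      rw [Real.sqrt_mul (by norm_num), Real.sqrt_sq hr0.le]
    rw [a2]
    calc √(∑ h ∈ S, ‖c h‖ ^ 2) * √2 * M + √2 * r ≤ r * √2 * M + √2 * r := by
          have : √(∑ h ∈ S, ‖c h‖ ^ 2) * √2 * M ≤ r * √2 * M :=
            mul_le_mul_of_nonneg_right (mul_le_mul_of_nonneg_right a1 s2.le) hM0
          linarith
      _ = r * (√2 * (M + 1)) := by ring
      _ = ε / 4 := by
          rw [hr]
          field_simp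
  have h10 : (√(∑ h ∈ S, ‖c h‖ ^ 2) * √2 * M + √(2 * r ^ 2)) * N ≤ ε / 4 * N :=
    mul_le_mul_of_nonneg_right h9 hN0.le
  have h11 : 0 < ε * N := by positivity
  linarith

end Pool.Agent.Q42.SH
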