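import Pool.Agent.Q42.SH.SarnakL

/-!
Library Q42.SH (helper42), part 16: systems with singular spectrum, moving points.
-/

set_option autoImplicit false

open Finset MeasureTheory Filter BoundedContinuousFunction

namespace Pool.Agent.Q42.SH

open Pool.Agent.Helper602.MK (ee)
open Pool.Agent.Helper602.MK.N_J1c (c_ee_add c_ee_int c_norm_ee)

open Classical in
/-- the empirical measure of a sequence of points -/
noncomputable def empS {X : Type*} [MeasurableSpace X] (x : ℕ → X) (N : ℕ) : Measure X :=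
  if N = 0 then Measure.dirac (x 0) else ((N : ENNReal)⁻¹) • ∑ n ∈ Icc 1 N, Measure.dirac (x n)

lemma empS_prob {X : Type*} [MeasurableSpace X] (x : ℕ → X) (N : ℕ) : IsProbabilityMeasure (empS x N) := by
  unfold empS
  split_ifs with h
  · infer_instance
  · constructor
    rw [Measure.smul_apply, Measure.finsetSum_apply]
    simp only [measure_univ, sum_const, Nat.card_Icc, add_tsub_cancel_right, smul_eq_mul, nsmul_eq_mul, mul_one]
    exact ENNReal.inv_mul_cancel (by exact_mod_cast h) (ENNReal.natCast_ne_top N)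

lemma empS_int {X : Type*} [TopologicalSpace X] [CompactSpace X] [MeasurableSpace X] [BorelSpace X]
    (x : ℕ → X) (N : ℕ) (hN : 1 ≤ N) (g : X → ℝ) (hg : Continuous g) :
    ∫ y, g y ∂(empS x N) = (∑ n ∈ Icc 1 N, g (x n)) / N := by
  unfold empS
  rw [if_neg (by omega), integral_smul_measure, integral_finsetSum_measure]
  · have : ∀ n ∈ Icc 1 N, ∫ y, g y ∂(Measure.dirac (x n)) = g (x n) := fun n _ =>
      integral_dirac' _ _ hg.stronglyMeasurable
    rw [sum_congr rfl this]
    simp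
    ring
  · intro n _
    exact (BoundedContinuousFunction.mkOfCompact ⟨g, hg⟩).integrable _

/-- the place `n` is not a break -/
def Cont {X : Type*} (T : X → X) (x : ℕ → X) (c : ℕ → ℂ) (n : ℕ) : Prop := x (n + 1) = T (x n) ∧ c (n + 1) = c n

open Classical in
/-- the breaks up to `N` -/
noncomputable def brk {X : Type*} (T : X → X) (x : ℕ → X) (c : ℕ → ℂ) (N : ℕ) : Finset ℕ :=
  (Icc 1 N).filter (fun n => ¬ Cont T x c n)

lemma cont_iter {X : Type*} (T : X → X) (x : ℕ → X) (c : ℕ → ℂ) (n K : ℕ)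
    (h : ∀ b < K, Cont T x c (n + b)) : ∀ b ≤ K, x (n + b) = T^[b] (x n) ∧ c (n + b) = c n := by
  intro b
  induction b with
  | zero => intro _; simp
  | succ b ih =>
    intro hb
    have h1 := ih (by omega)
    have h2 := h b (by omega)
    refine ⟨?_, ?_⟩
    · rw [← add_assoc, h2.1, h1.1, Function.iterate_succ_apply']
    · rw [← add_assoc, h2.2, h1.2]

open Classical in
lemma bad_card {X : Type*} (T : X → X) (x : ℕ → X) (c : ℕ → ℂ) (N K : ℕ) :
    ((Icc 1 N).filter (fun n => ¬ ∀ b < K, Cont T x c (n + b))).card ≤ K * (brk T x c N).card + K := by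
  have h1 : (Icc 1 N).filter (fun n => ¬ ∀ b < K, Cont T x c (n + b)) ⊆
      ((range K).biUnion fun b => (Icc 1 N).filter (fun n => n + b ∈ brk T x c N)) ∪
        (Icc 1 N).filter (fun n => N < n + K) := by
    intro n hn
    rw [mem_filter] at hn
    obtain ⟨hn1, hn2⟩ := hn
    push Not at hn2
    obtain ⟨b, hb, hbn⟩ := hn2
    rw [mem_union]
    by_cases hN : N < n + K
    · right
      exact mem_filter.2 ⟨hn1, hN⟩
    · left
      rw [mem_biUnion]
      refine ⟨b, mem_range.2 hb, mem_filter.2 ⟨hn1, ?_⟩⟩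
      unfold brk
      rw [mem_filter, mem_Icc]
      rw [mem_Icc] at hn1
      exact ⟨⟨by omega, by omega⟩, hbn⟩
  refine (card_le_card h1).trans ((card_union_le _ _).trans (add_le_add ?_ ?_))
  · refine card_biUnion_le.trans ?_
    calc ∑ b ∈ range K, ((Icc 1 N).filter (fun n => n + b ∈ brk T x c N)).card ≤
          ∑ b ∈ range K, (brk T x c N).card := by
          refine sum_le_sum fun b _ => ?_
          refine card_le_card_of_injOn (fun n => n + b) (fun n hn => ?_) (fun n _ m _ h => ?_)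
          · rw [mem_coe, mem_filter] at hn
            exact hn.2
          · exact Nat.add_right_cancel h
      _ = K * (brk T x c N).card := by rw [sum_const, card_range, smul_eq_mul]
  · have h2 : (Icc 1 N).filter (fun n => N < n + K) ⊆ Ioc (N - K) N := by
      intro n hn
      rw [mem_filter, mem_Icc] at hn
      rw [mem_Ioc]
      omega
    refine (card_le_card h2).trans ?_
    rw [Nat.card_Ioc]
    omega

/-- **systems with singular spectrum, moving points** -/
theorem sarnak_move {X : Type*} [MetricSpace X] [CompactSpace X] [MeasurableSpace X] [BorelSpace X]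
    (u : ℕ → ℂ) (hu : ∀ n, ‖u n‖ ≤ 1) (E : Set ℕ)
    (hB : ∀ K : ℕ, ∃ N₀ : ℕ, ∀ N : ℕ, N₀ ≤ N → N ∉ E → ∀ (ζ : ℕ → ℂ) (α : ℕ → ℝ),
      ∑ a ∈ range (2 * K + 1), ‖∑ n ∈ Icc 1 N, u (n + a) * ζ n * ee (α a * n)‖ ^ 2 ≤
        2 * N * ∑ n ∈ Icc 1 N, ‖ζ n‖ ^ 2)
    (T : X → X) (hT : Continuous T) (f : C(X, ℂ))
    (hs : ∀ ν : Measure X, IsProbabilityMeasure ν → MeasurePreserving T ν ν → Spec ν T f)
    (ε : ℝ) (hε : 0 < ε) : ∃ H₀ : ℕ, ∀ N : ℕ, H₀ ≤ N → N ∉ E → ∀ (x : ℕ → X) (c : ℕ → ℂ),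
      (∀ n, ‖c n‖ ≤ 1) → (brk T x c N).card * H₀ ≤ N → ∀ α : ℝ,
      ‖∑ n ∈ Icc 1 N, u n * (c n * f (x n)) * ee (α * n)‖ ≤ ε * N := by
  classical
  by_contra hcon
  push Not at hcon
  choose Ns hN1 hN2 xs cs hc1 hbr αs hlarge using hcon
  set U : Ultrafilter ℕ := Ultrafilter.of atTop with hU
  have hU1 : (U : Filter ℕ) ≤ atTop := Ultrafilter.of_le _
  set νs : ℕ → ProbabilityMeasure X := fun k => ⟨empS (xs k) (Ns k), empS_prob (xs k) (Ns k)⟩ with hνs
  haveI hXne : Nonempty (ProbabilityMeasure X) := ⟨νs 0⟩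
  set ν : ProbabilityMeasure X := (U.map νs).lim with hν
  have hlim : Tendsto νs (U : Filter ℕ) (nhds ν) := (U.map νs).le_nhds_lim
  have hint : ∀ g : X →ᵇ ℝ, Tendsto (fun k => ∫ y, g y ∂(empS (xs k) (Ns k))) (U : Filter ℕ)
      (nhds (∫ y, g y ∂(ν : Measure X))) :=
    ProbabilityMeasure.tendsto_iff_forall_integral_tendsto.1 hlim
  -- the breaks
  have hbk : ∀ k : ℕ, 1 ≤ k → ((brk T (xs k) (cs k) (Ns k)).card : ℝ) ≤ Ns k / k := by
    intro k hk
    have hk0 : (0 : ℝ) < k := by exact_mod_cast hk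
    rw [le_div_iff₀ hk0]
    exact_mod_cast hbr k
  -- the limit is invariant
  have hinv : MeasurePreserving T (ν : Measure X) (ν : Measure X) := by
    refine ⟨hT.measurable, ?_⟩
    have : IsProbabilityMeasure (Measure.map T (ν : Measure X)) :=
      Measure.isProbabilityMeasure_map hT.measurable.aemeasurable
    refine ext_of_forall_integral_eq_of_IsFiniteMeasure fun g => ?_
    rw [integral_map hT.measurable.aemeasurable g.continuous.aestronglyMeasurable]
    have h1 := hint (g.compContinuous ⟨T, hT⟩)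
    have h2 := hint g
    have h3 : Tendsto (fun k => ∫ y, g (T y) ∂(empS (xs k) (Ns k)) - ∫ y, g y ∂(empS (xs k) (Ns k)))
        (U : Filter ℕ) (nhds 0) := by
      have h4 : Tendsto (fun k : ℕ => 4 * ‖g‖ / (k : ℝ)) (U : Filter ℕ) (nhds 0) :=
        (tendsto_const_div_atTop_nhds_zero_nat (4 * ‖g‖)).mono_left hU1
      refine squeeze_zero_norm' ?_ h4
      filter_upwards [hU1 (eventually_ge_atTop 1)] with k hk
      have hk0 : (0 : ℝ) < k := by exact_mod_cast hk
      have hNk : 1 ≤ Ns k := hk.trans (hN1 k)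
      have hNk0 : (0 : ℝ) < Ns k := by exact_mod_cast hNk
      rw [empS_int (xs k) (Ns k) hNk (fun y => g (T y)) (g.continuous.comp hT),
        empS_int (xs k) (Ns k) hNk g g.continuous, ← sub_div, norm_div, Real.norm_natCast,
        div_le_iff₀ hNk0]
      have h5 := shift_R (fun n => g (xs k n)) ‖g‖ (fun n => g.norm_coe_le_norm _) (Ns k)
      have h6 : |∑ n ∈ Icc 1 (Ns k), (g (T (xs k n)) - g (xs k (n + 1)))| ≤
          2 * ‖g‖ * (brk T (xs k) (cs k) (Ns k)).card := by
        refine (abs_sum_le_sum_abs _ _).trans ?_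
        have h7 : ∀ n ∈ Icc 1 (Ns k), |g (T (xs k n)) - g (xs k (n + 1))| ≤
            if ¬ Cont T (xs k) (cs k) n then 2 * ‖g‖ else 0 := by
          intro n _
          by_cases hc : Cont T (xs k) (cs k) n
          · rw [if_neg (by simpa using hc), hc.1, sub_self, abs_zero]
          · rw [if_pos hc]
            have a1 := g.norm_coe_le_norm (T (xs k n))
            have a2 := g.norm_coe_le_norm (xs k (n + 1))
            have a3 := abs_sub (g (T (xs k n))) (g (xs k (n + 1)))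
            rw [Real.norm_eq_abs] at a1 a2
            linarith
        refine (sum_le_sum h7).trans (le_of_eq ?_)
        rw [← sum_filter, sum_const, nsmul_eq_mul]
        unfold brk
        ring
      have h8 : (Ns k : ℝ) ≥ k := by exact_mod_cast hN1 k
      have h9 := hbk k hk
      have hg0 : 0 ≤ ‖g‖ := norm_nonneg _
      have e1 : ∑ n ∈ Icc 1 (Ns k), g (T (xs k n)) - ∑ n ∈ Icc 1 (Ns k), g (xs k n) =
          ∑ n ∈ Icc 1 (Ns k), (g (T (xs k n)) - g (xs k (n + 1))) +
            (∑ n ∈ Icc 1 (Ns k), g (xs k (n + 1)) - ∑ n ∈ Icc 1 (Ns k), g (xs k n)) := by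
        rw [sum_sub_distrib]
        ring
      rw [Real.norm_eq_abs, e1]
      refine (abs_add_le _ _).trans ((add_le_add h6 h5).trans ?_)
      have h10 : (1 : ℝ) ≤ Ns k / k := by
        rw [le_div_iff₀ hk0]
        linarith
      calc 2 * ‖g‖ * (brk T (xs k) (cs k) (Ns k)).card + 2 * ‖g‖ ≤
            2 * ‖g‖ * (Ns k / k) + 2 * ‖g‖ * (Ns k / k) :=
            add_le_add (mul_le_mul_of_nonneg_left h9 (by positivity))
              (le_mul_of_one_le_right (by positivity) h10)
        _ = 4 * ‖g‖ / k * Ns k := by ring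
    have h6 := h1.sub h2
    exact sub_eq_zero.1 (tendsto_nhds_unique h6 h3)
  obtain ⟨σ, hσf, hσs, hσ⟩ := hs ν inferInstance hinv
  set M : ℝ := ‖f‖ with hM
  have hM0 : 0 ≤ M := norm_nonneg _
  have s2 : (0 : ℝ) < √3 := Real.sqrt_pos.2 (by norm_num)
  have s3 : √2 ≤ √3 := Real.sqrt_le_sqrt (by norm_num)
  set r : ℝ := ε / (4 * (√3 * (M + 1))) with hr
  have hr0 : 0 < r := by positivity
  obtain ⟨S, c, hc1', hc2⟩ := sing_poly σ hσs (r ^ 2) (by positivity)
  set K : ℕ := ∑ h ∈ S, h.natAbs with hK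
  have hKS : ∀ h ∈ S, |h| ≤ K := by
    intro h hh
    have := single_le_sum (f := fun h : ℤ => h.natAbs) (fun _ _ => Nat.zero_le _) hh
    rw [Int.abs_eq_natAbs]
    exact_mod_cast this
  -- the continuous function
  set G : X → ℝ := fun y => ‖∑ h ∈ S, c h * f (T^[(K + h).toNat] y) - f (T^[K] y)‖ ^ 2 with hG
  have hGc : Continuous G := by
    rw [hG]
    refine (Continuous.norm ?_).pow 2
    refine Continuous.sub ?_ (f.continuous.comp (hT.iterate K))
    exact continuous_finsetSum _ fun h _ => continuous_const.mul (f.continuous.comp (hT.iterate _))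
  have hG0 : ∀ y, 0 ≤ G y := fun y => by
    rw [hG]
    positivity
  have hGν : ∫ y, G y ∂(ν : Measure X) ≤ r ^ 2 := by
    have := spec_id (ν : Measure X) T hT hinv f σ hσ K S hKS c
    rw [hG]
    simp only []
    rw [this]
    exact hc2
  have hGt := hint (BoundedContinuousFunction.mkOfCompact ⟨G, hGc⟩)
  have hev : ∀ᶠ k in (U : Filter ℕ), ∫ y, G y ∂(empS (xs k) (Ns k)) < 2 * r ^ 2 := by
    refine hGt.eventually_lt_const ?_
    have : (0 : ℝ) < r ^ 2 := by positivity
    have h7 : ∫ y, (BoundedContinuousFunction.mkOfCompact ⟨G, hGc⟩) y ∂(ν : Measure X) ≤ r ^ 2 := hGν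
    linarith
  obtain ⟨N₀, hN₀⟩ := hB K
  set N₁ : ℕ := ⌈2 * K * M * (1 + ∑ h ∈ S, ‖c h‖) / (ε / 2)⌉₊ with hN₁
  set W : ℝ := (M * (1 + ∑ h ∈ S, ‖c h‖)) ^ 2 with hW
  have hW0 : 0 ≤ W := by rw [hW]; positivity
  set N₂ : ℕ := ⌈W * (4 * K) / r ^ 2⌉₊ with hN₂
  have hv3 : ∀ᶠ k in (U : Filter ℕ), N₀ + 1 ≤ k := hU1 (eventually_ge_atTop (N₀ + 1))
  have hv4 : ∀ᶠ k in (U : Filter ℕ), N₁ ≤ k := hU1 (eventually_ge_atTop N₁)
  have hv5 : ∀ᶠ k in (U : Filter ℕ), N₂ ≤ k := hU1 (eventually_ge_atTop N₂)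
  obtain ⟨k, hk2, hk3, hk4, hk5⟩ := (hev.and (hv3.and (hv4.and hv5))).exists
  have hk1 : 1 ≤ k := le_trans (Nat.le_add_left 1 N₀) hk3
  have hk0 : (0 : ℝ) < k := by exact_mod_cast hk1
  obtain ⟨N, hNe⟩ : ∃ N, N = Ns k := ⟨_, rfl⟩
  obtain ⟨x, hxe⟩ : ∃ x, x = xs k := ⟨_, rfl⟩
  obtain ⟨d, hde⟩ : ∃ d, d = cs k := ⟨_, rfl⟩
  have hNk := hN1 k
  have hNE := hN2 k
  have hd1 := hc1 k
  have hbk1 := hbk k hk1
  have hl := hlarge k
  rw [← hNe] at hNk hNE hbk1 hl hk2
  rw [← hxe] at hbk1 hl hk2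
  rw [← hde] at hbk1 hl hd1
  have hNpos : 1 ≤ N := hk1.trans hNk
  have hN0 : (0 : ℝ) < N := by exact_mod_cast hNpos
  have hkN : (k : ℝ) ≤ N := by exact_mod_cast hNk
  rw [empS_int x N hNpos G hGc, div_lt_iff₀ hN0] at hk2
  -- the main estimate
  have hD : ∑ n ∈ Icc 1 N, ‖∑ h ∈ S, c h * (fun n => d n * f (x n)) (n + (K + h).toNat) -
      (fun n => d n * f (x n)) (n + K)‖ ^ 2 ≤ 3 * r ^ 2 * N := by
    have a1 : ∀ n ∈ Icc 1 N, ‖∑ h ∈ S, c h * (fun n => d n * f (x n)) (n + (K + h).toNat) -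
        (fun n => d n * f (x n)) (n + K)‖ ^ 2 ≤
          G (x n) + if ¬ ∀ b < 2 * K, Cont T x d (n + b) then W else 0 := by
      intro n _
      by_cases hg : ∀ b < 2 * K, Cont T x d (n + b)
      · rw [if_neg (by simpa using hg), add_zero]
        have b1 := cont_iter T x d n (2 * K) hg
        have b2 : ∑ h ∈ S, c h * (fun n => d n * f (x n)) (n + (K + h).toNat) -
            (fun n => d n * f (x n)) (n + K) =
            d n * (∑ h ∈ S, c h * f (T^[(K + h).toNat] (x n)) - f (T^[K] (x n))) := by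
          rw [mul_sub, mul_sum]
          congr 1
          · refine sum_congr rfl fun h hh => ?_
            have hh' := abs_le.1 (hKS h hh)
            have b3 := b1 (K + h).toNat (by omega)
            simp only []
            rw [b3.1, b3.2]
            ring
          · have b3 := b1 K (by omega)
            simp only []
            rw [b3.1, b3.2]
        rw [b2, norm_mul, mul_pow]
        rw [hG]
        simp only []
        exact mul_le_of_le_one_left (by positivity) (pow_le_one₀ (norm_nonneg _) (hd1 n))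
      · rw [if_pos hg]
        have b1 : ‖∑ h ∈ S, c h * (fun n => d n * f (x n)) (n + (K + h).toNat) -
            (fun n => d n * f (x n)) (n + K)‖ ≤ M * (1 + ∑ h ∈ S, ‖c h‖) := by
          have b0 : ∀ m, ‖d m * f (x m)‖ ≤ M := by
            intro m
            rw [norm_mul]
            calc ‖d m‖ * ‖f (x m)‖ ≤ 1 * M := mul_le_mul (hd1 m) (f.norm_coe_le_norm _) (norm_nonneg _) zero_le_one
              _ = M := one_mul _
          refine (norm_sub_le _ _).trans ?_
          have b2 : ‖∑ h ∈ S, c h * (fun n => d n * f (x n)) (n + (K + h).toNat)‖ ≤ M * ∑ h ∈ S, ‖c h‖ := by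
            rw [mul_sum]
            refine (norm_sum_le _ _).trans (sum_le_sum fun h _ => ?_)
            rw [norm_mul, mul_comm]
            exact mul_le_mul_of_nonneg_right (b0 _) (norm_nonneg _)
          have b3 := b0 (n + K)
          simp only [] at b2 ⊢
          linarith
        have b2 := pow_le_pow_left₀ (norm_nonneg _) b1 2
        have b3 := hG0 (x n)
        rw [hW]
        linarith
    refine (sum_le_sum a1).trans ?_
    rw [sum_add_distrib, ← sum_filter, sum_const, nsmul_eq_mul]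
    have a2 := bad_card T x d N (2 * K)
    have a3 : (((Icc 1 N).filter (fun n => ¬ ∀ b < 2 * K, Cont T x d (n + b))).card : ℝ) ≤
        2 * K * (brk T x d N).card + 2 * K := by exact_mod_cast a2
    have a4 : 2 * (K : ℝ) * (brk T x d N).card + 2 * K ≤ 4 * K * (N / k) := by
      have b1 : (1 : ℝ) ≤ N / k := by
        rw [le_div_iff₀ hk0]
        linarith
      have b2 : (0 : ℝ) ≤ 2 * K := by positivity
      nlinarith
    have a5 : W * (4 * K) ≤ r ^ 2 * k := by
      have b1 : W * (4 * K) / r ^ 2 ≤ (k : ℝ) := (Nat.le_ceil _).trans (Nat.cast_le.2 hk5)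
      rw [div_le_iff₀ (by positivity)] at b1
      linarith
    have a6 : (((Icc 1 N).filter (fun n => ¬ ∀ b < 2 * K, Cont T x d (n + b))).card : ℝ) * W ≤ r ^ 2 * N := by
      calc (((Icc 1 N).filter (fun n => ¬ ∀ b < 2 * K, Cont T x d (n + b))).card : ℝ) * W ≤
            (4 * K * (N / k)) * W := mul_le_mul_of_nonneg_right (a3.trans a4) hW0
        _ = (W * (4 * K)) * (N / k) := by ring
        _ ≤ (r ^ 2 * k) * (N / k) := mul_le_mul_of_nonneg_right a5 (by positivity)
        _ = r ^ 2 * N := by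
            field_simp
    linarith
  have hcore := seq_core u hu N K S c hKS M (fun n => d n * f (x n)) (fun n => by
      rw [norm_mul]
      calc ‖d n‖ * ‖f (x n)‖ ≤ 1 * M := mul_le_mul (hd1 n) (f.norm_coe_le_norm _) (norm_nonneg _) zero_le_one
        _ = M := one_mul _)
    2 (by norm_num) (hN₀ N (by omega) hNE) (3 * r ^ 2) (by positivity) hD (αs k)
  have h8 : 2 * K * M * (1 + ∑ h ∈ S, ‖c h‖) ≤ ε / 2 * N := by
    have a1 : 2 * K * M * (1 + ∑ h ∈ S, ‖c h‖) / (ε / 2) ≤ (N : ℝ) :=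
      (Nat.le_ceil _).trans (Nat.cast_le.2 (hk4.trans hNk))
    rw [div_le_iff₀ (by positivity)] at a1
    linarith
  have h9 : √(∑ h ∈ S, ‖c h‖ ^ 2) * √2 * M + √(3 * r ^ 2) ≤ ε / 4 := by
    have a1 : √(∑ h ∈ S, ‖c h‖ ^ 2) ≤ r := by
      rw [Real.sqrt_le_left hr0.le]
      exact hc1'
    have a2 : √(3 * r ^ 2) = √3 * r := by
      rw [Real.sqrt_mul (by norm_num), Real.sqrt_sq hr0.le]
    rw [a2]
    calc √(∑ h ∈ S, ‖c h‖ ^ 2) * √2 * M + √3 * r ≤ r * √3 * M + √3 * r := by
          have : √(∑ h ∈ S, ‖c h‖ ^ 2) * √2 * M ≤ r * √3 * M :=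
            mul_le_mul_of_nonneg_right (mul_le_mul a1 s3 (Real.sqrt_nonneg _) hr0.le) hM0
          linarith
      _ = r * (√3 * (M + 1)) := by ring
      _ = ε / 4 := by
          rw [hr]
          field_simp
  have h10 : (√(∑ h ∈ S, ‖c h‖ ^ 2) * √2 * M + √(3 * r ^ 2)) * N ≤ ε / 4 * N :=
    mul_le_mul_of_nonneg_right h9 hN0.le
  have h11 : 0 < ε * N := by positivity
  linarith

end Pool.Agent.Q42.SH
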