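import Pool.Agent.Q42.SH.SarnakM
import Pool.Agent.Q42.SH.Lin

/-!
Library Q42.SH (helper42), part 17: systems with singular spectrum, moving points, logarithmic averages.
-/

set_option autoImplicit false

open Finset MeasureTheory Filter

namespace Pool.Agent.Q42.SH

open Pool.Agent.Helper602.MK (ee)
open Pool.Agent.Helper602.MK.N_J1c (c_ee_add c_ee_int c_norm_ee)
open Pool.Agent.Y958.U (LZ)

lemma tail_sq (b X : ℕ) (hb : 1 ≤ b) : ∑ N ∈ Icc b X, (1 : ℝ) / (N : ℝ) ^ 2 ≤ 2 / b := by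
  have hb0 : (0 : ℝ) < b := by exact_mod_cast hb
  rcases le_or_gt b X with hbX | hbX
  · have h1 : ∑ N ∈ Icc b X, (1 : ℝ) / (N : ℝ) ^ 2 ≤ 2 / b - 1 / X := by
      induction X, hbX using Nat.le_induction with
      | base =>
        rw [Icc_self, sum_singleton]
        have h2 : (1 : ℝ) / (b : ℝ) ^ 2 ≤ 1 / b := by
          apply one_div_le_one_div_of_le hb0
          have : (1 : ℝ) ≤ b := by exact_mod_cast hb
          nlinarith
        have h3 : (2 : ℝ) / b - 1 / b = 1 / b := by ring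
        rw [h3]
        exact h2
      | succ X hX ih =>
        rw [sum_Icc_succ_top (by omega)]
        have hX0 : (0 : ℝ) < X := by exact_mod_cast (by omega : 0 < X)
        have h2 : (1 : ℝ) / ((X + 1 : ℕ) : ℝ) ^ 2 ≤ 1 / X - 1 / ((X + 1 : ℕ) : ℝ) := by
          push_cast
          rw [div_sub_div _ _ hX0.ne' (by positivity), div_le_div_iff₀ (by positivity) (by positivity)]
          nlinarith
        linarith
    have h2 : (0 : ℝ) ≤ 1 / X := by positivity
    linarith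
  · rw [Icc_eq_empty (by omega), sum_empty]
    positivity

open Classical in
/-- the scales with many members of a set -/
lemma many_log (B : Set ℕ) (H X : ℕ) :
    (∑ N ∈ Icc 1 X, if N < ((Icc 1 N).filter (fun n => n ∈ B)).card * H then (1 : ℝ) / N else 0) ≤
      2 * H * ∑ b ∈ (Icc 1 X).filter (fun n => n ∈ B), (1 : ℝ) / b := by
  have h1 : ∀ N ∈ Icc 1 X, (if N < ((Icc 1 N).filter (fun n => n ∈ B)).card * H then (1 : ℝ) / N else 0) ≤
      ∑ b ∈ (Icc 1 X).filter (fun n => n ∈ B), if b ≤ N then H * (1 / (N : ℝ) ^ 2) else 0 := by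
    intro N hN
    rw [mem_Icc] at hN
    have hN0 : (0 : ℝ) < N := by exact_mod_cast (by omega : 0 < N)
    have h2 : ∑ b ∈ (Icc 1 X).filter (fun n => n ∈ B), (if b ≤ N then H * (1 / (N : ℝ) ^ 2) else 0) =
        ((Icc 1 N).filter (fun n => n ∈ B)).card * (H * (1 / (N : ℝ) ^ 2)) := by
      rw [← sum_filter, sum_const, nsmul_eq_mul]
      congr 3
      ext b
      simp only [mem_filter, mem_Icc]
      constructor
      · rintro ⟨⟨⟨a1, a2⟩, a3⟩, a4⟩
        exact ⟨⟨a1, a4⟩, a3⟩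
      · rintro ⟨⟨a1, a2⟩, a3⟩
        exact ⟨⟨⟨a1, by omega⟩, a3⟩, a2⟩
    rw [h2]
    split_ifs with hc
    · have h3 : (N : ℝ) ≤ ((Icc 1 N).filter (fun n => n ∈ B)).card * H := by exact_mod_cast hc.le
      calc (1 : ℝ) / N = N * (1 / (N : ℝ) ^ 2) := by
            field_simp
        _ ≤ (((Icc 1 N).filter (fun n => n ∈ B)).card * H) * (1 / (N : ℝ) ^ 2) :=
            mul_le_mul_of_nonneg_right h3 (by positivity)
        _ = _ := by ring
    · positivity
  refine (sum_le_sum h1).trans ?_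
  rw [sum_comm, mul_sum]
  refine sum_le_sum fun b hb => ?_
  rw [mem_filter, mem_Icc] at hb
  rw [← sum_filter, ← mul_sum]
  have h2 : (Icc 1 X).filter (fun N => b ≤ N) = Icc b X := by
    ext N
    simp only [mem_filter, mem_Icc]
    omega
  rw [h2]
  calc (H : ℝ) * ∑ N ∈ Icc b X, 1 / (N : ℝ) ^ 2 ≤ H * (2 / b) :=
        mul_le_mul_of_nonneg_left (tail_sq b X hb.1.1) (Nat.cast_nonneg H)
    _ = _ := by ring

/-- **logarithmic averages, all large scales** -/
theorem sarnak_move_log {X : Type*} [MetricSpace X] [CompactSpace X] (T : X → X) (f : C(X, ℂ))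
    (u : ℕ → ℂ) (hu : ∀ n, ‖u n‖ ≤ 1) (E : Set ℕ) (hE : LZ E)
    (hm : ∀ ε : ℝ, 0 < ε → ∃ H₀ : ℕ, ∀ N : ℕ, H₀ ≤ N → N ∉ E → ∀ (x : ℕ → X) (c : ℕ → ℂ),
      (∀ n, ‖c n‖ ≤ 1) → (brk T x c N).card * H₀ ≤ N → ∀ α : ℝ,
      ‖∑ n ∈ Icc 1 N, u n * (c n * f (x n)) * ee (α * n)‖ ≤ ε * N)
    (ε : ℝ) (hε : 0 < ε) : ∃ H₀ : ℕ, ∀ N : ℕ, H₀ ≤ N → ∀ (x : ℕ → X) (c : ℕ → ℂ),
      (∀ n, ‖c n‖ ≤ 1) → (∑ b ∈ brk T x c N, (1 : ℝ) / b) * H₀ ≤ Real.log N → ∀ α : ℝ,
      ‖∑ n ∈ Icc 1 N, u n * (c n * f (x n)) * ee (α * n) / n‖ ≤ ε * Real.log N := by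
  classical
  set M : ℝ := ‖f‖ + 1 with hM
  have hM0 : 0 < M := by positivity
  obtain ⟨H₁, h1⟩ := hm (ε / 8) (by positivity)
  obtain ⟨T₁, hT₁⟩ : ∃ T₁ : Set ℕ, T₁ = E ∪ {N | N < H₁} := ⟨_, rfl⟩
  have hT : LZ T₁ := by
    rw [hT₁]
    exact Pool.Agent.Y842.EL.LZ_union hE (Pool.Agent.Y958.U.LZ_bdd _ H₁ fun n hn => hn)
  have hlog : Tendsto (fun X : ℕ => Real.log X) atTop atTop :=
    Real.tendsto_log_atTop.comp tendsto_natCast_atTop_atTop
  have h3 := hT.eventually (ge_mem_nhds (show (0 : ℝ) < ε / (8 * M) by positivity))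
  obtain ⟨X₀, hX₀⟩ := eventually_atTop.1 (h3.and ((hlog.eventually_ge_atTop (8 * (M + 1) / ε)).and
    (hlog.eventually_gt_atTop 1)))
  set H₂ : ℕ := ⌈2 * H₁ * (8 * M / ε)⌉₊ + 1 with hH₂
  refine ⟨X₀ + H₂, fun N hN x c hc hb α => ?_⟩
  obtain ⟨b1, b2, b3⟩ := hX₀ N (by omega)
  have b30 : 0 < Real.log N := by linarith
  rw [div_le_iff₀ b30] at b1
  rw [div_le_iff₀ hε] at b2
  -- the set of bad scales
  set B : Set ℕ := {n | ¬ Cont T x c n} with hB
  have hbrk : ∀ m, brk T x c m = (Icc 1 m).filter (fun n => n ∈ B) := by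
    intro m
    unfold brk
    rfl
  have hmany : (∑ m ∈ Icc 1 N, if m < (brk T x c m).card * H₁ then (1 : ℝ) / m else 0) ≤
      ε / (8 * M) * Real.log N := by
    have c1 := many_log B H₁ N
    have c0 : 0 ≤ ∑ b ∈ brk T x c N, (1 : ℝ) / b := sum_nonneg fun _ _ => by positivity
    have c2 : 2 * (H₁ : ℝ) * ∑ b ∈ brk T x c N, (1 : ℝ) / b ≤ ε / (8 * M) * Real.log N := by
      have d1 : 2 * (H₁ : ℝ) * (8 * M / ε) ≤ ((X₀ + H₂ : ℕ) : ℝ) := by
        refine (Nat.le_ceil _).trans ?_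
        exact_mod_cast (by omega : ⌈2 * (H₁ : ℝ) * (8 * M / ε)⌉₊ ≤ X₀ + H₂)
      have d2 : 2 * (H₁ : ℝ) = 2 * H₁ * (8 * M / ε) * (ε / (8 * M)) := by
        field_simp
      calc 2 * (H₁ : ℝ) * ∑ b ∈ brk T x c N, (1 : ℝ) / b =
            (2 * H₁ * (8 * M / ε)) * (∑ b ∈ brk T x c N, (1 : ℝ) / b) * (ε / (8 * M)) := by
            rw [d2]
            field_simp
        _ ≤ ((X₀ + H₂ : ℕ) : ℝ) * (∑ b ∈ brk T x c N, (1 : ℝ) / b) * (ε / (8 * M)) :=
            mul_le_mul_of_nonneg_right (mul_le_mul_of_nonneg_right d1 c0) (by positivity)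
        _ ≤ Real.log N * (ε / (8 * M)) := by
            refine mul_le_mul_of_nonneg_right ?_ (by positivity)
            rw [mul_comm]
            exact hb
        _ = _ := by ring
    refine le_trans (le_of_eq ?_) (c1.trans (le_trans (le_of_eq ?_) c2))
    · refine sum_congr rfl fun m _ => ?_
      rw [hbrk]
      congr
    · rw [hbrk]
      congr
  obtain ⟨T', hT'⟩ : ∃ T' : Set ℕ, T' = T₁ ∪ {m | m < (brk T x c m).card * H₁} := ⟨_, rfl⟩
  have hmem : ∀ m, m ∉ T₁ → ¬ (m < (brk T x c m).card * H₁) → m ∉ T' := by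
    intro m d1 d2 hh
    rw [hT'] at hh
    rcases hh with hh | hh
    · exact d1 hh
    · exact d2 hh
  have hsum : (∑ m ∈ Icc 1 N, if m ∈ T' then (1 : ℝ) / m else 0) ≤ ε / (4 * M) * Real.log N := by
    have c1 : ∀ m ∈ Icc 1 N, (if m ∈ T' then (1 : ℝ) / m else 0) ≤
        (if m ∈ T₁ then (1 : ℝ) / m else 0) +
          if m < (brk T x c m).card * H₁ then (1 : ℝ) / m else 0 := by
      intro m _
      have d0 : (0 : ℝ) ≤ 1 / m := by positivity
      by_cases d1 : m ∈ T₁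
      · rw [if_pos d1]
        split_ifs <;> linarith
      · by_cases d2 : m < (brk T x c m).card * H₁
        · rw [if_pos d2, if_neg d1]
          split_ifs <;> linarith
        · rw [if_neg d1, if_neg d2, if_neg (hmem m d1 d2)]
          simp
    refine (sum_le_sum c1).trans ?_
    rw [sum_add_distrib]
    refine (add_le_add b1 hmany).trans (le_of_eq ?_)
    field_simp
    ring
  -- the normalised function
  have hF : ∀ n, ‖u n * (c n * f (x n)) * ee (α * n) / (M : ℂ)‖ ≤ 1 := by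
    intro n
    rw [norm_div, Complex.norm_real, Real.norm_of_nonneg hM0.le, div_le_one hM0, norm_mul, norm_mul, norm_mul,
      c_norm_ee, mul_one]
    have d1 := f.norm_coe_le_norm (x n)
    calc ‖u n‖ * (‖c n‖ * ‖f (x n)‖) ≤ 1 * (1 * ‖f‖) :=
          mul_le_mul (hu n) (mul_le_mul (hc n) d1 (norm_nonneg _) zero_le_one) (by positivity) zero_le_one
      _ ≤ M := by rw [hM]; linarith
  have h4 := log_c (fun n => u n * (c n * f (x n)) * ee (α * n) / (M : ℂ)) hF (ε / 8 / M) (by positivity) N T'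
    (fun m hm1 hm2 hmT => by
      rw [hT', hT₁] at hmT
      have c1 : m ∉ E := fun hh => hmT (Or.inl (Or.inl hh))
      have c2 : H₁ ≤ m := by
        by_contra hcc
        exact hmT (Or.inl (Or.inr (not_le.1 hcc)))
      have c3 : (brk T x c m).card * H₁ ≤ m := by
        by_contra hcc
        exact hmT (Or.inr (not_le.1 hcc))
      have c4 := h1 m c2 c1 x c hc c3 α
      rw [← sum_div, norm_div, Complex.norm_real, Real.norm_of_nonneg hM0.le, div_le_iff₀ hM0]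
      refine c4.trans (le_of_eq ?_)
      field_simp)
  have e1 : ∑ n ∈ Icc 1 N, u n * (c n * f (x n)) * ee (α * n) / (M : ℂ) / n =
      (∑ n ∈ Icc 1 N, u n * (c n * f (x n)) * ee (α * n) / n) / (M : ℂ) := by
    rw [sum_div]
    exact sum_congr rfl fun n _ => by ring
  have e2 : ‖∑ n ∈ Icc 1 N, u n * (c n * f (x n)) * ee (α * n) / (M : ℂ) / n‖ =
      ‖∑ n ∈ Icc 1 N, u n * (c n * f (x n)) * ee (α * n) / n‖ / M := by
    rw [e1, norm_div, Complex.norm_real, Real.norm_of_nonneg hM0.le]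
  rw [e2, div_le_iff₀ hM0] at h4
  refine h4.trans ?_
  have e3 : (ε / 8 / M * (1 + Real.log N) + ε / (4 * M) * Real.log N + 1) * M =
      ε / 8 * (1 + Real.log N) + ε / 4 * Real.log N + M := by
    field_simp
  have h5 : (ε / 8 / M * (1 + Real.log N) + (∑ m ∈ Icc 1 N, if m ∈ T' then (1 : ℝ) / m else 0) + 1) * M ≤
      (ε / 8 / M * (1 + Real.log N) + ε / (4 * M) * Real.log N + 1) * M := by
    refine mul_le_mul_of_nonneg_right ?_ hM0.le
    linarith
  refine h5.trans ?_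
  rw [e3]
  nlinarith

end Pool.Agent.Q42.SH
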