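import Pool.Agent.Q42.SH.Sing
import Pool.Agent.Q42.SH.BesOne

/-!
Library Q42.SH (helper42), part 11: sequences whose spectral measures are singular are orthogonal to
every sequence with asymptotically orthogonal shifts.
-/

set_option autoImplicit false

open Finset MeasureTheory Filter

namespace Pool.Agent.Q42.SH

open Pool.Agent.Helper602.MK (ee)
open Pool.Agent.Helper602.MK.N_J1c (c_ee_add c_ee_int c_norm_ee)

lemma shift_M (Q : ℕ → ℂ) (M : ℝ) (hQ : ∀ n, ‖Q n‖ ≤ M) (m N : ℕ) :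
    ‖∑ n ∈ Icc 1 N, Q (n + m) - ∑ n ∈ Icc 1 N, Q n‖ ≤ 2 * m * M := by
  have hM0 : 0 ≤ M := (norm_nonneg _).trans (hQ 0)
  rcases hM0.eq_or_lt with h0 | h0
  · have hz : ∀ n, Q n = 0 := by
      intro n
      have := hQ n
      rw [← h0] at this
      exact norm_le_zero_iff.1 this
    simp only [hz, sum_const_zero, sub_zero, norm_zero]
    rw [← h0]
    simp
  · have h1 := shift_c (fun n => Q n / M) (fun n => by
      rw [norm_div, Complex.norm_real, Real.norm_of_nonneg hM0, div_le_one h0]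
      exact hQ n) m N
    rw [← sum_div, ← sum_div, ← sub_div, norm_div, Complex.norm_real, Real.norm_of_nonneg hM0,
      div_le_iff₀ h0] at h1
    exact h1

/-- **the estimate for a sequence** -/
theorem seq_core (u : ℕ → ℂ) (hu : ∀ n, ‖u n‖ ≤ 1) (N K : ℕ) (S : Finset ℤ) (c : ℤ → ℂ)
    (hK : ∀ h ∈ S, |h| ≤ K) (M : ℝ) (ξ : ℕ → ℂ) (hξ : ∀ n, ‖ξ n‖ ≤ M) (B : ℝ) (hB0 : 0 ≤ B)
    (hB : ∀ (ζ : ℕ → ℂ) (α : ℕ → ℝ), ∑ a ∈ range (2 * K + 1),
      ‖∑ n ∈ Icc 1 N, u (n + a) * ζ n * ee (α a * n)‖ ^ 2 ≤ B * N * ∑ n ∈ Icc 1 N, ‖ζ n‖ ^ 2)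
    (Δ : ℝ) (hΔ0 : 0 ≤ Δ) (hΔ : ∑ n ∈ Icc 1 N,
      ‖∑ h ∈ S, c h * ξ (n + (K + h).toNat) - ξ (n + K)‖ ^ 2 ≤ Δ * N) (α : ℝ) :
    ‖∑ n ∈ Icc 1 N, u n * ξ n * ee (α * n)‖ ≤
      (√(∑ h ∈ S, ‖c h‖ ^ 2) * √B * M + √Δ) * N + 2 * K * M * (1 + ∑ h ∈ S, ‖c h‖) := by
  have hM0 : 0 ≤ M := (norm_nonneg _).trans (hξ 0)
  have hN0 : (0 : ℝ) ≤ N := Nat.cast_nonneg N
  set Q : ℕ → ℂ := fun n => u n * ξ n * ee (α * n) with hQ
  have h1 := shift_M Q M (fun n => by
    rw [hQ]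
    simp only []
    rw [norm_mul, norm_mul, c_norm_ee, mul_one]
    calc ‖u n‖ * ‖ξ n‖ ≤ 1 * M := mul_le_mul (hu n) (hξ n) (norm_nonneg _) zero_le_one
      _ = M := one_mul _) K N
  -- the two parts
  set D : ℕ → ℂ := fun n => ∑ h ∈ S, c h * ξ (n + (K + h).toNat) - ξ (n + K) with hD
  set O : ℤ → ℂ := fun h => ∑ n ∈ Icc 1 N, u (n + K) * ξ (n + (K + h).toNat) * ee (α * ((n + K : ℕ) : ℝ)) with hO
  set G : ℤ → ℂ := fun h => ∑ n ∈ Icc 1 N, u (n + (K - h).toNat) * ξ (n + K) *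
    ee (α * ((n + (K - h).toNat : ℕ) : ℝ)) with hG
  have e1 : ∑ n ∈ Icc 1 N, Q (n + K) = ∑ h ∈ S, c h * O h -
      ∑ n ∈ Icc 1 N, u (n + K) * ee (α * ((n + K : ℕ) : ℝ)) * D n := by
    have : ∑ h ∈ S, c h * O h = ∑ n ∈ Icc 1 N, ∑ h ∈ S, c h * (u (n + K) * ξ (n + (K + h).toNat) *
        ee (α * ((n + K : ℕ) : ℝ))) := by
      rw [sum_comm]
      refine sum_congr rfl fun h _ => ?_
      rw [hO]
      simp only []
      rw [mul_sum]
    rw [this, ← sum_sub_distrib]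
    refine sum_congr rfl fun n _ => ?_
    rw [hQ, hD]
    simp only []
    rw [mul_sub, mul_sum, sub_sub_eq_add_sub]
    have : ∑ h ∈ S, c h * (u (n + K) * ξ (n + (K + h).toNat) * ee (α * ((n + K : ℕ) : ℝ))) =
        ∑ h ∈ S, u (n + K) * ee (α * ((n + K : ℕ) : ℝ)) * (c h * ξ (n + (K + h).toNat)) :=
      sum_congr rfl fun h _ => by ring
    rw [this]
    ring
  have h2 : ‖∑ n ∈ Icc 1 N, u (n + K) * ee (α * ((n + K : ℕ) : ℝ)) * D n‖ ≤ √Δ * N := by
    have a1 : ‖∑ n ∈ Icc 1 N, u (n + K) * ee (α * ((n + K : ℕ) : ℝ)) * D n‖ ≤ ∑ n ∈ Icc 1 N, ‖D n‖ := by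
      refine (norm_sum_le _ _).trans (sum_le_sum fun n _ => ?_)
      rw [norm_mul, norm_mul, c_norm_ee, mul_one]
      exact mul_le_of_le_one_left (norm_nonneg _) (hu _)
    have a2 : (∑ n ∈ Icc 1 N, ‖D n‖) ^ 2 ≤ N * ∑ n ∈ Icc 1 N, ‖D n‖ ^ 2 := by
      have := sq_sum_le_card_mul_sum_sq (s := Icc 1 N) (f := fun n => ‖D n‖)
      simpa using this
    refine a1.trans (le_of_sq_le_sq_nn (by positivity) ?_)
    calc (∑ n ∈ Icc 1 N, ‖D n‖) ^ 2 ≤ N * ∑ n ∈ Icc 1 N, ‖D n‖ ^ 2 := a2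
      _ ≤ N * (Δ * N) := mul_le_mul_of_nonneg_left hΔ hN0
      _ = (√Δ * N) ^ 2 := by
          rw [mul_pow, Real.sq_sqrt hΔ0]
          ring
  have h3 : ∀ h ∈ S, ‖O h - G h‖ ≤ 2 * K * M := by
    intro h hh
    have hhK := hK h hh
    rcases le_or_gt 0 h with hp | hn
    · obtain ⟨r, rfl⟩ := Int.eq_ofNat_of_zero_le hp
      rw [abs_of_nonneg hp] at hhK
      have hrK : r ≤ K := by exact_mod_cast hhK
      have b1 := shift_M (fun n => u (n + (K - r)) * ξ (n + K) * ee (α * ((n + (K - r) : ℕ) : ℝ))) M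
        (fun n => by
          rw [norm_mul, norm_mul, c_norm_ee, mul_one]
          calc ‖u _‖ * ‖ξ _‖ ≤ 1 * M := mul_le_mul (hu _) (hξ _) (norm_nonneg _) zero_le_one
            _ = M := one_mul _) r N
      have b2 : O (r : ℤ) = ∑ n ∈ Icc 1 N, (u (n + r + (K - r)) * ξ (n + r + K) *
          ee (α * ((n + r + (K - r) : ℕ) : ℝ))) := by
        rw [hO]
        refine sum_congr rfl fun n _ => ?_
        have c1 : (((K : ℤ) + r).toNat) = K + r := by omega
        have c2 : n + r + (K - r) = n + K := by omega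
        have c3 : n + r + K = n + (K + r) := by omega
        rw [c1, c2, c3]
      have b3 : G (r : ℤ) = ∑ n ∈ Icc 1 N, u (n + (K - r)) * ξ (n + K) * ee (α * ((n + (K - r) : ℕ) : ℝ)) := by
        rw [hG]
        refine sum_congr rfl fun n _ => ?_
        have c1 : (((K : ℤ) - r).toNat) = K - r := by omega
        rw [c1]
      rw [b2, b3]
      refine b1.trans ?_
      have : (r : ℝ) ≤ K := by exact_mod_cast hrK
      nlinarith
    · obtain ⟨r, hr⟩ := Int.eq_ofNat_of_zero_le (show 0 ≤ -h by omega)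
      have hh' : h = -(r : ℤ) := by omega
      subst hh'
      rw [abs_of_nonpos hn.le, neg_neg] at hhK
      have hrK : r ≤ K := by exact_mod_cast hhK
      have b1 := shift_M (fun n => u (n + K) * ξ (n + (K - r)) * ee (α * ((n + K : ℕ) : ℝ))) M
        (fun n => by
          rw [norm_mul, norm_mul, c_norm_ee, mul_one]
          calc ‖u _‖ * ‖ξ _‖ ≤ 1 * M := mul_le_mul (hu _) (hξ _) (norm_nonneg _) zero_le_one
            _ = M := one_mul _) r N
      have b2 : O (-(r : ℤ)) = ∑ n ∈ Icc 1 N, u (n + K) * ξ (n + (K - r)) * ee (α * ((n + K : ℕ) : ℝ)) := by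
        rw [hO]
        refine sum_congr rfl fun n _ => ?_
        have c1 : (((K : ℤ) + -(r : ℤ)).toNat) = K - r := by omega
        rw [c1]
      have b3 : G (-(r : ℤ)) = ∑ n ∈ Icc 1 N, u (n + r + K) * ξ (n + r + (K - r)) *
          ee (α * ((n + r + K : ℕ) : ℝ)) := by
        rw [hG]
        refine sum_congr rfl fun n _ => ?_
        have c1 : (((K : ℤ) - -(r : ℤ)).toNat) = K + r := by omega
        have c2 : n + r + (K - r) = n + K := by omega
        have c3 : n + r + K = n + (K + r) := by omega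
        rw [c1, c2, c3]
      rw [b2, b3, norm_sub_rev]
      refine b1.trans ?_
      have : (r : ℝ) ≤ K := by exact_mod_cast hrK
      nlinarith
  have h4 : ∑ h ∈ S, ‖G h‖ ^ 2 ≤ B * N * (N * M ^ 2) := by
    have b1 := hB (fun n => ξ (n + K)) (fun _ => α)
    have b2 : ∑ n ∈ Icc 1 N, ‖ξ (n + K)‖ ^ 2 ≤ N * M ^ 2 := by
      refine (sum_le_sum fun n _ => pow_le_pow_left₀ (norm_nonneg _) (hξ (n + K)) 2).trans ?_
      simp
    have b3 : ∀ h ∈ S, ‖G h‖ ^ 2 = ‖∑ n ∈ Icc 1 N, u (n + (K - h).toNat) * ξ (n + K) * ee (α * n)‖ ^ 2 := by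
      intro h _
      have : G h = (∑ n ∈ Icc 1 N, u (n + (K - h).toNat) * ξ (n + K) * ee (α * n)) *
          ee (α * ((K - h).toNat : ℝ)) := by
        rw [hG, sum_mul]
        refine sum_congr rfl fun n _ => ?_
        have c1 : ee (α * ((n + (K - h).toNat : ℕ) : ℝ)) = ee (α * n) * ee (α * ((K - h).toNat : ℝ)) := by
          rw [← c_ee_add]
          congr 1
          push_cast
          ring
        rw [c1]
        ring
      rw [this, norm_mul, c_norm_ee, mul_one]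
    rw [sum_congr rfl b3]
    have b4 : ∑ h ∈ S, ‖∑ n ∈ Icc 1 N, u (n + (K - h).toNat) * ξ (n + K) * ee (α * n)‖ ^ 2 ≤
        ∑ a ∈ range (2 * K + 1), ‖∑ n ∈ Icc 1 N, u (n + a) * ξ (n + K) * ee (α * n)‖ ^ 2 := by
      have hinj : Set.InjOn (fun h : ℤ => (K - h).toNat) S := by
        intro x hx y hy hxy
        have hx' := abs_le.1 (hK x hx)
        have hy' := abs_le.1 (hK y hy)
        simp only at hxy
        omega
      rw [← sum_image (f := fun a : ℕ => ‖∑ n ∈ Icc 1 N, u (n + a) * ξ (n + K) * ee (α * n)‖ ^ 2) hinj]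
      refine sum_le_sum_of_subset_of_nonneg ?_ fun _ _ _ => by positivity
      intro a ha
      rw [mem_image] at ha
      obtain ⟨h, hh, rfl⟩ := ha
      have := abs_le.1 (hK h hh)
      rw [mem_range]
      omega
    refine b4.trans (b1.trans ?_)
    exact mul_le_mul_of_nonneg_left b2 (by positivity)
  have h5 : ‖∑ h ∈ S, c h * G h‖ ≤ √(∑ h ∈ S, ‖c h‖ ^ 2) * √B * M * N := by
    have a1 : ‖∑ h ∈ S, c h * G h‖ ≤ ∑ h ∈ S, ‖c h‖ * ‖G h‖ := by
      refine (norm_sum_le _ _).trans (le_of_eq (sum_congr rfl fun h _ => norm_mul _ _))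
    have a2 := sum_mul_sq_le_sq_mul_sq S (fun h => ‖c h‖) (fun h => ‖G h‖)
    refine a1.trans (le_of_sq_le_sq_nn (by positivity) ?_)
    calc (∑ h ∈ S, ‖c h‖ * ‖G h‖) ^ 2 ≤ (∑ h ∈ S, ‖c h‖ ^ 2) * ∑ h ∈ S, ‖G h‖ ^ 2 := a2
      _ ≤ (∑ h ∈ S, ‖c h‖ ^ 2) * (B * N * (N * M ^ 2)) :=
          mul_le_mul_of_nonneg_left h4 (sum_nonneg fun _ _ => by positivity)
      _ = (√(∑ h ∈ S, ‖c h‖ ^ 2) * √B * M * N) ^ 2 := by
          rw [mul_pow, mul_pow, mul_pow, Real.sq_sqrt (sum_nonneg fun _ _ => by positivity),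
            Real.sq_sqrt hB0]
          ring
  have h6 : ‖∑ h ∈ S, c h * O h‖ ≤ √(∑ h ∈ S, ‖c h‖ ^ 2) * √B * M * N + (∑ h ∈ S, ‖c h‖) * (2 * K * M) := by
    have a1 : ∑ h ∈ S, c h * O h = ∑ h ∈ S, c h * G h + ∑ h ∈ S, c h * (O h - G h) := by
      rw [← sum_add_distrib]
      exact sum_congr rfl fun h _ => by ring
    have a2 : ‖∑ h ∈ S, c h * (O h - G h)‖ ≤ (∑ h ∈ S, ‖c h‖) * (2 * K * M) := by
      rw [sum_mul]
      refine (norm_sum_le _ _).trans (sum_le_sum fun h hh => ?_)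
      rw [norm_mul]
      exact mul_le_mul_of_nonneg_left (h3 h hh) (norm_nonneg _)
    rw [a1]
    exact (norm_add_le _ _).trans (add_le_add h5 a2)
  have h7 : ‖∑ n ∈ Icc 1 N, Q (n + K)‖ ≤ √(∑ h ∈ S, ‖c h‖ ^ 2) * √B * M * N +
      (∑ h ∈ S, ‖c h‖) * (2 * K * M) + √Δ * N := by
    rw [e1]
    exact (norm_sub_le _ _).trans (add_le_add h6 h2)
  have h8 := norm_sub_le (∑ n ∈ Icc 1 N, Q (n + K)) (∑ n ∈ Icc 1 N, Q (n + K) - ∑ n ∈ Icc 1 N, Q n)
  rw [sub_sub_cancel] at h8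
  show ‖∑ n ∈ Icc 1 N, Q n‖ ≤ _
  nlinarith

/-- the integral of a continuous function along a power of a measure preserving map -/
lemma int_iter {X : Type*} [TopologicalSpace X] [CompactSpace X] [MeasurableSpace X] [BorelSpace X]
    (ν : Measure X) [IsFiniteMeasure ν] (T : X → X) (hT : MeasurePreserving T ν ν) (b : ℕ)
    (g : X → ℂ) (hg : Continuous g) : ∫ x, g (T^[b] x) ∂ν = ∫ x, g x ∂ν := by
  have h1 := hT.iterate b
  have h2 := integral_map (μ := ν) (φ := T^[b]) h1.measurable.aemeasurable (f := g)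
    hg.aestronglyMeasurable
  rw [h1.map_eq] at h2
  exact h2.symm

/-- **the spectral identity** -/
theorem spec_id {X : Type*} [TopologicalSpace X] [CompactSpace X] [MeasurableSpace X] [BorelSpace X]
    (ν : Measure X) [IsFiniteMeasure ν] (T : X → X) (hTc : Continuous T) (hT : MeasurePreserving T ν ν)
    (f : C(X, ℂ)) (σ : Measure (AddCircle (1 : ℝ))) [IsFiniteMeasure σ]
    (hσ : ∀ h : ℕ, ∫ x, f (T^[h] x) * (starRingEnd ℂ) (f x) ∂ν = ∫ θ, fourier h θ ∂σ)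
    (K : ℕ) (S : Finset ℤ) (hK : ∀ h ∈ S, |h| ≤ K) (c : ℤ → ℂ) :
    ∫ x, ‖∑ h ∈ S, c h * f (T^[(K + h).toNat] x) - f (T^[K] x)‖ ^ 2 ∂ν =
      ∫ θ, ‖∑ h ∈ S, c h * fourier h θ - 1‖ ^ 2 ∂σ := by
  classical
  set S' : Finset ℤ := insert 0 S with hS'
  have hK' : ∀ h ∈ S', |h| ≤ K := by
    intro h hh
    rw [hS', mem_insert] at hh
    rcases hh with rfl | hh
    · simp
    · exact hK h hh
  set d : ℤ → ℂ := fun h => (if h ∈ S then c h else 0) - (if h = 0 then 1 else 0) with hd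
  have hsum : ∀ φ : ℤ → ℂ, ∑ h ∈ S', d h * φ h = ∑ h ∈ S, c h * φ h - φ 0 := by
    intro φ
    have a1 : ∑ h ∈ S', d h * φ h = ∑ h ∈ S', (if h ∈ S then c h * φ h else 0) -
        ∑ h ∈ S', (if h = 0 then φ h else 0) := by
      rw [← sum_sub_distrib]
      refine sum_congr rfl fun h _ => ?_
      rw [hd]
      simp only []
      split_ifs <;> ring
    rw [a1, ← sum_filter, sum_ite_eq' S' 0, if_pos (mem_insert_self 0 S)]
    congr 2
    ext h
    rw [mem_filter, hS', mem_insert]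
    tauto
  set φ : ℤ → C(X, ℂ) := fun h => ⟨fun x => f (T^[(K + h).toNat] x), f.continuous.comp (hTc.iterate _)⟩ with hφ
  have h1 := expand ν S' d φ
  have h2 := expand σ S' d (fun h => fourier (T := (1 : ℝ)) h)
  have h3 : ∀ i ∈ S', ∀ j ∈ S', ∫ x, φ i x * (starRingEnd ℂ) (φ j x) ∂ν =
      ∫ θ : AddCircle (1 : ℝ), fourier i θ * (starRingEnd ℂ) (fourier j θ) ∂σ := by
    have key : ∀ i ∈ S', ∀ j ∈ S', j ≤ i → ∫ x, φ i x * (starRingEnd ℂ) (φ j x) ∂ν =
        ∫ θ : AddCircle (1 : ℝ), fourier i θ * (starRingEnd ℂ) (fourier j θ) ∂σ := by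
      intro i hi j hj hij
      have hi' := abs_le.1 (hK' i hi)
      have hj' := abs_le.1 (hK' j hj)
      obtain ⟨r, hr⟩ := Int.eq_ofNat_of_zero_le (show 0 ≤ i - j by omega)
      have e1 : (K + i).toNat = r + (K + j).toNat := by omega
      have e2 : ∀ x, φ i x * (starRingEnd ℂ) (φ j x) =
          (fun y => f (T^[r] y) * (starRingEnd ℂ) (f y)) (T^[(K + j).toNat] x) := by
        intro x
        show f (T^[(K + i).toNat] x) * (starRingEnd ℂ) (f (T^[(K + j).toNat] x)) = _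
        rw [e1, Function.iterate_add_apply]
      simp_rw [e2]
      rw [int_iter ν T hT _ (fun y => f (T^[r] y) * (starRingEnd ℂ) (f y))
        ((f.continuous.comp (hTc.iterate r)).mul (Complex.continuous_conj.comp f.continuous)), hσ r]
      simp_rw [fourier_mul_conj, hr]
    intro i hi j hj
    rcases le_total j i with hij | hij
    · exact key i hi j hj hij
    · have h4 := key j hj i hi hij
      have e1 : ∀ x, φ i x * (starRingEnd ℂ) (φ j x) = (starRingEnd ℂ) (φ j x * (starRingEnd ℂ) (φ i x)) := by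
        intro x
        rw [map_mul, Complex.conj_conj, mul_comm]
      have e2 : ∀ θ : AddCircle (1 : ℝ), fourier i θ * (starRingEnd ℂ) (fourier j θ) =
          (starRingEnd ℂ) (fourier j θ * (starRingEnd ℂ) (fourier i θ)) := by
        intro θ
        rw [map_mul, Complex.conj_conj, mul_comm]
      simp_rw [e1, e2]
      rw [integral_conj, integral_conj, h4]
  have h5 : ((∫ x, ‖∑ i ∈ S', d i * φ i x‖ ^ 2 ∂ν : ℝ) : ℂ) =
      ((∫ θ : AddCircle (1 : ℝ), ‖∑ i ∈ S', d i * fourier i θ‖ ^ 2 ∂σ : ℝ) : ℂ) := by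
    rw [h1, h2]
    exact sum_congr rfl fun i hi => sum_congr rfl fun j hj => by rw [h3 i hi j hj]
  have h6 : ∫ x, ‖∑ i ∈ S', d i * φ i x‖ ^ 2 ∂ν =
      ∫ θ : AddCircle (1 : ℝ), ‖∑ i ∈ S', d i * fourier i θ‖ ^ 2 ∂σ := by exact_mod_cast h5
  have e3 : ∀ x, ∑ i ∈ S', d i * φ i x = ∑ h ∈ S, c h * f (T^[(K + h).toNat] x) - f (T^[K] x) := by
    intro x
    rw [hsum (fun i => φ i x)]
    show _ - f (T^[((K : ℤ) + 0).toNat] x) = _
    have : ((K : ℤ) + 0).toNat = K := by omega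
    rw [this]
    rfl
  have e4 : ∀ θ : AddCircle (1 : ℝ), ∑ i ∈ S', d i * fourier i θ = ∑ h ∈ S, c h * fourier h θ - 1 := by
    intro θ
    rw [hsum (fun i => fourier i θ), fourier_zero]
  simp_rw [e3, e4] at h6
  exact h6

/-- `f` has a singular spectral measure for the measure `ν` -/
def Spec {X : Type*} [MeasurableSpace X] [TopologicalSpace X] (ν : Measure X) (T : X → X) (f : C(X, ℂ)) : Prop :=
  ∃ σ : Measure (AddCircle (1 : ℝ)), IsFiniteMeasure σ ∧ σ ⟂ₘ AddCircle.haarAddCircle ∧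
    ∀ h : ℕ, ∫ x, f (T^[h] x) * (starRingEnd ℂ) (f x) ∂ν = ∫ θ, fourier h θ ∂σ

open Classical in
/-- the empirical measures -/
noncomputable def emp {X : Type*} [MeasurableSpace X] (T : X → X) (x : X) (N : ℕ) : Measure X :=
  if N = 0 then Measure.dirac x else ((N : ENNReal)⁻¹) • ∑ n ∈ Icc 1 N, Measure.dirac (T^[n] x)

lemma emp_prob {X : Type*} [MeasurableSpace X] (T : X → X) (x : X) (N : ℕ) : IsProbabilityMeasure (emp T x N) := by
  unfold emp
  split_ifs with h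
  · infer_instance
  · constructor
    rw [Measure.smul_apply, Measure.finsetSum_apply]
    simp only [measure_univ, sum_const, Nat.card_Icc, add_tsub_cancel_right, smul_eq_mul, nsmul_eq_mul, mul_one]
    exact ENNReal.inv_mul_cancel (by exact_mod_cast h) (ENNReal.natCast_ne_top N)

lemma emp_int {X : Type*} [TopologicalSpace X] [CompactSpace X] [MeasurableSpace X] [BorelSpace X]
    (T : X → X) (x : X) (N : ℕ) (hN : 1 ≤ N) (g : X → ℝ) (hg : Continuous g) :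
    ∫ y, g y ∂(emp T x N) = (∑ n ∈ Icc 1 N, g (T^[n] x)) / N := by
  unfold emp
  rw [if_neg (by omega), integral_smul_measure, integral_finsetSum_measure]
  · have : ∀ n ∈ Icc 1 N, ∫ y, g y ∂(Measure.dirac (T^[n] x)) = g (T^[n] x) := fun n _ =>
      integral_dirac' _ _ hg.stronglyMeasurable
    rw [sum_congr rfl this]
    simp
    ring
  · intro n _
    exact (BoundedContinuousFunction.mkOfCompact ⟨g, hg⟩).integrable _

end Pool.Agent.Q42.SH
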