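import Mathlib

/-!
Library Q42.SH (helper42), part 10: measures on the circle singular to Lebesgue measure: trigonometric
polynomials close to `1` for the measure and close to `0` for Lebesgue measure.
-/

set_option autoImplicit false

open Finset MeasureTheory

namespace Pool.Agent.Q42.SH

lemma cont_int {X : Type*} [TopologicalSpace X] [CompactSpace X] [MeasurableSpace X] [BorelSpace X]
    (m : Measure X) [IsFiniteMeasure m] (f : C(X, ℂ)) : Integrable (fun x => f x) m := by
  refine Integrable.of_bound (C := ‖f‖) f.continuous.aestronglyMeasurable ?_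
  exact Filter.Eventually.of_forall fun x => f.norm_coe_le_norm x

/-- the expansion of the square of a sum -/
theorem expand {X : Type*} [TopologicalSpace X] [CompactSpace X] [MeasurableSpace X] [BorelSpace X]
    (m : Measure X) [IsFiniteMeasure m] {ι : Type*} (S : Finset ι) (d : ι → ℂ) (φ : ι → C(X, ℂ)) :
    ((∫ x, ‖∑ i ∈ S, d i * φ i x‖ ^ 2 ∂m : ℝ) : ℂ) =
      ∑ i ∈ S, ∑ j ∈ S, d i * (starRingEnd ℂ) (d j) * ∫ x, φ i x * (starRingEnd ℂ) (φ j x) ∂m := by
  rw [← integral_complex_ofReal]
  have h1 : ∀ x, ((‖∑ i ∈ S, d i * φ i x‖ ^ 2 : ℝ) : ℂ) =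
      ∑ i ∈ S, ∑ j ∈ S, d i * (starRingEnd ℂ) (d j) * (φ i x * (starRingEnd ℂ) (φ j x)) := by
    intro x
    have h2 : ((‖∑ i ∈ S, d i * φ i x‖ ^ 2 : ℝ) : ℂ) =
        (∑ i ∈ S, d i * φ i x) * (starRingEnd ℂ) (∑ i ∈ S, d i * φ i x) := by
      rw [Complex.mul_conj, Complex.normSq_eq_norm_sq]
    rw [h2, map_sum, sum_mul_sum]
    refine sum_congr rfl fun i _ => sum_congr rfl fun j _ => ?_
    rw [map_mul]
    ring
  have hI : ∀ i j, Integrable (fun x => d i * (starRingEnd ℂ) (d j) * (φ i x * (starRingEnd ℂ) (φ j x))) m := by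
    intro i j
    have := cont_int m ((ContinuousMap.const X (d i * (starRingEnd ℂ) (d j))) *
      (φ i * (⟨fun x => (starRingEnd ℂ) (φ j x), Complex.continuous_conj.comp (φ j).continuous⟩ : C(X, ℂ))))
    exact this
  simp_rw [h1]
  rw [integral_finsetSum _ fun i _ => integrable_finsetSum _ fun j _ => hI i j]
  refine sum_congr rfl fun i _ => ?_
  rw [integral_finsetSum _ fun j _ => hI i j]
  refine sum_congr rfl fun j _ => ?_
  exact integral_const_mul _ _

lemma fourier_int (n : ℤ) (hn : n ≠ 0) : ∫ x : AddCircle (1 : ℝ), fourier n x ∂AddCircle.haarAddCircle = 0 := by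
  have h1 := (orthonormal_iff_ite.1 (orthonormal_fourier (T := (1 : ℝ)))) 0 n
  rw [if_neg (Ne.symm hn)] at h1
  have h2 := ContinuousMap.inner_toLp (𝕜 := ℂ) (AddCircle.haarAddCircle (T := (1 : ℝ))) (fourier 0) (fourier n)
  have h3 : (∫ x : AddCircle (1 : ℝ), fourier n x * (starRingEnd ℂ) (fourier 0 x) ∂AddCircle.haarAddCircle) = 0 := by
    rw [← h2]
    exact h1
  rw [← h3]
  refine integral_congr_ae (Filter.Eventually.of_forall fun x => ?_)
  simp

lemma fourier_mul_conj (m n : ℤ) (x : AddCircle (1 : ℝ)) :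
    fourier m x * (starRingEnd ℂ) (fourier n x) = fourier (m - n) x := by
  rw [← fourier_neg, ← fourier_add, sub_eq_add_neg]

/-- Parseval for trigonometric polynomials -/
theorem parseval (S : Finset ℤ) (c : ℤ → ℂ) :
    ∫ x : AddCircle (1 : ℝ), ‖∑ h ∈ S, c h * fourier h x‖ ^ 2 ∂AddCircle.haarAddCircle = ∑ h ∈ S, ‖c h‖ ^ 2 := by
  have h1 := expand (AddCircle.haarAddCircle (T := (1 : ℝ))) S c (fun h => fourier h)
  have h2 : ∀ i ∈ S, ∑ j ∈ S, c i * (starRingEnd ℂ) (c j) *
      ∫ x : AddCircle (1 : ℝ), fourier i x * (starRingEnd ℂ) (fourier j x) ∂AddCircle.haarAddCircle =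
      ((‖c i‖ ^ 2 : ℝ) : ℂ) := by
    intro i hi
    rw [sum_eq_single i]
    · have e1 : ∫ x : AddCircle (1 : ℝ), fourier i x * (starRingEnd ℂ) (fourier i x) ∂AddCircle.haarAddCircle = 1 := by
        have : ∀ x : AddCircle (1 : ℝ), fourier i x * (starRingEnd ℂ) (fourier i x) = 1 := by
          intro x
          rw [fourier_mul_conj, sub_self, fourier_zero]
        simp_rw [this]
        simp
      rw [e1, mul_one, Complex.mul_conj, Complex.normSq_eq_norm_sq]
    · intro j _ hj
      have e1 : ∫ x : AddCircle (1 : ℝ), fourier i x * (starRingEnd ℂ) (fourier j x) ∂AddCircle.haarAddCircle = 0 := by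
        simp_rw [fourier_mul_conj]
        exact fourier_int _ (sub_ne_zero.2 (Ne.symm hj))
      rw [e1, mul_zero]
    · intro hc
      exact absurd hi hc
  rw [sum_congr rfl h2, ← Complex.ofReal_sum] at h1
  exact_mod_cast h1

/-- **approximation** -/
theorem sing_poly (σ : Measure (AddCircle (1 : ℝ))) [IsFiniteMeasure σ]
    (hσ : σ ⟂ₘ AddCircle.haarAddCircle) (ε : ℝ) (hε : 0 < ε) : ∃ (S : Finset ℤ) (c : ℤ → ℂ),
      ∑ h ∈ S, ‖c h‖ ^ 2 ≤ ε ∧ ∫ x, ‖∑ h ∈ S, c h * fourier h x - 1‖ ^ 2 ∂σ ≤ ε := by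
  obtain ⟨s, hs, hσs, hHs⟩ := hσ
  set m := σ.real Set.univ with hm
  have hm0 : 0 ≤ m := measureReal_nonneg
  have hε4 : (0 : ℝ) < ε / 4 := by positivity
  -- a compact set `K` and an open set `U`
  obtain ⟨K, hKs, hK, hKσ⟩ := hs.compl.exists_isCompact_sdiff_lt (μ := σ) (measure_ne_top σ _)
    (ε := ENNReal.ofReal (ε / 4)) (by simpa using hε4)
  obtain ⟨U, hUs, hU, hUH⟩ := (sᶜ).exists_isOpen_lt_add (μ := AddCircle.haarAddCircle (T := (1 : ℝ)))
    (measure_ne_top _ _) (ε := ENNReal.ofReal (ε / 4)) (by simpa using hε4)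
  rw [hHs, zero_add] at hUH
  obtain ⟨g, hg0, hg1, hg⟩ := exists_continuous_zero_one_of_isClosed (s := Uᶜ) (t := K)
    hU.isClosed_compl hK.isClosed (by
      rw [Set.disjoint_left]
      intro x hx hxK
      exact hx (hUs (hKs hxK)))
  set gC : C(AddCircle (1 : ℝ), ℂ) := ⟨fun x => ((g x : ℝ) : ℂ), Complex.continuous_ofReal.comp g.continuous⟩ with hgC
  -- the trigonometric polynomial
  set η : ℝ := √(ε / (4 * (m + 1))) with hη
  have hη0 : 0 < η := Real.sqrt_pos.2 (by positivity)
  have hη2 : η ^ 2 = ε / (4 * (m + 1)) := Real.sq_sqrt (by positivity)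
  have hmem : gC ∈ (Submodule.span ℂ (Set.range (fourier (T := (1 : ℝ))))).topologicalClosure := by
    rw [span_fourier_closure_eq_top]
    trivial
  have hmem2 : gC ∈ closure ((Submodule.span ℂ (Set.range (fourier (T := (1 : ℝ)))) :
      Submodule ℂ C(AddCircle (1 : ℝ), ℂ)) : Set C(AddCircle (1 : ℝ), ℂ)) := hmem
  obtain ⟨P, hP, hPg⟩ := Metric.mem_closure_iff.1 hmem2 η hη0
  obtain ⟨c, hc⟩ := Finsupp.mem_span_range_iff_exists_finsupp.1 hP
  refine ⟨c.support, c, ?_, ?_⟩
  · have h1 : ∀ x, ∑ h ∈ c.support, c h * fourier h x = P x := by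
      intro x
      rw [← hc, Finsupp.sum, ContinuousMap.sum_apply]
      rfl
    rw [← parseval]
    simp_rw [h1]
    have h2 : ∀ x, ‖P x‖ ^ 2 ≤ 2 * η ^ 2 + 2 * U.indicator (fun _ => (1 : ℝ)) x := by
      intro x
      have a1 : ‖P x‖ ≤ η + ‖gC x‖ := by
        have b1 := (gC - P).norm_coe_le_norm x
        rw [← dist_eq_norm] at b1
        have b2 : ‖gC x - P x‖ ≤ η := b1.trans hPg.le
        have b3 := norm_sub_le (gC x) (gC x - P x)
        rw [sub_sub_cancel] at b3
        linarith
      have a2 : ‖gC x‖ ^ 2 ≤ U.indicator (fun _ => (1 : ℝ)) x := by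
        have b0 : ‖gC x‖ = g x := by
          show ‖((g x : ℝ) : ℂ)‖ = g x
          rw [Complex.norm_real, Real.norm_of_nonneg (hg x).1]
        rw [b0]
        by_cases hx : x ∈ U
        · rw [Set.indicator_of_mem hx]
          exact pow_le_one₀ (hg x).1 (hg x).2
        · rw [Set.indicator_of_notMem hx]
          have : g x = 0 := hg0 hx
          rw [this]
          norm_num
      have a3 : ‖P x‖ ^ 2 ≤ (η + ‖gC x‖) ^ 2 := pow_le_pow_left₀ (norm_nonneg _) a1 2
      nlinarith [sq_nonneg (η - ‖gC x‖)]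
    calc ∫ x, ‖P x‖ ^ 2 ∂AddCircle.haarAddCircle ≤
          ∫ x, (2 * η ^ 2 + 2 * U.indicator (fun _ => (1 : ℝ)) x) ∂AddCircle.haarAddCircle := by
          refine integral_mono_of_nonneg (Filter.Eventually.of_forall fun x => by positivity) ?_
            (Filter.Eventually.of_forall h2)
          exact (integrable_const _).add ((integrable_const _).indicator hU.measurableSet |>.const_mul _)
      _ = 2 * η ^ 2 + 2 * (AddCircle.haarAddCircle (T := (1 : ℝ))).real U := by
          rw [integral_add (integrable_const _) ((integrable_const _).indicator hU.measurableSet |>.const_mul _),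
            integral_const, integral_const_mul, integral_indicator_const _ hU.measurableSet]
          simp
      _ ≤ 2 * (ε / 4) + 2 * (ε / 4) := by
          have b1 : η ^ 2 ≤ ε / 4 := by
            rw [hη2]
            apply div_le_div_of_nonneg_left hε.le (by norm_num)
            linarith
          have b2 : (AddCircle.haarAddCircle (T := (1 : ℝ))).real U ≤ ε / 4 := by
            rw [Measure.real]
            exact ENNReal.toReal_le_of_le_ofReal hε4.le hUH.le
          linarith
      _ = ε := by ring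
  · have h1 : ∀ x, ∑ h ∈ c.support, c h * fourier h x = P x := by
      intro x
      rw [← hc, Finsupp.sum, ContinuousMap.sum_apply]
      rfl
    simp_rw [h1]
    have h2 : ∀ x, ‖P x - 1‖ ^ 2 ≤ 2 * η ^ 2 + 2 * (Kᶜ).indicator (fun _ => (1 : ℝ)) x := by
      intro x
      have a1 : ‖P x - 1‖ ≤ η + ‖gC x - 1‖ := by
        have b1 := (gC - P).norm_coe_le_norm x
        rw [← dist_eq_norm] at b1
        have b2 : ‖gC x - P x‖ ≤ η := b1.trans hPg.le
        have b3 := norm_sub_le (gC x - 1) (gC x - P x)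
        have e1 : gC x - 1 - (gC x - P x) = P x - 1 := by ring
        rw [e1] at b3
        linarith
      have a2 : ‖gC x - 1‖ ^ 2 ≤ (Kᶜ).indicator (fun _ => (1 : ℝ)) x := by
        have b0 : ‖gC x - 1‖ = 1 - g x := by
          show ‖((g x : ℝ) : ℂ) - 1‖ = 1 - g x
          have : ((g x : ℝ) : ℂ) - 1 = ((g x - 1 : ℝ) : ℂ) := by push_cast; ring
          rw [this, Complex.norm_real, Real.norm_eq_abs, abs_of_nonpos (by linarith [(hg x).2])]
          ring
        rw [b0]
        by_cases hx : x ∈ K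
        · rw [Set.indicator_of_notMem (fun hh : x ∈ Kᶜ => hh hx)]
          have : g x = 1 := hg1 hx
          rw [this]
          norm_num
        · rw [Set.indicator_of_mem (show x ∈ Kᶜ from hx)]
          exact pow_le_one₀ (by linarith [(hg x).2]) (by linarith [(hg x).1])
      have a3 : ‖P x - 1‖ ^ 2 ≤ (η + ‖gC x - 1‖) ^ 2 := pow_le_pow_left₀ (norm_nonneg _) a1 2
      nlinarith [sq_nonneg (η - ‖gC x - 1‖)]
    have hKm : MeasurableSet (Kᶜ) := hK.isClosed.measurableSet.compl
    calc ∫ x, ‖P x - 1‖ ^ 2 ∂σ ≤ ∫ x, (2 * η ^ 2 + 2 * (Kᶜ).indicator (fun _ => (1 : ℝ)) x) ∂σ := by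
          refine integral_mono_of_nonneg (Filter.Eventually.of_forall fun x => by positivity) ?_
            (Filter.Eventually.of_forall h2)
          exact (integrable_const _).add ((integrable_const _).indicator hKm |>.const_mul _)
      _ = 2 * η ^ 2 * m + 2 * σ.real Kᶜ := by
          rw [integral_add (integrable_const _) ((integrable_const _).indicator hKm |>.const_mul _),
            integral_const, integral_const_mul, integral_indicator_const _ hKm]
          simp
          ring
      _ ≤ 2 * (ε / 4) + 2 * (ε / 4) := by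
          have b1 : η ^ 2 * m ≤ ε / 4 := by
            rw [hη2, div_mul_eq_mul_div, div_le_div_iff₀ (by positivity) (by norm_num)]
            nlinarith
          have b2 : σ.real Kᶜ ≤ ε / 4 := by
            have c1 : σ Kᶜ ≤ σ (sᶜ \ K) := by
              calc σ Kᶜ ≤ σ (s ∪ (sᶜ \ K)) := by
                    apply measure_mono
                    intro x hx
                    by_cases hxs : x ∈ s
                    · exact Or.inl hxs
                    · exact Or.inr ⟨hxs, hx⟩
                _ ≤ σ s + σ (sᶜ \ K) := measure_union_le _ _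
                _ = σ (sᶜ \ K) := by rw [hσs, zero_add]
            rw [Measure.real]
            exact ENNReal.toReal_le_of_le_ofReal hε4.le (c1.trans hKσ.le)
          linarith
      _ = ε := by ring

end Pool.Agent.Q42.SH
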