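import Pool.Agent.Q42.SH.Scales

/-!
Library Q42.SH (helper42), part 3: the version uniform in `z`.
-/

set_option autoImplicit false

open Finset Filter

namespace Pool.Agent.Q42.SH

open Pool.Agent.Helper602.MK (ee)
open Pool.Agent.Helper602.MK.N_J1c (c_ee_add c_ee_int c_norm_ee)
open Pool.Agent.Y842.QY
open Pool.Agent.Y958.U (LZ)
open ArithmeticFunction (cardFactors)

open Classical in
/-- **products of any length in progression, uniformly** -/
theorem prog_unif (k t h Q : ℕ) (hk : 1 ≤ k) (ht : 1 ≤ t) (δ : ℝ) (hδ : 0 < δ) (ε : ℝ) (hε : 0 < ε) :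
    ∃ X₀ : ℕ, ∀ X : ℕ, X₀ ≤ X → ∀ z : ℂ, ‖z‖ = 1 → δ ≤ ‖z - 1‖ → ∀ q : ℕ, 1 ≤ q → q ≤ Q →
      ∀ κ : ℕ → ℕ → ℂ, (∀ j n, ‖κ j n‖ ≤ 1) → (∀ j n, κ j (n + q) = κ j n) → ∀ y : ℕ → ℕ,
      (∀ N, y N ≤ N) → ∃ T : Set ℕ, (∑ N ∈ Icc 1 X, if N ∈ T then (1 : ℝ) / N else 0) ≤ ε * Real.log X ∧
        ∀ N : ℕ, 1 ≤ N → N ≤ X → N ∉ T → ∀ α β : ℝ,
          ‖∑ n ∈ Icc 1 (y N), Pk z κ k t (n + h) * ph α β n‖ ≤ (√2 / 2 + ε) * N := by
  have hac : h + k * t ≠ h := by
    have : 0 < k * t := Nat.mul_pos hk ht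
    omega
  set η : ℝ := ε / 2 with hη
  have hη0 : 0 < η := by positivity
  obtain ⟨X₁, h1⟩ := PB_Zc (h + k * t) h hac δ hδ (ε * η ^ 2 / (2 * (Q + 1))) (by positivity)
  set N₁ : ℕ := ⌈2 * t / ε⌉₊ with hN₁
  have hlog : Tendsto (fun X : ℕ => Real.log X) atTop atTop :=
    Real.tendsto_log_atTop.comp tendsto_natCast_atTop_atTop
  obtain ⟨X₂, hX₂⟩ := eventually_atTop.1 (hlog.eventually_ge_atTop (N₁ * 2 / ε))
  refine ⟨X₁ + X₂, fun X hX z hz hz1 q hq1 hqQ κ hκ hκq y hy => ?_⟩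
  have hzc : ‖(starRingEnd ℂ) z‖ = 1 := by rw [RCLike.norm_conj, hz]
  have hq0 : (0 : ℝ) < q := by exact_mod_cast hq1
  have hqQ' : (q : ℝ) ≤ Q + 1 := by
    have : (q : ℝ) ≤ Q := by exact_mod_cast hqQ
    linarith
  obtain ⟨B, hB1, hB2⟩ := h1 X (by omega) (fun n => z ^ cardFactors n) ⟨z, hz.le, hz1, rfl⟩
    (fun n => (starRingEnd ℂ) z ^ cardFactors n) (fun n _ => by
      show ‖(starRingEnd ℂ) z ^ cardFactors n‖ ≤ 1
      rw [norm_pow, hzc, one_pow]) (fun m n hm hn _ => g_mul _ m n hm hn) y hy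
  have hB0 : ∀ N, 0 ≤ B N := fun N => (norm_nonneg _).trans (hB1 N 0)
  have h2 := hX₂ X (by omega)
  rw [div_le_iff₀ hε] at h2
  have hlog0 : 0 ≤ Real.log X := Real.log_natCast_nonneg X
  obtain ⟨T, hT⟩ : ∃ T : Set ℕ, ∀ N, N ∈ T ↔ (N < N₁ ∨ η ^ 2 * N / q < B N) :=
    ⟨{N | N < N₁ ∨ η ^ 2 * N / q < B N}, fun N => Iff.rfl⟩
  refine ⟨T, ?_, fun N hN1 hNX hNT α β => ?_⟩
  · have h3 : ∀ N ∈ Icc 1 X, (if N ∈ T then (1 : ℝ) / N else 0) ≤
        (if N < N₁ then 1 else 0) + q / η ^ 2 * (B N / (N : ℝ) ^ 2) := by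
      intro N hN
      rw [mem_Icc] at hN
      have hN0 : (0 : ℝ) < N := by exact_mod_cast (by omega : 0 < N)
      have hN1 : (1 : ℝ) ≤ N := by exact_mod_cast hN.1
      have p1 : 0 ≤ q / η ^ 2 * (B N / (N : ℝ) ^ 2) := by
        have := hB0 N
        positivity
      split_ifs with c1 c2 c2
      · have : (1 : ℝ) / N ≤ 1 := by rwa [div_le_one hN0]
        linarith
      · rcases (hT N).1 c1 with c1 | c1
        · exact absurd c1 c2
        · rw [zero_add]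
          rw [div_lt_iff₀ hq0] at c1
          rw [div_mul_div_comm, div_le_div_iff₀ hN0 (by positivity)]
          have e1 : q * B N * (N : ℝ) - 1 * (η ^ 2 * (N : ℝ) ^ 2) = (B N * q - η ^ 2 * N) * N := by ring
          have e2 : 0 ≤ (B N * q - η ^ 2 * N) * N := mul_nonneg (by linarith) hN0.le
          linarith
      · linarith
      · linarith
    refine (sum_le_sum h3).trans ?_
    rw [sum_add_distrib, ← mul_sum]
    have h5 : ∑ N ∈ Icc 1 X, (if N < N₁ then (1 : ℝ) else 0) ≤ N₁ := by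
      rw [← sum_filter, sum_const, nsmul_eq_mul, mul_one]
      have h7 : (Icc 1 X).filter (fun n => n < N₁) ⊆ range N₁ := by
        intro n hn
        rw [mem_range]
        exact (mem_filter.1 hn).2
      have h8 := card_le_card h7
      rw [card_range] at h8
      exact_mod_cast h8
    have h6 : q / η ^ 2 * ∑ N ∈ Icc 1 X, B N / (N : ℝ) ^ 2 ≤ ε / 2 * Real.log X := by
      calc q / η ^ 2 * ∑ N ∈ Icc 1 X, B N / (N : ℝ) ^ 2 ≤
            q / η ^ 2 * (ε * η ^ 2 / (2 * (Q + 1)) * Real.log X) :=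
            mul_le_mul_of_nonneg_left hB2 (by positivity)
        _ = (q / (Q + 1)) * (ε / 2 * Real.log X) := by
            field_simp
        _ ≤ 1 * (ε / 2 * Real.log X) := by
            apply mul_le_mul_of_nonneg_right _ (by positivity)
            rw [div_le_one (by positivity)]
            exact hqQ'
        _ = _ := one_mul _
    linarith
  · rw [hT, not_or, not_lt, not_lt] at hNT
    have h4 := reduce z hz κ hκ q hq1 hκq k t h (y N) N (hy N) η hη0.le α β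
      (fun γ => (hB1 N γ).trans hNT.2)
    have h5 : 2 * t / ε ≤ (N : ℝ) := (Nat.le_ceil _).trans (Nat.cast_le.2 hNT.1)
    rw [div_le_iff₀ hε] at h5
    rw [hη] at h4
    linarith

end Pool.Agent.Q42.SH
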